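import Pool.Agent.TH216.LX.Lx4
import Pool.Agent.TH216.ID.Gn3
import Pool.Agent.TH216.HDIL

set_option autoImplicit false

/-! Ideals with generic coefficients at the origin: conditions on the `v j` only. -/

namespace Pool.Agent.TH216.LX

open MvPolynomial Pool.Agent.W425.MM Pool.Agent.W425.GN
open Pool.Agent.W428.MOT Pool.Agent.W749.JI
open Pool.Agent.W425.ND (spa)
open Pool.Agent.W375.MG (zetaG Good good_one)
open Pool.Agent.W426.SM (gord face)
open Pool.Agent.W425.SV (NP)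
open Pool.Agent.W425.BF (B1 hz hz_support cof shf shf_ne)
open Pool.Agent.TH216.MF (SimR)
open Pool.Agent.TH216.MC (pos_of_ray)
open Pool.Agent.TH216.ID (YOK PI rootsI pi_nonB ConY conY_shift Dy mem_Dy cay_inj cay_ne yok_cay
  ysum_supp gp_gens feqL_ideal constr_W0 W0_Dx zetaI_mem Dx gp)
open Pool.Agent.TH216.HDI (gens InPolyI ysum)
open Pool.Agent.TH216.HDIL

section
variable {r N : ℕ}

/-- the condition on the rays -/
def HypYX (v : Fin r → Fin N → ℕ) (Y : Finset (Fin N)) : Prop :=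
  ∀ a : Fin N → ℕ, Pool.Agent.W426.SM.IsRay v a → 0 < gord v a → (∃ i ∈ Y, B1 v i a) ∨
    (∃ a' : Fin N → ℕ, 0 < gord v a' ∧ NonB v True a' ∧
      ((∑ i, a i : ℕ) : ℚ) / gord v a = ((∑ i, a' i : ℕ) : ℚ) / gord v a') ∨
    LocL v Y (((∑ i, a i : ℕ) : ℚ) / gord v a)

lemma HypYX.all {v : Fin r → Fin N → ℕ} {Y : Finset (Fin N)} (hL : HypYX v Y)
    (a : Fin N → ℕ) :
    (∃ a' : Fin N → ℕ, 0 < gord v a' ∧ NonB v True a' ∧
      ((∑ i, a i : ℕ) : ℚ) / gord v a = ((∑ i, a' i : ℕ) : ℚ) / gord v a') ∨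
    LocL v Y (((∑ i, a i : ℕ) : ℚ) / gord v a) := by
  by_cases hex : ∃ a' : Fin N → ℕ, Pool.Agent.W426.SM.IsRay v a' ∧ 0 < gord v a' ∧
      ((∑ i, a' i : ℕ) : ℚ) / gord v a' = ((∑ i, a i : ℕ) : ℚ) / gord v a ∧
      ¬ ∃ i ∈ Y, B1 v i a'
  · obtain ⟨a', h1, h2, h3, h4⟩ := hex
    have h5 := (hL a' h1 h2).resolve_left h4
    rw [h3] at h5
    exact h5
  · push Not at hex
    refine Or.inr fun j1 => Or.inr fun a' h1 h2 _ h4 => Or.inr ?_
    exact hex a' h1 h2 h4

theorem genYX0 {F : Type} [Field F] [Algebra F ℂ] (hr : 0 < r) (D : Finset (Fin N))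
    (v : Fin r → Fin N → ℕ) (Y : Finset (Fin N)) (hv : Function.Injective v)
    (hv0 : ∀ j, v j ≠ 0)
    (h : MvPolynomial (Fin N) F) (hh : ∀ w ∈ h.support, InN v D (fun i => w i))
    (hY : YOK v Y)
    (hvh : ∀ w ∈ h.support, ∀ j, ¬ ∀ x, w x = v j x) (hL : HypYX v Y) :
    ∃ g : MvPolynomial (Fin r) F, g ≠ 0 ∧ ConY D v h g := by
  classical
  have hne : NeZero r := ⟨by omega⟩
  have hnp : ∀ w ∈ h.support, NP v w := fun w hw => inN_np (hh w hw)
  obtain ⟨g1, hg1, h1⟩ := rootsI (F := F) hr v hv h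
  obtain ⟨g2, hg2, h2⟩ := gen_nonDF pF4 hr v (we h) (we_np v h hnp) (wc h)
  have hg3 : (∏ j : Fin r, (X j : MvPolynomial (Fin r) F)) ≠ 0 :=
    Finset.prod_ne_zero_iff.2 fun j _ => X_ne_zero j
  obtain ⟨S, hS, hz1⟩ := baseLX hr D v Y hv h hh hY hvh (PI v h)
    (fun α hα => relIX v hv hv0 h hnp α hα)
  refine ⟨g1 * g2 * ∏ j : Fin r, (X j : MvPolynomial (Fin r) F),
    mul_ne_zero (mul_ne_zero hg1 hg2) hg3, fun k _ _ _ _ c hc => ?_⟩
  rw [map_mul, map_mul, map_prod] at hc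
  have hcne : ∀ j, c j ≠ 0 := by
    intro j hj
    have h5 := Finset.prod_ne_zero_iff.1 (right_ne_zero_of_mul hc) j (Finset.mem_univ j)
    rw [aeval_X, hj, map_zero] at h5
    exact h5 rfl
  have hb := h1 _ (left_ne_zero_of_mul (left_ne_zero_of_mul hc))
  have hnd := h2 _ (right_ne_zero_of_mul (left_ne_zero_of_mul hc))
  have hnk : NonD (Fin.append v (we h)) (fun j => algebraMap k ℂ
      (Fin.append c (fun l => algebraMap F k (wc h l)) j)) := by
    rw [append_map]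
    simp only [← IsScalarTower.algebraMap_apply F k ℂ]
    exact hnd
  refine ⟨S, fun p hp => ?_, fun K _ _ W E hW hE hWD => hz1 k c hcne hnk K W E hW hE hWD⟩
  obtain ⟨a, ha, hg, hLP, rfl⟩ := hS p hp
  refine ⟨pos_of_ray ha, Int.natCast_pos.2 hg, fun b hb' => ?_⟩
  have hkey : ∀ α : ℚ, PI v h α → α = -(((∑ i, a i : ℕ) : ℚ) / gord v a) →
      b.eval (((-((∑ i, a i : ℕ) : ℤ) : ℤ) : ℂ) / ((gord v a : ℤ) : ℂ)) = 0 := by
    intro α hα hα'
    have h3 := hb b hb' α hα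
    rw [← h3, hα']
    congr 1
    push_cast
    ring
  rcases hL.all a with ⟨a', hg', hn', he⟩ | h6
  · exact hkey _ (pi_nonB v hv hv0 h hnp a' hg' hn') (by rw [he])
  · exact hkey _ (hLP h6) rfl

/-- **Generic coefficients.** -/
theorem genYX {F : Type} [Field F] [Algebra F ℂ] (hr : 0 < r) (D : Finset (Fin N))
    (v : Fin r → Fin N → ℕ) (Y : Finset (Fin N)) (hv : Function.Injective v)
    (hv0 : ∀ j, v j ≠ 0)
    (h : MvPolynomial (Fin N) F) (hh : ∀ w ∈ h.support, InN v D (fun i => w i))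
    (hY : YOK v Y) (hL : HypYX v Y) :
    ∃ g : MvPolynomial (Fin r) F, g ≠ 0 ∧ ConY D v h g := by
  obtain ⟨g, hg, hC⟩ := genYX0 hr D v Y hv hv0 (hz v h)
    (fun w hw => hh w ((hz_support v hv h).1 w hw)) hY (hz_support v hv h).2 hL
  exact ⟨shf (cof v h) g, shf_ne _ _ hg, conY_shift D v h g hC⟩

end

variable {ℓ r n : ℕ} {F : Type} [Field F]

lemma ysum_inN (π : Fin ℓ → Fin r) (m : Fin ℓ → Fin n → ℕ) (h : Fin r → MvPolynomial (Fin n) F)
    (hh : InPolyI π m h) : ∀ w ∈ (ysum h).support, InN (cay π m) (Dx n r) (fun i => w i) := by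
  intro w hw
  obtain ⟨i, u, hu, h1, h2⟩ := ysum_supp h w hw
  obtain ⟨l, hl0, hl1, hl2, hl3⟩ := hh i u hu
  have hy : ∀ x : Fin r, ∑ j, l j * (cay π m j (Fin.natAdd n x) : ℝ) =
      (w (Fin.natAdd n x) : ℝ) := by
    intro x
    rw [h2]
    simp only [RootG.cay_right]
    by_cases h3 : i = x
    · rw [if_pos h3, Nat.cast_one, ← hl2]
      refine Finset.sum_congr rfl fun j _ => ?_
      by_cases h4 : π j = x
      · rw [if_pos h4]
        simp
      · rw [if_neg h4, hl1 j (fun h5 => h4 (h5.trans h3))]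
        simp
    · rw [if_neg h3, Nat.cast_zero]
      refine Finset.sum_eq_zero fun j _ => ?_
      by_cases h4 : π j = x
      · rw [hl1 j (fun h5 => h3 (h5.symm.trans h4)), zero_mul]
      · rw [if_neg h4, Nat.cast_zero, mul_zero]
  refine ⟨l, hl0, hl2, fun x => ?_, fun x hx => ?_⟩
  · refine Fin.addCases (fun x => ?_) (fun x => ?_) x
    · have h5 := hl3 x
      rw [← h1] at h5
      simp only [RootG.cay_left]
      exact h5
    · exact (hy x).le
  · have hx' : ∃ y : Fin r, Fin.natAdd n y = x := by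
      revert hx
      refine Fin.addCases (fun x => ?_) (fun x => ?_) x
      · intro hx
        exact absurd (Finset.mem_map.2 ⟨x, Finset.mem_univ _, rfl⟩) hx
      · intro _
        exact ⟨x, rfl⟩
    obtain ⟨y, rfl⟩ := hx'
    exact hy y

lemma yapexL_iff (v : Fin ℓ → Fin (n + r) → ℕ) (a : Fin (n + r) → ℕ) :
    YApexL v a ↔ ∃ i ∈ Dy n r, B1 v i a := by
  constructor
  · rintro ⟨i, hi⟩
    exact ⟨_, (mem_Dy _).2 ⟨i, rfl⟩, hi⟩
  · rintro ⟨i, hi, h1⟩
    obtain ⟨x, rfl⟩ := (mem_Dy i).1 hi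
    exact ⟨x, h1⟩

lemma hypYX_of (v : Fin ℓ → Fin (n + r) → ℕ) (hL : HypIL v) : HypYX v (Dy n r) := by
  intro a ha hg
  rcases hL a ha hg with h1 | h1 | h1
  · exact Or.inl ((yapexL_iff v a).1 h1)
  · exact Or.inr (Or.inl h1)
  · refine Or.inr (Or.inr fun j1 => (h1 j1).imp id fun h2 a' h3 h4 h5 h6 =>
      (h2 a' h3 h4 h5 h6).imp id (yapexL_iff v a').1)

/-- **Ideals with generic coefficients, at the origin.** -/
theorem ideal_genX [Algebra F ℂ] (hℓ : 0 < ℓ) (π : Fin ℓ → Fin r)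
    (m : Fin ℓ → Fin n → ℕ) (hinj : ∀ j j', π j = π j' → m j = m j' → j = j')
    (h : Fin r → MvPolynomial (Fin n) F) (hh : InPolyI π m h) (hL : HypIL (cay π m)) :
    ∃ g : MvPolynomial (Fin ℓ) F, g ≠ 0 ∧ ∀ (k : Type) [Field k] [Algebra F k] [Algebra k ℂ]
      [IsScalarTower F k ℂ] (c : Fin ℓ → k), aeval c g ≠ 0 →
      ∃ S : Finset (ℤ × ℤ),
        (∀ p ∈ S, p.1 < 0 ∧ 0 < p.2 ∧ ∀ b : Polynomial ℂ,
          IsLocalBIdeal (gens π m (fun j => algebraMap k ℂ (c j)) h) b →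
            b.eval ((p.1 : ℂ) / p.2) = 0) ∧
        ∀ (K : Type) [Field K] [Algebra k K],
          zetaI (fun i => MvPolynomial.map (algebraMap k K) (gens π m c h i)) ∈ ratRing K S := by
  obtain ⟨g, hg, hC⟩ := genYX hℓ (Dx n r) (cay π m) (Dy n r) (cay_inj π m hinj) (cay_ne π m)
    (ysum h) (ysum_inN π m h hh) (yok_cay π m) (hypYX_of _ hL)
  refine ⟨g, hg, fun k _ _ _ _ c hc => ?_⟩
  have hkc : CharZero k := RingHom.charZero (algebraMap k ℂ)
  obtain ⟨S, hS, hz⟩ := hC k c (fun h0 => hc (by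
    have h1 : algebraMap k ℂ (aeval c g) = 0 := by
      rw [← h0, ← aeval_algebraMap_apply]
      rfl
    exact (map_eq_zero _).1 h1))
  refine ⟨S, fun p hp => ?_, fun K _ _ => ?_⟩
  · obtain ⟨h1, h2, h3⟩ := hS p hp
    refine ⟨h1, h2, fun b hb => h3 b ?_⟩
    have h4 := feqL_ideal _ b hb
    have h5 : gpol (gens π m (fun j => algebraMap k ℂ (c j)) h) =
        spa (cay π m) (fun j => algebraMap k ℂ (c j)) +
          MvPolynomial.map (algebraMap F ℂ) (ysum h) := gp_gens π m _ h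
    rw [h5] at h4
    exact h4
  · have hK : CharZero K := charZero_of_injective_algebraMap (algebraMap k K).injective
    refine zetaI_mem _ _ ?_
    have h5 : gp (fun i => MvPolynomial.map (algebraMap k K) (gens π m c h i)) =
        spa (cay π m) (fun j => algebraMap k K (c j)) +
          MvPolynomial.map ((algebraMap k K).comp (algebraMap F k)) (ysum h) := by
      have h6 : gp (fun i => MvPolynomial.map (algebraMap k K) (gens π m c h i)) =
          MvPolynomial.map (algebraMap k K) (gp (gens π m c h)) := by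
        unfold gp
        rw [map_sum]
        refine Finset.sum_congr rfl fun i _ => ?_
        rw [map_mul, MvPolynomial.map_X, MvPolynomial.map_rename]
      rw [h6, gp_gens, map_add, MvPolynomial.map_map]
      congr 1
      unfold spa
      simp
    rw [h5]
    exact hz K _ _ constr_W0 good_one (fun z hz => W0_Dx z hz)

end Pool.Agent.TH216.LX
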