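import Pool.Agent.TH216.LX.Lx3
import Pool.Agent.W425.MM.Fin

set_option autoImplicit false

/-! The local motivic zeta function at the origin. -/

namespace Pool.Agent.TH216.LX

open MvPolynomial
open Pool.Agent.W428.MOT (K0 MK Pt Constr cls Lu ratRing Jet)
open Pool.Agent.W375.MG (zetaG Good JetG good_units good_one)
open Pool.Agent.W63.MTFin (C_mem)
open Pool.Agent.W425.MM (constr_pt)

variable {N : ℕ}

/-- the local zeta function at the origin -/
theorem zeta_mem0 {K : Type} [Field K] (f : MvPolynomial (Fin N) K)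
    (S : Set (ℤ × ℤ)) (h : ∀ (W : Set (Pt K (Fin N))) (E : Set (AlgebraicClosure K)),
      Constr W → Good E → (∀ z ∈ W, ∀ i, z i = 0) → zetaG f W E ∈ ratRing K S) :
    Pool.Agent.W428.MOT.zeta f 0 ∈ ratRing K S := by
  have h1 := h _ {1} (constr_pt (0 : Fin N → K)) good_one (fun z hz i => by
    rw [Set.mem_singleton_iff.1 hz]
    simp)
  set Z := zetaG f {fun i => algebraMap K (AlgebraicClosure K) ((0 : Fin N → K) i)} {1} with hZ
  have h2 : Pool.Agent.W428.MOT.zeta f 0 = Z - PowerSeries.C (PowerSeries.coeff 0 Z) := by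
    ext d
    rw [map_sub, PowerSeries.coeff_C]
    by_cases hd : d = 0
    · subst hd
      rw [if_pos rfl, sub_self, Pool.Agent.W428.MOT.zeta, PowerSeries.coeff_mk, if_pos rfl]
    · rw [if_neg hd, sub_zero, Pool.Agent.W428.MOT.zeta, PowerSeries.coeff_mk, if_neg hd, hZ,
        zetaG, PowerSeries.coeff_mk]
      have h3 : Jet f (0 : Fin N → K) d =
          JetG f {fun i => algebraMap K (AlgebraicClosure K) ((0 : Fin N → K) i)} {1} d := by
        ext z
        simp only [Jet, JetG, Set.mem_ofPred_eq, Set.mem_singleton_iff, funext_iff]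
        refine and_congr_right fun _ => ?_
        constructor
        · intro h
          refine ⟨fun j hj => ?_, ?_⟩
          · rw [h j hj.le, if_neg (by omega)]
          · rw [h d le_rfl, if_pos rfl]
        · rintro ⟨h1, h2⟩ j hj
          by_cases h : j = d
          · rw [h, h2, if_pos rfl]
          · rw [h1 j (by omega), if_neg h]
      rw [h3]
  rw [h2]
  exact (ratRing K S).sub_mem h1 (C_mem _ _)

/-- The functional equation with the Weyl algebra is a local functional equation. -/
theorem isLocal_of {f : MvPolynomial (Fin N) ℂ} {b : Polynomial ℂ}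
    (hb : Pool.Agent.H628R4.TP.IsBFunction f b) :
    Pool.Agent.H628R4.TP.IsLocalBFunction f b := by
  obtain ⟨L, m, a, Q, h⟩ := Pool.Agent.W425.SG.isLocal hb
  refine ⟨L, m, a, Q, fun s => ?_⟩
  have h1 := h s
  simp only [MvPowerSeries.smul_eq_C_mul] at h1
  exact h1

end Pool.Agent.TH216.LX
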