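import Pool.Agent.TH216.LX.F1
import Pool.Agent.TH216.LX.Lx4

set_option autoImplicit false

/-! Local zeta functions: the rings, with a condition on the faces. -/

namespace Pool.Agent.TH216.LX

open MvPolynomial Pool.Agent.H628R4.TP Pool.Agent.W425.MM Pool.Agent.W425.GN
open Pool.Agent.W425.ND (spa)
open Pool.Agent.W426.SM (gord IsRay face)
open Pool.Agent.W803.SM (gord_le exists_gord)
open Pool.Agent.W425.BF (B1 BD shf shf_eval shf_ne hz hz_support hz_eq cof spa_add)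
open Pool.Agent.W425.SV (NP RelV Kil1)
open Pool.Agent.TH216.MF
open Pool.Agent.TH216.MC (pos_of_ray rootsL hpl_nonB)
open Pool.Agent.TH216.ID (YOK HypSY recJ_genY fin_W)
open Pool.Agent.W428.MOT (Pt Constr ratRing sp Lu MK)
open Pool.Agent.W375.MG (zetaG Good)

variable {r N : ℕ}

/-- the recurrences at the bad levels -/
theorem hb_LC (hr : 0 < r) {F : Type} [Field F] (D : Finset (Fin N)) (v : Fin r → Fin N → ℕ)
    (Y : Finset (Fin N)) (Lc : ℚ → Prop) (hLc : ∀ σ, Lc σ → HypSY v Y (σ : ℝ)) (hv : Function.Injective v) (h : MvPolynomial (Fin N) F)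
    (hh : ∀ w ∈ h.support, InN v D (fun i => w i)) (hY : YOK v Y)
    (hvh : ∀ w ∈ h.support, ∀ j, ¬ ∀ x, w x = v j x) (P : ℚ → Prop)
    (hP : ∀ α, ¬ P α → ∃ (θ : Fin r → ℤ) (p : Polynomial ℂ),
      RelG v (Kil1 v) (KilU v θ) p ∧ p.eval (α : ℂ) ≠ 0)
    (J : Finset (Fin N)) (hJ : D ⊆ J) (q : ℕ) (hq : 2 ≤ q)
    (e : Finset (Fin (r + h.support.card)) → ℂ)
    (he : KRelJ q (Fin.append v (we h)) J e) (T0 : ℂ) (hT0 : T0 ≠ 0) (σ : ℚ)
    (hσ : Lc σ ∧ ¬ P (-σ)) (hlog : Real.log ‖T0‖ / Real.log q = (σ : ℝ)) :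
    RecJ q (Fin.append v (we h)) e J T0 := by
  classical
  have hminj : Function.Injective (Fin.append v (we h)) := by
    intro j j'
    refine Fin.addCases (fun j => ?_) (fun l => ?_) j <;>
      refine Fin.addCases (fun j' => ?_) (fun l' => ?_) j'
    · rw [Fin.append_left, Fin.append_left]
      intro h3
      rw [hv h3]
    · rw [Fin.append_left, Fin.append_right]
      intro h3
      exact absurd (fun x => (congrFun h3 x).symm)
        (hvh _ (h.support.equivFin.symm l').2 j)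
    · rw [Fin.append_left, Fin.append_right]
      intro h3
      exact absurd (fun x => congrFun h3 x) (hvh _ (h.support.equivFin.symm l).2 j')
    · rw [Fin.append_right, Fin.append_right]
      intro h3
      have h4 : (h.support.equivFin.symm l) = (h.support.equivFin.symm l') :=
        Subtype.ext (Finsupp.ext fun x => congrFun h3 x)
      rw [h.support.equivFin.symm.injective h4]
  have hma : ∀ j', ∃ j, Fin.append v (we h) j = v j' := fun j' =>
    ⟨Fin.castAdd _ j', by rw [Fin.append_left]⟩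
  have hmb : ∀ j, InN v J (Fin.append v (we h) j) := by
    intro j
    refine Fin.addCases (fun j => ?_) (fun l => ?_) j
    · rw [Fin.append_left]
      exact inN_self v J j
    · rw [Fin.append_right]
      exact inN_mono hJ (hh _ (h.support.equivFin.symm l).2)
  obtain ⟨hL, hPσ⟩ := hσ
  obtain ⟨θ, p, hrel, hp⟩ := hP _ hPσ
  have he' := krelJ_phi (Fin.append v (we h)) v hminj hma q J e he
  have h1 : ((-Real.log ‖T0‖ / Real.log q : ℝ) : ℂ) = ((-σ : ℚ) : ℂ) := by
    rw [neg_div, hlog]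
    push_cast
    rfl
  obtain ⟨Q, hQ, hrec⟩ := recJ_genY q hq v Y hY p θ hrel J _ he' T0 hT0
    (by rw [h1]; exact hp) (by rw [hlog]; exact hLc σ hL)
  refine ⟨Q, hQ, ?_⟩
  filter_upwards [hrec] with t ht
  rw [← ht]
  refine Finset.sum_congr rfl fun m _ => ?_
  rw [aJ_phiN (Fin.append v (we h)) v J (by omega) hr hma hmb]

/-- the rings, for all the coefficients -/
theorem baseLC (hr : 0 < r) {F : Type} [Field F] (D : Finset (Fin N)) (v : Fin r → Fin N → ℕ)
    (Y : Finset (Fin N)) (Lc : ℚ → Prop) (hLc : ∀ σ, Lc σ → HypSY v Y (σ : ℝ)) (hv : Function.Injective v) (h : MvPolynomial (Fin N) F)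
    (hh : ∀ w ∈ h.support, InN v D (fun i => w i)) (hY : YOK v Y)
    (hvh : ∀ w ∈ h.support, ∀ j, ¬ ∀ x, w x = v j x) (P : ℚ → Prop)
    (hP : ∀ α, ¬ P α → ∃ (θ : Fin r → ℤ) (p : Polynomial ℂ),
      RelG v (Kil1 v) (KilU v θ) p ∧ p.eval (α : ℂ) ≠ 0) :
    ∃ S : Finset (ℤ × ℤ),
      (∀ p ∈ S, ∃ a : Fin N → ℕ, IsRay v a ∧ 0 < gord v a ∧
        (Lc (((∑ i, a i : ℕ) : ℚ) / gord v a) →
          P (-(((∑ i, a i : ℕ) : ℚ) / gord v a))) ∧
        p = (-((∑ i, a i : ℕ) : ℤ), (gord v a : ℤ))) ∧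
      ∀ (k : Type) [Field k] [Algebra F k] [Algebra k ℂ] (c : Fin r → k), (∀ j, c j ≠ 0) →
        NonD (Fin.append v (we h)) (fun j => algebraMap k ℂ
          (Fin.append c (fun l => algebraMap F k (wc h l)) j)) →
        ∀ (K : Type) [Field K] [Algebra k K] (W : Set (Pt K (Fin N)))
          (E : Set (AlgebraicClosure K)), Constr W → Good E →
          (∀ z ∈ W, ∀ i ∈ D, z i = 0) →
          zetaG (spa v (fun j => algebraMap k K (c j)) +
            MvPolynomial.map ((algebraMap k K).comp (algebraMap F k)) h) W E *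
            (1 - PowerSeries.C (((Lu K)⁻¹ : (MK K)ˣ) : MK K) * PowerSeries.X) ∈
              ratRing K S := by
  classical
  have hray := pRAY v (we h) hr (we_np v h fun w hw => inN_np (hh w hw))
  obtain ⟨S, hS, hz1⟩ := fin_W (Fin.append v (we h)) (by omega)
    (fun σ => Lc σ ∧ ¬ P (-σ)) D
    (fun J hJ q hq e he T0 hT0 σ hσ hlog => hb_LC hr D v Y Lc hLc hv h hh hY hvh P hP J hJ q hq e he T0
      hT0 σ hσ hlog)
  refine ⟨S, fun p hp => ?_, fun k _ _ _ c hc hnk K _ _ W E hW hE hWD => ?_⟩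
  · obtain ⟨a, ha, hg, hn, h1⟩ := hS p hp
    obtain ⟨hga, hra⟩ := hray a
    rw [hga] at hg hn h1
    refine ⟨a, hra ha, hg, fun hL => ?_, h1⟩
    by_contra hcon
    exact hn ⟨hL, hcon⟩
  · have hK : CharZero K := by
      have hkc : CharZero k := RingHom.charZero (algebraMap k ℂ)
      exact charZero_of_injective_algebraMap (algebraMap k K).injective
    rw [sp_eq]
    refine hz1 K _ (nonG_of_nonD _ _ ?_) (fun j => ?_) W E hW hE hWD
    · have h4 := nonD_ext (k := k) (L := AlgebraicClosure K) _ _ hnk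
      have h5 : (fun j => algebraMap K (AlgebraicClosure K)
          (Fin.append (fun j => algebraMap k K (c j))
            (fun l => (algebraMap k K).comp (algebraMap F k) (wc h l)) j)) =
          fun j => algebraMap k (AlgebraicClosure K)
            (Fin.append c (fun l => algebraMap F k (wc h l)) j) := by
        rw [append_map, append_map]
        congr 1
      rw [h5]
      exact h4
    · refine Fin.addCases (fun j => ?_) (fun l => ?_) j
      · rw [Fin.append_left]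
        exact (map_ne_zero _).2 (hc j)
      · rw [Fin.append_right]
        exact (map_ne_zero _).2 (mem_support_iff.1 (h.support.equivFin.symm l).2)

/-- the conditions on the rays -/
def HypG (v : Fin r → Fin N → ℕ) : Prop :=
  ∀ a : Fin N → ℕ, IsRay v a → 0 < gord v a → ∑ i, a i = gord v a ∨
    (∃ a' : Fin N → ℕ, 0 < gord v a' ∧ (NonB v True a' ∨ Circ v a') ∧
      ((∑ i, a i : ℕ) : ℚ) / gord v a = ((∑ i, a' i : ℕ) : ℚ) / gord v a') ∨
    Pool.Agent.TH216.HDF.LocF v (((∑ i, a i : ℕ) : ℚ) / gord v a)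

/-- at most three variables -/
theorem hypG_three (hN : N ≤ 3) (hr : 0 < r) (v : Fin r → Fin N → ℕ) (hV : Vert v) : HypG v := by
  intro a ha hg
  by_cases h1 : ∑ i, a i = gord v a
  · exact Or.inl h1
  by_cases h2 : ∃ a' : Fin N → ℕ, 0 < gord v a' ∧ (NonB v True a' ∨ Circ v a') ∧
      ((∑ i, a i : ℕ) : ℚ) / gord v a = ((∑ i, a' i : ℕ) : ℚ) / gord v a'
  · exact Or.inr (Or.inl h2)
  refine Or.inr (Or.inr (locF_four (by omega) v hV _ fun a' ha' hg' hl => Or.inl ?_))
  rcases atMost3 hN hr v hV a' hg' with h3 | h3 | h3 | h3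
  · exfalso
    apply h1
    have hgq : ((gord v a' : ℕ) : ℚ) ≠ 0 := by exact_mod_cast hg'.ne'
    have hgq2 : ((gord v a : ℕ) : ℚ) ≠ 0 := by exact_mod_cast hg.ne'
    rw [h3, div_self hgq] at hl
    have h4 : ((∑ i, a i : ℕ) : ℚ) = gord v a := by
      rw [← div_eq_one_iff_eq hgq2]
      exact hl.symm
    exact_mod_cast h4
  · exact absurd ⟨a', hg', Or.inl h3, hl.symm⟩ h2
  · exact absurd ⟨a', hg', Or.inr h3, hl.symm⟩ h2
  · exact h3

/-- four variables -/
theorem hypG_four (hN : N ≤ 4) (v : Fin r → Fin N → ℕ) (hV : Vert v)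
    (h : ∀ a : Fin N → ℕ, IsRay v a → 0 < gord v a → ∑ i, a i = gord v a ∨
      (∃ a' : Fin N → ℕ, 0 < gord v a' ∧ NonB v True a' ∧
        ((∑ i, a i : ℕ) : ℚ) / gord v a = ((∑ i, a' i : ℕ) : ℚ) / gord v a') ∨
      SimR v a ∨ ∃ i, B1 v i a) : HypG v := by
  intro a ha hg
  by_cases h1 : ∑ i, a i = gord v a
  · exact Or.inl h1
  by_cases h2 : ∃ a' : Fin N → ℕ, 0 < gord v a' ∧ NonB v True a' ∧
      ((∑ i, a i : ℕ) : ℚ) / gord v a = ((∑ i, a' i : ℕ) : ℚ) / gord v a'
  · obtain ⟨a', h3, h4, h5⟩ := h2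
    exact Or.inr (Or.inl ⟨a', h3, Or.inl h4, h5⟩)
  refine Or.inr (Or.inr (locF_four hN v hV _ fun a' ha' hg' hl => ?_))
  rcases h a' ha' hg' with h3 | ⟨a'', h3, h4, h5⟩ | h3
  · exfalso
    apply h1
    have hgq : ((gord v a' : ℕ) : ℚ) ≠ 0 := by exact_mod_cast hg'.ne'
    have hgq2 : ((gord v a : ℕ) : ℚ) ≠ 0 := by exact_mod_cast hg.ne'
    rw [h3, div_self hgq] at hl
    have h4 : ((∑ i, a i : ℕ) : ℚ) = gord v a := by
      rw [← div_eq_one_iff_eq hgq2]
      exact hl.symm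
    exact_mod_cast h4
  · exact absurd ⟨a'', h3, h4, hl.symm.trans h5⟩ h2
  · exact h3

/-- the conditions of `Pool.Agent.TH216.HDF` -/
theorem hypG_of (hr : 0 < r) (v : Fin r → Fin N → ℕ) (h : Pool.Agent.TH216.HDF.HypF v) :
    HypG v := by
  rcases h with ⟨hV, hN⟩ | ⟨hV, hN, h⟩ | h
  · exact hypG_three hN hr v hV
  · exact hypG_four (by omega) v hV h
  · intro a ha hg
    rcases h a ha hg with h1 | ⟨a', h1, h2, h3⟩ | h1
    · exact Or.inl h1
    · exact Or.inr (Or.inl ⟨a', h1, Or.inl h2, h3⟩)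
    · exact Or.inr (Or.inr h1)

theorem genF0 {F : Type} [Field F] [Algebra F ℂ] (hr : 0 < r)
    (v : Fin r → Fin N → ℕ) (hv : Function.Injective v)
    (hv0 : ∀ j, v j ≠ 0)
    (h : MvPolynomial (Fin N) F) (hh : ∀ w ∈ h.support, NP v w)
    (hvh : ∀ w ∈ h.support, ∀ j, ¬ ∀ x, w x = v j x) (hL : HypG v) :
    ∃ g : MvPolynomial (Fin r) F, g ≠ 0 ∧ ConL v h g := by
  classical
  have hne : NeZero r := ⟨by omega⟩
  obtain ⟨g1, hg1, h1⟩ := rootsL (F := F) hr v hv hv0 h hh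
  obtain ⟨g2, hg2, h2⟩ := gen_nonDF pF4 hr v (we h) (we_np v h hh) (wc h)
  have hg3 : (∏ j : Fin r, (X j : MvPolynomial (Fin r) F)) ≠ 0 :=
    Finset.prod_ne_zero_iff.2 fun j _ => X_ne_zero j
  obtain ⟨S, hS, hz1⟩ := baseLC hr Finset.univ v ∅ (Pool.Agent.TH216.HDF.LocF v)
    (fun σ hσ => hypSY_of_locF hr v ∅ σ hσ) hv h (fun w hw => np_inN (hh w hw))
    ⟨fun i hi => absurd hi (Finset.notMem_empty i), fun i hi => absurd hi (Finset.notMem_empty i)⟩
    hvh (fun α => HPL v h α 0) (fun α hα => relLX v hv hv0 h hh α hα)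
  refine ⟨g1 * g2 * ∏ j : Fin r, (X j : MvPolynomial (Fin r) F),
    mul_ne_zero (mul_ne_zero hg1 hg2) hg3, fun k _ _ _ _ c hc => ?_⟩
  rw [map_mul, map_mul, map_prod] at hc
  have hcne : ∀ j, c j ≠ 0 := by
    intro j hj
    have h5 := Finset.prod_ne_zero_iff.1 (right_ne_zero_of_mul hc) j (Finset.mem_univ j)
    rw [aeval_X, hj, map_zero] at h5
    exact h5 rfl
  have hb := h1 _ (left_ne_zero_of_mul (left_ne_zero_of_mul hc))
  have hnd := h2 _ (right_ne_zero_of_mul (left_ne_zero_of_mul hc))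
  have hnk : NonD (Fin.append v (we h)) (fun j => algebraMap k ℂ
      (Fin.append c (fun l => algebraMap F k (wc h l)) j)) := by
    rw [append_map]
    simp only [← IsScalarTower.algebraMap_apply F k ℂ]
    exact hnd
  refine ⟨insert (-1, 1) S, fun p hp => ?_, fun K _ _ W E hW hE hWD => ?_⟩
  · rcases Finset.mem_insert.1 hp with rfl | hp
    · refine ⟨by norm_num, by norm_num, fun b hb' => ?_⟩
      have e : (((-1 : ℤ) : ℂ) / ((1 : ℤ) : ℂ)) = -1 := by
        push_cast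
        ring
      rw [e]
      exact (hb b hb').1
    obtain ⟨a, ha, hg, hLP, rfl⟩ := hS p hp
    refine ⟨pos_of_ray ha, Int.natCast_pos.2 hg, fun b hb' => ?_⟩
    have hkey : ∀ α : ℚ, HPL v h α 0 → α = -(((∑ i, a i : ℕ) : ℚ) / gord v a) →
        b.eval (((-((∑ i, a i : ℕ) : ℤ) : ℤ) : ℂ) / ((gord v a : ℤ) : ℂ)) = 0 := by
      intro α hα hα'
      have h3 := (hb b hb').2 α hα
      rw [← h3, hα']
      congr 1
      push_cast
      ring
    rcases hL a ha hg with h6 | ⟨a', hg', hn', he⟩ | h6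
    · have e : (((-((∑ i, a i : ℕ) : ℤ) : ℤ) : ℂ) / ((gord v a : ℤ) : ℂ)) = -1 := by
        rw [h6]
        have : ((gord v a : ℕ) : ℂ) ≠ 0 := by exact_mod_cast hg.ne'
        push_cast
        field_simp
      rw [e]
      exact (hb b hb').1
    · rcases hn' with hn' | hn'
      · exact hkey _ (hpl_nonB v hv hv0 h hh a' hg' hn') (by rw [he])
      · exact hkey _ (hpl_circ v hv hv0 h hh a' hg' hn') (by rw [he])
    · exact hkey _ (hLP h6) rfl
  · exact mem_insert_ring S _ (hz1 k c hcne hnk K W E hW hE fun z hz i _ => hWD z hz i)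

/-- **Generic coefficients, at the origin.** -/
theorem genF {F : Type} [Field F] [Algebra F ℂ] (hr : 0 < r)
    (v : Fin r → Fin N → ℕ) (hv : Function.Injective v) (hv0 : ∀ j, v j ≠ 0)
    (h : MvPolynomial (Fin N) F) (hh : ∀ w ∈ h.support, NP v w) (hL : HypG v) :
    ∃ g : MvPolynomial (Fin r) F, g ≠ 0 ∧ ConL v h g := by
  obtain ⟨g, hg, hgc⟩ := genF0 hr v hv hv0 (hz v h)
    (fun w hw => hh w ((hz_support v hv h).1 w hw)) (hz_support v hv h).2 hL
  exact ⟨shf (cof v h) g, shf_ne _ _ hg, conL_shift v h g hgc⟩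

open Pool.Agent.TH216.HD (poly InPoly map_poly)
open Pool.Agent.TH216.HDF (HypF)

/-- the same with `poly` -/
theorem genFP {F : Type} [Field F] [Algebra F ℂ] (hr : 0 < r)
    (v : Fin r → Fin N → ℕ) (hv : Function.Injective v) (hv0 : ∀ j, v j ≠ 0)
    (h : MvPolynomial (Fin N) F) (hh : ∀ w ∈ h.support, InPoly v w)
    (hL : HypF v) :
    ∃ g : MvPolynomial (Fin r) F, g ≠ 0 ∧ ∀ (k : Type) [Field k] [Algebra F k] [Algebra k ℂ]
      [IsScalarTower F k ℂ] (c : Fin r → k), aeval c g ≠ 0 →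
      ∃ S : Finset (ℤ × ℤ),
        (∀ p ∈ S, p.1 < 0 ∧ 0 < p.2 ∧ ∀ b : Polynomial ℂ,
          IsLocalBFunction (poly v (fun j => algebraMap k ℂ (c j)) h) b →
            b.eval ((p.1 : ℂ) / p.2) = 0) ∧
        (∀ (K : Type) [Field K] [Algebra k K] (W : Set (Pt K (Fin N)))
          (E : Set (AlgebraicClosure K)), Constr W → Good E → (∀ z ∈ W, ∀ i, z i = 0) →
          zetaG (MvPolynomial.map (algebraMap k K) (poly v c h)) W E ∈ ratRing K S) := by
  obtain ⟨g, hg, hC⟩ := genF (F := F) hr v hv hv0 h hh (hypG_of hr v hL)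
  refine ⟨g, hg, fun k _ _ _ _ c hc => ?_⟩
  obtain ⟨S, hS, hz⟩ := hC k c (fun h0 => hc (by
    have h1 : algebraMap k ℂ (aeval c g) = 0 := by
      rw [← h0, ← aeval_algebraMap_apply]
      rfl
    exact (map_eq_zero _).1 h1))
  refine ⟨S, hS, fun K _ _ W E hW hE hWD => ?_⟩
  rw [map_poly]
  exact hz K W E hW hE hWD

end Pool.Agent.TH216.LX
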