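import Pool.Agent.TH216.LX.N3

set_option autoImplicit false

/-! At most three variables: all facets. -/

namespace Pool.Agent.TH216.LX

open Pool.Agent.W425.MM
open Pool.Agent.W426.SM (gord face)
open Pool.Agent.TH216.MF (SimR)

variable {r : ℕ}

lemma B1T.rot {v : Fin r → Fin 3 → ℕ} {p q t : Fin r} {i : Fin 3} (h : B1T v p q t i) :
    B1T v t p q i := by
  unfold B1T at *
  omega

lemma B1T.swap {v : Fin r → Fin 3 → ℕ} {p q t : Fin r} {i : Fin 3} (h : B1T v p q t i) :
    B1T v q p t i := by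
  unfold B1T at *
  omega

section
variable (v : Fin r → Fin 3 → ℕ) (a : Fin 3 → ℕ) (hV : Vert v) (hg : 0 < gord v a)
  (ha : ∀ i, a i ≠ 0)
include hV hg ha

lemma pairL (K L S T : Fin r) (hK : face v a K) (hL : face v a L) (hS : face v a S)
    (hT : face v a T) (hKL : K ≠ L) (hKS : K ≠ S) (hKT : K ≠ T) (hLS : L ≠ S) (hLT : L ≠ T)
    (i : Fin 3) (h1 : B1T v L S T i) (h2 : B1T v K S T i) :
    v K i = 1 ∧ v L i = 1 ∧ v S i = 0 ∧ v T i = 0 := by
  have n1 : ¬ (v K i = 0 ∧ v L i = 0 ∧ v T i = 0) := fun ⟨x, y, z⟩ =>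
    no_three v a hV hg ha K L T hK hL hT hKL hKT hLT i x y z
  have n2 : ¬ (v K i = 0 ∧ v L i = 0 ∧ v S i = 0) := fun ⟨x, y, z⟩ =>
    no_three v a hV hg ha K L S hK hL hS hKL hKS hLS i x y z
  unfold B1T at h1 h2
  omega

lemma quad (K L S T : Fin r) (hK : face v a K) (hL : face v a L) (hS : face v a S)
    (hT : face v a T) (hKL : K ≠ L) (hKS : K ≠ S) (hKT : K ≠ T) (hLS : L ≠ S) (hLT : L ≠ T)
    (hST : S ≠ T) (i : Fin 3) (eK : v K i = 1) (eL : v L i = 1) (eS : v S i = 0) (eT : v T i = 0)
    (j k : Fin 3) (hj : B1T v K L T j) (hk : B1T v K L S k) : Circ v a := by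
  have hij : i ≠ j := by
    rintro rfl
    unfold B1T at hj
    omega
  have hik : i ≠ k := by
    rintro rfl
    unfold B1T at hk
    omega
  have hjk : j ≠ k := by
    rintro rfl
    obtain ⟨h1, h2, h3, h4⟩ := pairL v a hV hg ha S T K L hS hT hK hL hST hKS.symm hLS.symm
      hKT.symm hLT.symm j hj.rot hk.rot
    exact hST (eq_of_two v a hV hg ha S T hS hT i j hij (by rw [eS, eT]) (by rw [h1, h2]))
  -- the apex of `K, L, T` is not `T`
  have h1 : ¬ (v K j = 0 ∧ v L j = 0) := by
    rintro ⟨x, y⟩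
    exact hKL (eq_of_two v a hV hg ha K L hK hL i j hij (by rw [eK, eL]) (by rw [x, y]))
  have h2 : ¬ (v K k = 0 ∧ v L k = 0) := by
    rintro ⟨x, y⟩
    exact hKL (eq_of_two v a hV hg ha K L hK hL i k hik (by rw [eK, eL]) (by rw [x, y]))
  have eqK := face3 v a K hK i j k hij hik hjk
  have eqL := face3 v a L hL i j k hij hik hjk
  have haj : (0 : ℚ) < a j := by exact_mod_cast Nat.pos_of_ne_zero (ha j)
  have hak : (0 : ℚ) < a k := by exact_mod_cast Nat.pos_of_ne_zero (ha k)
  have h3 : ¬ (v K j = 1 ∧ v L j = 0 ∧ v K k = 1 ∧ v L k = 0) := by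
    rintro ⟨x, y, z, w⟩
    rw [eK, x, z] at eqK
    rw [eL, y, w] at eqL
    push_cast at eqK eqL
    linarith
  have h4 : ¬ (v K j = 0 ∧ v L j = 1 ∧ v K k = 0 ∧ v L k = 1) := by
    rintro ⟨x, y, z, w⟩
    rw [eK, x, z] at eqK
    rw [eL, y, w] at eqL
    push_cast at eqK eqL
    linarith
  unfold B1T at hj hk
  by_cases hc : v K j = 1
  · have f1 : v L j = 0 := by omega
    have f2 : v T j = 0 := by omega
    have f3 : v K k = 0 := by omega
    have f4 : v L k = 1 := by omega
    have f5 : v S k = 0 := by omega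
    exact exo v a hV hg ha S K T L hS hK hT hL hKS.symm hST hLS.symm hKT hKL hLT.symm i j k hij
      hik hjk eK hc f3 eL f1 f4 eS f5 eT f2
  · have f0 : v K j = 0 := by omega
    have f1 : v L j = 1 := by omega
    have f2 : v T j = 0 := by omega
    have f3 : v K k = 1 := by omega
    have f4 : v L k = 0 := by omega
    have f5 : v S k = 0 := by omega
    exact exo v a hV hg ha S L T K hS hL hT hK hLS.symm hST hKS.symm hLT hKL.symm hKT.symm i j k
      hij hik hjk eL f1 f4 eK f0 f3 eS f5 eT f2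

lemma four' (K L S T : Fin r) (hK : face v a K) (hL : face v a L) (hS : face v a S)
    (hT : face v a T) (hKL : K ≠ L) (hKS : K ≠ S) (hKT : K ≠ T) (hLS : L ≠ S) (hLT : L ≠ T)
    (hST : S ≠ T) (i j k : Fin 3) (h1 : B1T v L S T i) (h2 : B1T v K S T i)
    (hj : B1T v K L T j) (hk : B1T v K L S k) : Circ v a := by
  obtain ⟨e1, e2, e3, e4⟩ := pairL v a hV hg ha K L S T hK hL hS hT hKL hKS hKT hLS hLT i h1 h2
  exact quad v a hV hg ha K L S T hK hL hS hT hKL hKS hKT hLS hLT hST i e1 e2 e3 e4 j k hj hk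

lemma four (p q s t : Fin r) (hp : face v a p) (hq : face v a q) (hs : face v a s)
    (ht : face v a t) (hpq : p ≠ q) (hps : p ≠ s) (hpt : p ≠ t) (hqs : q ≠ s) (hqt : q ≠ t)
    (hst : s ≠ t) : NonB v True a ∨ Circ v a := by
  by_cases hN : NonB v True a
  · exact Or.inl hN
  right
  obtain ⟨i1, h1⟩ := (tri v a hV hg ha q s t hq hs ht hqs hqt hst).resolve_left hN
  obtain ⟨i2, h2⟩ := (tri v a hV hg ha p s t hp hs ht hps hpt hst).resolve_left hN
  obtain ⟨i3, h3⟩ := (tri v a hV hg ha p q t hp hq ht hpq hpt hqt).resolve_left hN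
  obtain ⟨i4, h4⟩ := (tri v a hV hg ha p q s hp hq hs hpq hps hqs).resolve_left hN
  have hpig : i1 = i2 ∨ i1 = i3 ∨ i1 = i4 ∨ i2 = i3 ∨ i2 = i4 ∨ i3 = i4 := by omega
  rcases hpig with h | h | h | h | h | h
  · -- missing `p`, `q`
    subst h
    exact four' v a hV hg ha p q s t hp hq hs ht hpq hps hpt hqs hqt hst i1 i3 i4 h1 h2 h3 h4
  · -- missing `p`, `s`
    subst h
    exact four' v a hV hg ha p s q t hp hs hq ht hps hpq hpt hqs.symm hst hqt i1 i2 i4
      h1.swap h3 h2 h4.rot.swap
  · -- missing `p`, `t`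
    subst h
    exact four' v a hV hg ha p t q s hp ht hq hs hpt hpq hps hqt.symm hst.symm hqs i1 i2 i3
      h1.rot h4 h2.rot.swap h3.rot.swap
  · -- missing `q`, `s`
    subst h
    exact four' v a hV hg ha q s p t hq hs hp ht hqs hpq.symm hqt hps.symm hst hpt i2 i1 i4
      h2.swap h3.swap h1 h4.rot.rot
  · subst h
    exact four' v a hV hg ha q t p s hq ht hp hs hqt hpq.symm hqs hpt.symm hst.symm hps i2 i1 i3
      h2.rot h4.swap h1.rot.swap h3.rot.rot
  · subst h
    exact four' v a hV hg ha s t p q hs ht hp hq hst hps.symm hqs.symm hpt.symm hqt.symm hpq i3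
      i1 i2 h3.rot h4.rot h1.rot.rot h2.rot.rot

/-- **Facets with three coordinates.** -/
theorem case3 : NonB v True a ∨ Circ v a ∨ SimR v a := by
  classical
  by_cases h4 : ∃ p q s t, face v a p ∧ face v a q ∧ face v a s ∧ face v a t ∧ p ≠ q ∧ p ≠ s ∧
      p ≠ t ∧ q ≠ s ∧ q ≠ t ∧ s ≠ t
  · obtain ⟨p, q, s, t, hp, hq, hs, ht, h1, h2, h3, h5, h6, h7⟩ := h4
    rcases four v a hV hg ha p q s t hp hq hs ht h1 h2 h3 h5 h6 h7 with h | h
    · exact Or.inl h
    · exact Or.inr (Or.inl h)
  right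
  right
  intro w hw1 hw2
  have hw2' : ∀ i, ∑ j, w j * (v j i : ℚ) = 0 := fun i => hw2 i (ha i)
  have hs := rel_sum v a hV hg ha w hw1 hw2'
  have hf : ∀ j, w j ≠ 0 → face v a j := fun j hj => by
    by_contra h
    exact hj (hw1 j h)
  by_contra hcon
  push Not at hcon
  obtain ⟨j, hj⟩ := hcon
  obtain ⟨k, hkj, hk⟩ : ∃ k, k ≠ j ∧ w k ≠ 0 := by
    by_contra hcon
    push Not at hcon
    rw [Finset.sum_eq_single j (fun k _ hk => hcon k hk) (by simp)] at hs
    exact hj hs
  by_cases hl : ∃ l, l ≠ j ∧ l ≠ k ∧ w l ≠ 0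
  · obtain ⟨l, hlj, hlk, hl⟩ := hl
    have hz : ∀ m, m ≠ j → m ≠ k → m ≠ l → w m = 0 := by
      intro m h1 h2 h3
      by_contra h
      exact h4 ⟨j, k, l, m, hf j hj, hf k hk, hf l hl, hf m h, hkj.symm, hlj.symm, h1.symm,
        hlk.symm, h2.symm, h3.symm⟩
    have hsum : ∀ f : Fin r → ℚ, ∑ m, w m * f m = w j * f j + w k * f k + w l * f l := by
      intro f
      rw [← Finset.sum_subset (Finset.subset_univ {j, k, l}), Finset.sum_insert,
        Finset.sum_pair hlk.symm, add_assoc]
      · simp [hkj.symm, hlj.symm]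
      · intro m _ hm
        simp only [Finset.mem_insert, Finset.mem_singleton, not_or] at hm
        rw [hz m hm.1 hm.2.1 hm.2.2, zero_mul]
    have h1 := hsum fun _ => 1
    simp only [mul_one] at h1
    rw [hs] at h1
    obtain ⟨h2, -, -⟩ := rel3 hV hkj.symm hlj.symm hlk.symm (w j) (w k) (w l) h1.symm
      (fun i => by
        rw [← hsum fun j => (v j i : ℚ)]
        exact hw2' i)
    exact hj h2
  · push Not at hl
    have hsum : ∀ f : Fin r → ℚ, ∑ m, w m * f m = w j * f j + w k * f k := by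
      intro f
      rw [← Finset.sum_subset (Finset.subset_univ {j, k}), Finset.sum_pair hkj.symm]
      intro m _ hm
      simp only [Finset.mem_insert, Finset.mem_singleton, not_or] at hm
      rw [hl m hm.1 hm.2, zero_mul]
    have h1 := hsum fun _ => 1
    simp only [mul_one] at h1
    rw [hs] at h1
    refine vert2 hV hkj.symm fun i => ?_
    have h2 := hw2' i
    rw [hsum] at h2
    have h3 : w j * ((v j i : ℚ) - v k i) = 0 := by
      linear_combination h2 + (v k i : ℚ) * h1
    have h5 := (mul_eq_zero.1 h3).resolve_left hj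
    have h6 : (v k i : ℚ) = v j i := by linarith
    exact_mod_cast h6.le

end

/-- **At most three variables.** -/
theorem atMost3 {N : ℕ} (hN : N ≤ 3) (hr : 0 < r) (v : Fin r → Fin N → ℕ) (hV : Vert v)
    (a : Fin N → ℕ) (hg : 0 < gord v a) :
    ∑ i, a i = gord v a ∨ NonB v True a ∨ Circ v a ∨ SimR v a := by
  classical
  set U : Finset (Fin N) := Finset.univ.filter fun i => a i ≠ 0 with hU
  have hUm : ∀ i, i ∈ U ↔ a i ≠ 0 := by
    intro i
    simp [hU]
  have hUc : U.card ≤ 3 := by
    have := Finset.card_le_univ U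
    rw [Fintype.card_fin] at this
    omega
  have hU0 : U.card ≠ 0 := by
    intro h
    rw [Finset.card_eq_zero] at h
    obtain ⟨j, hj⟩ := Pool.Agent.W803.SM.exists_gord hr v a
    rw [Finset.sum_eq_zero] at hj
    · omega
    · intro i _
      have : a i = 0 := by
        by_contra h'
        have := (hUm i).2 h'
        rw [h] at this
        simp at this
      rw [this, zero_mul]
  have h123 : U.card = 1 ∨ U.card = 2 ∨ U.card = 3 := by omega
  rcases h123 with h1 | h2 | h3
  · obtain ⟨i0, hi0⟩ := Finset.card_eq_one.1 h1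
    rcases case1 v a hr hg i0 (fun i => by rw [← hUm, hi0, Finset.mem_singleton]) with h | h
    · exact Or.inl h
    · exact Or.inr (Or.inl h)
  · obtain ⟨i1, i2, h12, hi⟩ := Finset.card_eq_two.1 h2
    rcases case2 v a hV hg i1 i2 h12 (fun i => by
      rw [← hUm, hi, Finset.mem_insert, Finset.mem_singleton]) (fun x y hxy i hia => by
        have hzz : ∀ x : Fin N → ℚ, zz a x = x i := by
          intro x
          unfold zz
          rw [Finset.sum_eq_single i]
          · rw [if_pos hia]
          · intro i' _ hi'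
            rw [if_neg]
            intro ha'
            have h4 : ({i, i'} : Finset (Fin N)) ⊆ Uᶜ := by
              intro m hm
              rw [Finset.mem_compl, hUm, not_not]
              rcases Finset.mem_insert.1 hm with rfl | hm
              · exact hia
              · rw [Finset.mem_singleton.1 hm]
                exact ha'
            have h5 := Finset.card_le_card h4
            rw [Finset.card_pair (Ne.symm hi'), Finset.card_compl, Fintype.card_fin, h2] at h5
            omega
          · simp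
        rw [hzz, hzz] at hxy
        exact hxy) with h | h | h
    · exact Or.inl h
    · exact Or.inr (Or.inl h)
    · exact Or.inr (Or.inr (Or.inr h))
  · have hN3 : N = 3 := by
      have := Finset.card_le_univ U
      rw [Fintype.card_fin] at this
      omega
    subst hN3
    have hUu : U = Finset.univ := by
      apply Finset.eq_univ_of_card
      rw [h3, Fintype.card_fin]
    have ha : ∀ i, a i ≠ 0 := fun i => (hUm i).1 (by rw [hUu]; exact Finset.mem_univ i)
    exact Or.inr (case3 v a hV hg ha)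

end Pool.Agent.TH216.LX
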