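import Pool.Agent.TH216.LX.Lx2
import Pool.Agent.TH216.LX.N4
import Pool.Agent.TH216.MF.HDM
import Pool.Agent.TH216.HDL

set_option autoImplicit false

/-! Local zeta functions at the origin, generic coefficients. -/

namespace Pool.Agent.TH216.LX

open MvPolynomial Pool.Agent.H628R4.TP Pool.Agent.W425.MM Pool.Agent.W425.GN
open Pool.Agent.W425.ND (spa)
open Pool.Agent.W426.SM (gord IsRay face)
open Pool.Agent.W425.BF (B1 shf shf_eval shf_ne hz hz_support hz_eq cof spa_add)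
open Pool.Agent.W425.SV (NP RelV Kil1)
open Pool.Agent.TH216.MF
open Pool.Agent.TH216.MC (pos_of_ray rootsL hpl_nonB)
open Pool.Agent.TH216.ID (YOK)
open Pool.Agent.W428.MOT (Pt Constr ratRing sp Lu MK)
open Pool.Agent.W375.MG (zetaG Good)

variable {r N : ℕ}

/-- division by `1 - 𝕃⁻¹ T` -/
lemma mem_insert_ring {K : Type} [Field K] (S : Finset (ℤ × ℤ)) (Z : PowerSeries (MK K))
    (h : Z * (1 - PowerSeries.C (((Lu K)⁻¹ : (MK K)ˣ) : MK K) * PowerSeries.X) ∈
      ratRing K (S : Set (ℤ × ℤ))) :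
    Z ∈ ratRing K ((insert (-1, 1) S : Finset (ℤ × ℤ)) : Set (ℤ × ℤ)) := by
  have h1 := geoR_mul (Lu K) (-1) 1 one_pos
  rw [show (1 : ℤ).toNat = 1 from rfl, zpow_neg_one, pow_one] at h1
  have h2 : Z = Z * (1 - PowerSeries.C (((Lu K)⁻¹ : (MK K)ˣ) : MK K) * PowerSeries.X) *
      Pool.Agent.W428.MOT.geoR (Lu K) (-1) 1 := by
    rw [mul_assoc, h1, mul_one]
  rw [h2]
  have h3 : ratRing K (S : Set (ℤ × ℤ)) ≤
      ratRing K ((insert (-1, 1) S : Finset (ℤ × ℤ)) : Set (ℤ × ℤ)) := by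
    refine Algebra.adjoin_mono (Set.union_subset_union_right _ ?_)
    rintro g ⟨p, hp, rfl⟩
    exact ⟨p, Finset.mem_coe.2 (Finset.mem_insert_of_mem (Finset.mem_coe.1 hp)), rfl⟩
  refine Subalgebra.mul_mem _ (h3 h) ?_
  exact geoR_mem (Lu K) (p := (-1, 1)) (Finset.mem_coe.2 (Finset.mem_insert_self _ _))

/-- the levels of circuits -/
theorem hpl_circ [NeZero r] {F : Type} [Field F] (v : Fin r → Fin N → ℕ)
    (hv : Function.Injective v) (hv0 : ∀ j, v j ≠ 0) (h : MvPolynomial (Fin N) F)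
    (hh : ∀ w ∈ h.support, NP v w)
    (u : Fin N → ℕ) (hgu : 0 < gord v u) (hu : Circ v u) :
    HPL v h (-(((∑ i, u i : ℕ) : ℚ) / gord v u)) 0 := by
  intro F' _ _ a h' ha hs b hb
  have hh' : ∀ w ∈ h'.support, NP v w := fun w hw => hh w (hs w hw)
  by_cases hb0 : b = 0
  · rw [hb0]
    exact dvd_zero _
  have hJ := (feqL_iff _ b).2 hb
  obtain ⟨θ, hθ, hR⟩ := circ_root v u hgu hu
  obtain ⟨p, q, hbp, hp⟩ := Pool.Agent.W422.GC.rel_of_unit True _ unit_cond v a hv hv0 ha h' hh'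
    θ hθ b hb0 hJ
  have h1 := hR p hp
  rw [zero_add, pow_one, hbp]
  refine Dvd.dvd.mul_right (Dvd.dvd.mul_left ?_ _) _
  rw [Polynomial.dvd_iff_isRoot]
  show p.eval _ = 0
  rw [← h1]
  congr 1
  push_cast
  ring

/-- the conditions on the rays -/
def HypX (v : Fin r → Fin N → ℕ) : Prop :=
  ∀ a : Fin N → ℕ, IsRay v a → 0 < gord v a → ∑ i, a i = gord v a ∨
    (∃ a' : Fin N → ℕ, 0 < gord v a' ∧ (NonB v True a' ∨ Circ v a') ∧
      ((∑ i, a i : ℕ) : ℚ) / gord v a = ((∑ i, a' i : ℕ) : ℚ) / gord v a') ∨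
    LocL v ∅ (((∑ i, a i : ℕ) : ℚ) / gord v a)

/-- at most three variables -/
theorem hypX_three (hN : N ≤ 3) (hr : 0 < r) (v : Fin r → Fin N → ℕ) (hV : Vert v) : HypX v := by
  intro a ha hg
  by_cases h1 : ∑ i, a i = gord v a
  · exact Or.inl h1
  by_cases h2 : ∃ a' : Fin N → ℕ, 0 < gord v a' ∧ (NonB v True a' ∨ Circ v a') ∧
      ((∑ i, a i : ℕ) : ℚ) / gord v a = ((∑ i, a' i : ℕ) : ℚ) / gord v a'
  · exact Or.inr (Or.inl h2)
  refine Or.inr (Or.inr fun j1 => Or.inr fun a' ha' hg' _ hl => Or.inl ?_)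
  rcases atMost3 hN hr v hV a' hg' with h3 | h3 | h3 | h3
  · exfalso
    apply h1
    have hgq : ((gord v a' : ℕ) : ℚ) ≠ 0 := by exact_mod_cast hg'.ne'
    have hgq2 : ((gord v a : ℕ) : ℚ) ≠ 0 := by exact_mod_cast hg.ne'
    rw [h3, div_self hgq] at hl
    have h4 : ((∑ i, a i : ℕ) : ℚ) = gord v a := by
      rw [← div_eq_one_iff_eq hgq2]
      exact hl.symm
    exact_mod_cast h4
  · exact absurd ⟨a', hg', Or.inl h3, hl.symm⟩ h2
  · exact absurd ⟨a', hg', Or.inr h3, hl.symm⟩ h2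
  · exact h3

/-- the conditions of `Pool.Agent.TH216.HDL` -/
theorem hypX_of (v : Fin r → Fin N → ℕ) (h : Pool.Agent.TH216.HDL.HypL v) : HypX v := by
  intro a ha hg
  rcases h a ha hg with h1 | ⟨a', h1, h2, h3⟩ | h1
  · exact Or.inl h1
  · exact Or.inr (Or.inl ⟨a', h1, Or.inl h2, h3⟩)
  · refine Or.inr (Or.inr fun j1 => Or.inl ?_)
    exact h1 j1

/-- the conclusion for all the coefficients `c` with `g(c) ≠ 0` -/
def ConL {F : Type} [Field F] [Algebra F ℂ]
    (v : Fin r → Fin N → ℕ) (h : MvPolynomial (Fin N) F) (g : MvPolynomial (Fin r) F) : Prop :=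
  ∀ (k : Type) [Field k] [Algebra F k] [Algebra k ℂ]
      [IsScalarTower F k ℂ] (c : Fin r → k), aeval (fun j => algebraMap k ℂ (c j)) g ≠ 0 →
      ∃ S : Finset (ℤ × ℤ),
        (∀ p ∈ S, p.1 < 0 ∧ 0 < p.2 ∧ ∀ b : Polynomial ℂ, IsLocalBFunction
          (spa v (fun j => algebraMap k ℂ (c j)) + MvPolynomial.map (algebraMap F ℂ) h) b →
            b.eval ((p.1 : ℂ) / p.2) = 0) ∧
        (∀ (K : Type) [Field K] [Algebra k K] (W : Set (Pt K (Fin N)))
          (E : Set (AlgebraicClosure K)), Constr W → Good E →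
          (∀ z ∈ W, ∀ i, z i = 0) →
          zetaG (spa v (fun j => algebraMap k K (c j)) +
            MvPolynomial.map ((algebraMap k K).comp (algebraMap F k)) h) W E ∈ ratRing K S)

theorem genL0 {F : Type} [Field F] [Algebra F ℂ] (hr : 0 < r)
    (v : Fin r → Fin N → ℕ) (hv : Function.Injective v)
    (hv0 : ∀ j, v j ≠ 0)
    (h : MvPolynomial (Fin N) F) (hh : ∀ w ∈ h.support, NP v w)
    (hvh : ∀ w ∈ h.support, ∀ j, ¬ ∀ x, w x = v j x) (hL : HypX v) :
    ∃ g : MvPolynomial (Fin r) F, g ≠ 0 ∧ ConL v h g := by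
  classical
  have hne : NeZero r := ⟨by omega⟩
  obtain ⟨g1, hg1, h1⟩ := rootsL (F := F) hr v hv hv0 h hh
  obtain ⟨g2, hg2, h2⟩ := gen_nonDF pF4 hr v (we h) (we_np v h hh) (wc h)
  have hg3 : (∏ j : Fin r, (X j : MvPolynomial (Fin r) F)) ≠ 0 :=
    Finset.prod_ne_zero_iff.2 fun j _ => X_ne_zero j
  obtain ⟨S, hS, hz1⟩ := baseLX hr Finset.univ v ∅ hv h (fun w hw => np_inN (hh w hw))
    ⟨fun i hi => absurd hi (Finset.notMem_empty i), fun i hi => absurd hi (Finset.notMem_empty i)⟩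
    hvh (fun α => HPL v h α 0) (fun α hα => relLX v hv hv0 h hh α hα)
  refine ⟨g1 * g2 * ∏ j : Fin r, (X j : MvPolynomial (Fin r) F),
    mul_ne_zero (mul_ne_zero hg1 hg2) hg3, fun k _ _ _ _ c hc => ?_⟩
  rw [map_mul, map_mul, map_prod] at hc
  have hcne : ∀ j, c j ≠ 0 := by
    intro j hj
    have h5 := Finset.prod_ne_zero_iff.1 (right_ne_zero_of_mul hc) j (Finset.mem_univ j)
    rw [aeval_X, hj, map_zero] at h5
    exact h5 rfl
  have hb := h1 _ (left_ne_zero_of_mul (left_ne_zero_of_mul hc))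
  have hnd := h2 _ (right_ne_zero_of_mul (left_ne_zero_of_mul hc))
  have hnk : NonD (Fin.append v (we h)) (fun j => algebraMap k ℂ
      (Fin.append c (fun l => algebraMap F k (wc h l)) j)) := by
    rw [append_map]
    simp only [← IsScalarTower.algebraMap_apply F k ℂ]
    exact hnd
  refine ⟨insert (-1, 1) S, fun p hp => ?_, fun K _ _ W E hW hE hWD => ?_⟩
  · rcases Finset.mem_insert.1 hp with rfl | hp
    · refine ⟨by norm_num, by norm_num, fun b hb' => ?_⟩
      have e : (((-1 : ℤ) : ℂ) / ((1 : ℤ) : ℂ)) = -1 := by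
        push_cast
        ring
      rw [e]
      exact (hb b hb').1
    obtain ⟨a, ha, hg, hLP, rfl⟩ := hS p hp
    refine ⟨pos_of_ray ha, Int.natCast_pos.2 hg, fun b hb' => ?_⟩
    have hkey : ∀ α : ℚ, HPL v h α 0 → α = -(((∑ i, a i : ℕ) : ℚ) / gord v a) →
        b.eval (((-((∑ i, a i : ℕ) : ℤ) : ℤ) : ℂ) / ((gord v a : ℤ) : ℂ)) = 0 := by
      intro α hα hα'
      have h3 := (hb b hb').2 α hα
      rw [← h3, hα']
      congr 1
      push_cast
      ring
    rcases hL a ha hg with h6 | ⟨a', hg', hn', he⟩ | h6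
    · have e : (((-((∑ i, a i : ℕ) : ℤ) : ℤ) : ℂ) / ((gord v a : ℤ) : ℂ)) = -1 := by
        rw [h6]
        have : ((gord v a : ℕ) : ℂ) ≠ 0 := by exact_mod_cast hg.ne'
        push_cast
        field_simp
      rw [e]
      exact (hb b hb').1
    · rcases hn' with hn' | hn'
      · exact hkey _ (hpl_nonB v hv hv0 h hh a' hg' hn') (by rw [he])
      · exact hkey _ (hpl_circ v hv hv0 h hh a' hg' hn') (by rw [he])
    · exact hkey _ (hLP h6) rfl
  · exact mem_insert_ring S _ (hz1 k c hcne hnk K W E hW hE fun z hz i _ => hWD z hz i)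

/-- the shift of the coefficients -/
theorem conL_shift {F : Type} [Field F] [Algebra F ℂ] (v : Fin r → Fin N → ℕ)
    (h : MvPolynomial (Fin N) F) (g : MvPolynomial (Fin r) F) (hC : ConL v (hz v h) g) :
    ConL v h (shf (cof v h) g) := by
  intro k _ _ _ _ c hc
  have hmap : ∀ {K : Type} [Field K] (φ : F →+* K) (c' : Fin r → K),
      spa v c' + MvPolynomial.map φ h =
        spa v (fun j => c' j + φ (cof v h j)) + MvPolynomial.map φ (hz v h) := by
    intro K _ φ c'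
    rw [spa_add]
    unfold hz
    rw [map_sub, map_spa]
    ring
  rw [shf_eval] at hc
  have e : (fun j => algebraMap k ℂ (c j + algebraMap F k (cof v h j))) =
      fun j => algebraMap k ℂ (c j) + algebraMap F ℂ (cof v h j) := by
    funext j
    rw [map_add, ← IsScalarTower.algebraMap_apply]
  have hc' : aeval (fun j => algebraMap k ℂ (c j + algebraMap F k (cof v h j))) g ≠ 0 := by
    rw [e]
    exact hc
  obtain ⟨S, hS, hz1⟩ := hC k (fun j => c j + algebraMap F k (cof v h j)) hc'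
  refine ⟨S, fun p hp => ?_, fun K _ _ W E hW hE hWD => ?_⟩
  · obtain ⟨h1, h2, h3⟩ := hS p hp
    refine ⟨h1, h2, fun b hb => h3 b ?_⟩
    rw [hmap] at hb
    rw [e]
    exact hb
  · rw [hmap]
    have h3 := hz1 K W E hW hE hWD
    have e : (fun j => algebraMap k K (c j + algebraMap F k (cof v h j))) =
        fun j => algebraMap k K (c j) + ((algebraMap k K).comp (algebraMap F k)) (cof v h j) := by
      funext j
      rw [map_add]
      rfl
    rw [e] at h3
    exact h3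

/-- **Generic coefficients, at the origin.** -/
theorem genLoc {F : Type} [Field F] [Algebra F ℂ] (hr : 0 < r)
    (v : Fin r → Fin N → ℕ) (hv : Function.Injective v) (hv0 : ∀ j, v j ≠ 0)
    (h : MvPolynomial (Fin N) F) (hh : ∀ w ∈ h.support, NP v w) (hL : HypX v) :
    ∃ g : MvPolynomial (Fin r) F, g ≠ 0 ∧ ConL v h g := by
  obtain ⟨g, hg, hgc⟩ := genL0 hr v hv hv0 (hz v h)
    (fun w hw => hh w ((hz_support v hv h).1 w hw)) (hz_support v hv h).2 hL
  exact ⟨shf (cof v h) g, shf_ne _ _ hg, conL_shift v h g hgc⟩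

open Pool.Agent.TH216.HD (poly InPoly map_poly)
open Pool.Agent.TH216.HDL (Vertices HypL)

/-- the same with `poly` -/
theorem genLocP {F : Type} [Field F] [Algebra F ℂ] (hr : 0 < r)
    (v : Fin r → Fin N → ℕ) (hv : Function.Injective v) (hv0 : ∀ j, v j ≠ 0)
    (h : MvPolynomial (Fin N) F) (hh : ∀ w ∈ h.support, InPoly v w)
    (hL : (N ≤ 3 ∧ Vertices v) ∨ HypL v) :
    ∃ g : MvPolynomial (Fin r) F, g ≠ 0 ∧ ∀ (k : Type) [Field k] [Algebra F k] [Algebra k ℂ]
      [IsScalarTower F k ℂ] (c : Fin r → k), aeval c g ≠ 0 →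
      ∃ S : Finset (ℤ × ℤ),
        (∀ p ∈ S, p.1 < 0 ∧ 0 < p.2 ∧ ∀ b : Polynomial ℂ,
          IsLocalBFunction (poly v (fun j => algebraMap k ℂ (c j)) h) b →
            b.eval ((p.1 : ℂ) / p.2) = 0) ∧
        (∀ (K : Type) [Field K] [Algebra k K] (W : Set (Pt K (Fin N)))
          (E : Set (AlgebraicClosure K)), Constr W → Good E → (∀ z ∈ W, ∀ i, z i = 0) →
          zetaG (MvPolynomial.map (algebraMap k K) (poly v c h)) W E ∈ ratRing K S) := by
  obtain ⟨g, hg, hC⟩ := genLoc (F := F) hr v hv hv0 h hh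
    (hL.elim (fun h => hypX_three h.1 hr v h.2) (hypX_of v))
  refine ⟨g, hg, fun k _ _ _ _ c hc => ?_⟩
  obtain ⟨S, hS, hz⟩ := hC k c (fun h0 => hc (by
    have h1 : algebraMap k ℂ (aeval c g) = 0 := by
      rw [← h0, ← aeval_algebraMap_apply]
      rfl
    exact (map_eq_zero _).1 h1))
  refine ⟨S, hS, fun K _ _ W E hW hE hWD => ?_⟩
  rw [map_poly]
  exact hz K W E hW hE hWD

end Pool.Agent.TH216.LX
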