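import Pool.Agent.TH216.ID.Gn2

set_option autoImplicit false

/-! Local zeta functions: only the exponents `v j` matter, not those of `h`. -/

namespace Pool.Agent.TH216.LX

open Pool.Agent.W426.SM (gord face)
open Pool.Agent.W803.SM (filt gord_le exists_gord mem_filt filt_nonempty)
open Pool.Agent.TH216.MF

section
variable {R R' N : ℕ}

/-- `w` is above a convex combination of the `v j`, with equality in the coordinates not in `J` -/
def InN (v : Fin R' → Fin N → ℕ) (J : Finset (Fin N)) (w : Fin N → ℕ) : Prop :=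
  ∃ l : Fin R' → ℝ, (∀ j, 0 ≤ l j) ∧ ∑ j, l j = 1 ∧ (∀ i, ∑ j, l j * (v j i : ℝ) ≤ (w i : ℝ)) ∧
    ∀ i, i ∉ J → ∑ j, l j * (v j i : ℝ) = (w i : ℝ)

lemma inN_pair (v : Fin R' → Fin N → ℕ) (l : Fin R' → ℝ) (x : Fin N → ℕ) :
    ∑ j, l j * ((∑ i, x i * v j i : ℕ) : ℝ) = ∑ i, (x i : ℝ) * ∑ j, l j * (v j i : ℝ) := by
  push_cast
  simp only [Finset.mul_sum]
  rw [Finset.sum_comm]
  refine Finset.sum_congr rfl fun i _ => Finset.sum_congr rfl fun j _ => ?_
  ring

lemma gord_inN (v : Fin R' → Fin N → ℕ) (J : Finset (Fin N)) (w : Fin N → ℕ)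
    (hw : InN v J w) (x : Fin N → ℕ) : gord v x ≤ ∑ i, x i * w i := by
  obtain ⟨l, h1, h3, h4, -⟩ := hw
  have h5 : ∑ j, l j * ((∑ i, x i * v j i : ℕ) : ℝ) ≤ ((∑ i, x i * w i : ℕ) : ℝ) := by
    rw [inN_pair]
    push_cast
    exact Finset.sum_le_sum fun i _ => mul_le_mul_of_nonneg_left (h4 i) (by positivity)
  have h6 : (gord v x : ℝ) ≤ ((∑ i, x i * w i : ℕ) : ℝ) := by
    refine le_trans ?_ h5
    calc (gord v x : ℝ) = ∑ j, l j * (gord v x : ℝ) := by rw [← Finset.sum_mul, h3, one_mul]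
      _ ≤ _ := Finset.sum_le_sum fun j _ =>
        mul_le_mul_of_nonneg_left (by exact_mod_cast gord_le v x j) (h1 j)
  exact_mod_cast h6

/-- a point with support `J` sees only convex combinations -/
lemma inN_face (v : Fin R' → Fin N → ℕ) (J : Finset (Fin N)) (w : Fin N → ℕ) (hw : InN v J w)
    (x : Fin N → ℕ) (hxJ : ∀ i ∈ J, x i ≠ 0) (hx : ∑ i, x i * w i = gord v x) :
    InC v (filt v x) w := by
  obtain ⟨l, h1, h3, h4, h5⟩ := hw
  have e1 : ((∑ i, x i * w i : ℕ) : ℝ) = gord v x := by rw [hx]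
  have h6 : (gord v x : ℝ) ≤ ∑ j, l j * ((∑ i, x i * v j i : ℕ) : ℝ) := by
    calc (gord v x : ℝ) = ∑ j, l j * (gord v x : ℝ) := by rw [← Finset.sum_mul, h3, one_mul]
      _ ≤ _ := Finset.sum_le_sum fun j _ =>
        mul_le_mul_of_nonneg_left (by exact_mod_cast gord_le v x j) (h1 j)
  have h7 : ∑ i, (x i : ℝ) * ∑ j, l j * (v j i : ℝ) ≤ ∑ i, (x i : ℝ) * (w i : ℝ) :=
    Finset.sum_le_sum fun i _ => mul_le_mul_of_nonneg_left (h4 i) (by positivity)
  rw [inN_pair] at h6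
  push_cast at e1
  -- equality in the coordinates
  have h8 : ∀ i, ∑ j, l j * (v j i : ℝ) = (w i : ℝ) := by
    intro i
    by_cases hi : i ∈ J
    · by_contra hne
      have h9 : ∑ i, (x i : ℝ) * ∑ j, l j * (v j i : ℝ) < ∑ i, (x i : ℝ) * (w i : ℝ) := by
        refine Finset.sum_lt_sum (fun i _ => mul_le_mul_of_nonneg_left (h4 i) (by positivity))
          ⟨i, Finset.mem_univ i, ?_⟩
        refine mul_lt_mul_of_pos_left (lt_of_le_of_ne (h4 i) hne) ?_
        exact_mod_cast Nat.pos_of_ne_zero (hxJ i hi)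
      linarith
    · exact h5 i hi
  exact inC_face v w ⟨l, h1, fun j hj => absurd (Finset.mem_univ j) hj, h3, h8⟩ x hx

section
variable (m : Fin R → Fin N → ℕ) (m' : Fin R' → Fin N → ℕ) (J : Finset (Fin N)) (hR : 0 < R)
  (hR' : 0 < R') (ha : ∀ j', ∃ j, m j = m' j') (hb : ∀ j, InN m' J (m j))
include hR hR' ha hb

lemma gord_np (x : Fin N → ℕ) : gord m x = gord m' x := by
  refine le_antisymm ?_ ?_
  · obtain ⟨j', hj'⟩ := exists_gord hR' m' x
    obtain ⟨j, hj⟩ := ha j'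
    rw [← hj', ← hj]
    exact gord_le m x j
  · obtain ⟨j, hj⟩ := exists_gord hR m x
    rw [← hj]
    exact gord_inN m' J _ (hb j) x

lemma phi_filtN (x : Fin N → ℕ) (hx : ∀ i ∈ J, x i ≠ 0) :
    PhiC m m' (filt m' x) = filt m x := by
  ext j
  rw [mem_PhiC, mem_filt, gord_np m m' J hR hR' ha hb x]
  constructor
  · rintro ⟨l, h1, h2, h3, h4⟩
    have h5 := inC_pair h4 x
    have h6 : ∑ j, l j * ((∑ i, x i * m' j i : ℕ) : ℝ) = gord m' x := by
      have h7 : ∀ j, l j * ((∑ i, x i * m' j i : ℕ) : ℝ) = l j * gord m' x := by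
        intro j
        by_cases hj : j ∈ filt m' x
        · rw [mem_filt.1 hj]
        · rw [h2 j hj, zero_mul, zero_mul]
      simp only [h7]
      rw [← Finset.sum_mul, h3, one_mul]
    rw [h6] at h5
    exact_mod_cast h5
  · intro h
    exact inN_face m' J _ (hb j) x hx h

/-- the coefficients, for the points with support `J` -/
lemma aJ_phiN (q : ℕ) (e : Finset (Fin R) → ℂ) (t : ℤ) :
    aJ q m' (fun τ => e (PhiC m m' τ)) J t = aJ q m e J t := by
  classical
  unfold aJ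
  refine tsum_congr fun x => ?_
  by_cases hxJ : ∀ i, x i ≠ 0 ↔ i ∈ J
  swap
  · rw [if_neg hxJ, if_neg hxJ]
  rw [if_pos hxJ, if_pos hxJ]
  have hg := gord_np m m' J hR hR' ha hb x
  have h1 : Wt m' (fun τ => e (PhiC m m' τ)) t x = Wt m e t x := by
    rcases le_or_gt 0 t with h0 | h0
    · obtain ⟨t', rfl⟩ := Int.eq_ofNat_of_zero_le h0
      have h2 := Wt_nat hR' m' (fun τ => e (PhiC m m' τ)) t' x
      have h3 := Wt_nat hR m e t' x
      rw [h2, h3, phi_empty, phi_filtN m m' J hR hR' ha hb x fun i hi => (hxJ i).2 hi, hg]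
    · have hneg : ∀ {s : ℕ} (w : Fin s → Fin N → ℕ) (e' : Finset (Fin s) → ℂ),
          Wt w e' t x = e' ∅ := by
        intro s w e'
        unfold Wt
        rw [if_pos fun j => by
          have : (0 : ℤ) ≤ ((∑ i, x i * w j i : ℕ) : ℤ) := by positivity
          omega]
        congr 1
        rw [Finset.filter_eq_empty_iff]
        intro j _ hj
        have : (0 : ℤ) ≤ ((∑ i, x i * w j i : ℕ) : ℤ) := by positivity
        omega
      rw [hneg, hneg, phi_empty]
  rw [h1]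

end

end

end Pool.Agent.TH216.LX
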