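import Pool.Agent.TH216.LX.Cc2
import Pool.Agent.TH216.MF.Rays

set_option autoImplicit false

/-! At most three variables: every facet. -/

namespace Pool.Agent.TH216.LX

open Pool.Agent.W425.MM
open Pool.Agent.W426.SM (gord face)
open Pool.Agent.TH216.MF (SimR)

variable {r N : ℕ}

/-- the `v j` are vertices of their Newton polyhedron -/
def Vert (v : Fin r → Fin N → ℕ) : Prop :=
  ∀ j, ¬ ∃ l : Fin r → ℝ, (∀ k, 0 ≤ l k) ∧ l j = 0 ∧ ∑ k, l k = 1 ∧
    ∀ i, ∑ k, l k * (v k i : ℝ) ≤ (v j i : ℝ)

lemma vert3 {v : Fin r → Fin N → ℕ} (hV : Vert v) {j k l : Fin r} (hjk : j ≠ k) (hjl : j ≠ l)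
    (x y : ℚ) (hx : 0 ≤ x) (hy : 0 ≤ y) (hxy : x + y = 1) :
    ¬ ∀ i, x * (v k i : ℚ) + y * (v l i : ℚ) ≤ (v j i : ℚ) := by
  classical
  intro h
  apply hV j
  refine ⟨fun m => (if m = k then (x : ℝ) else 0) + (if m = l then (y : ℝ) else 0), fun m => ?_,
    ?_, ?_, fun i => ?_⟩
  · have hx' : (0 : ℝ) ≤ x := by exact_mod_cast hx
    have hy' : (0 : ℝ) ≤ y := by exact_mod_cast hy
    dsimp only
    split_ifs <;> linarith
  · dsimp only
    rw [if_neg hjk, if_neg hjl, add_zero]
  · rw [Finset.sum_add_distrib]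
    simp only [Finset.sum_ite_eq', Finset.mem_univ, if_true]
    exact_mod_cast hxy
  · simp only [add_mul, ite_mul, zero_mul, Finset.sum_add_distrib, Finset.sum_ite_eq',
      Finset.mem_univ, if_true]
    exact_mod_cast h i

lemma vert2 {v : Fin r → Fin N → ℕ} (hV : Vert v) {j k : Fin r} (hjk : j ≠ k) :
    ¬ ∀ i, v k i ≤ v j i := by
  intro h
  refine vert3 hV hjk hjk 1 0 zero_le_one le_rfl (by norm_num) fun i => ?_
  have := h i
  rw [one_mul, zero_mul, add_zero]
  exact_mod_cast this

/-- no affine relation between three vertices -/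
lemma rel3 {v : Fin r → Fin N → ℕ} (hV : Vert v) {j k l : Fin r} (hjk : j ≠ k) (hjl : j ≠ l)
    (hkl : k ≠ l) (x y z : ℚ) (h0 : x + y + z = 0)
    (h : ∀ i, x * (v j i : ℚ) + y * (v k i : ℚ) + z * (v l i : ℚ) = 0) :
    x = 0 ∧ y = 0 ∧ z = 0 := by
  -- one of the signs is different from the others
  have key : ∀ {j k l : Fin r}, j ≠ k → j ≠ l → ∀ x y z : ℚ, x ≠ 0 → y * x ≤ 0 → z * x ≤ 0 →
      x + y + z = 0 → (∀ i, x * (v j i : ℚ) + y * (v k i : ℚ) + z * (v l i : ℚ) = 0) → False := by
    intro j k l hjk hjl x y z hx hy hz h0 h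
    have hx2 : 0 < x * x := mul_self_pos.2 hx
    refine vert3 hV hjk hjl (-y / x) (-z / x) ?_ ?_ ?_ fun i => ?_
    · have e : -y / x = -(y * x) / (x * x) := by field_simp
      rw [e]
      exact div_nonneg (by linarith) hx2.le
    · have e : -z / x = -(z * x) / (x * x) := by field_simp
      rw [e]
      exact div_nonneg (by linarith) hx2.le
    · field_simp
      linarith
    · have h1 := h i
      have e : -y / x * (v k i : ℚ) + -z / x * (v l i : ℚ) =
          -(y * (v k i : ℚ) + z * (v l i : ℚ)) / x := by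
        field_simp
        ring
      rw [e]
      have e2 : -(y * (v k i : ℚ) + z * (v l i : ℚ)) = x * (v j i : ℚ) := by linarith
      rw [e2, mul_div_assoc, mul_comm, div_mul_cancel₀ _ hx]
  by_contra hcon
  rcases lt_trichotomy x 0 with hx | hx | hx
  · rcases le_total y 0 with hy | hy
    · -- `z` is the positive one
      have hz : 0 < z := by linarith
      exact key (hjl.symm) (hkl.symm) z x y hz.ne' (mul_nonpos_of_nonpos_of_nonneg hx.le hz.le)
        (mul_nonpos_of_nonpos_of_nonneg hy hz.le) (by linarith) fun i => by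
          have := h i
          linarith
    · rcases le_total z 0 with hz | hz
      · have hy' : 0 < y := by linarith
        exact key (hjk.symm) hkl y x z hy'.ne' (mul_nonpos_of_nonpos_of_nonneg hx.le hy)
          (mul_nonpos_of_nonpos_of_nonneg hz hy) (by linarith) fun i => by
            have := h i
            linarith
      · exact key hjk hjl x y z hx.ne (mul_nonpos_of_nonneg_of_nonpos hy hx.le)
          (mul_nonpos_of_nonneg_of_nonpos hz hx.le) h0 h
  · by_cases hy : y = 0
    · exact hcon ⟨hx, hy, by linarith⟩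
    · refine key (hjk.symm) hkl y x z hy (by rw [hx, zero_mul]) ?_ (by linarith) fun i => by
        have := h i
        linarith
      have hz : z = -y := by linarith
      rw [hz]
      nlinarith [mul_self_nonneg y]
  · rcases le_total y 0 with hy | hy
    · rcases le_total z 0 with hz | hz
      · exact key hjk hjl x y z hx.ne' (mul_nonpos_of_nonpos_of_nonneg hy hx.le)
          (mul_nonpos_of_nonpos_of_nonneg hz hx.le) h0 h
      · have hy' : y < 0 := by linarith
        exact key (hjk.symm) hkl y x z hy'.ne (mul_nonpos_of_nonneg_of_nonpos hx.le hy)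
          (mul_nonpos_of_nonneg_of_nonpos hz hy) (by linarith) fun i => by
            have := h i
            linarith
    · have hz : z < 0 := by linarith
      exact key (hjl.symm) (hkl.symm) z x y hz.ne (mul_nonpos_of_nonneg_of_nonpos hx.le hz.le)
        (mul_nonpos_of_nonneg_of_nonpos hy hz.le) (by linarith) fun i => by
          have := h i
          linarith

/-- `NonB`, with a more convenient form of the independence -/
lemma nonB_of (v : Fin r → Fin N → ℕ) (a : Fin N → ℕ) (J : Finset (Fin r))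
    (hJ : J.card = (Finset.univ.filter fun i => a i ≠ 0).card) (hf : ∀ j ∈ J, face v a j)
    (hlin : ∀ w : Fin r → ℚ, (∀ j, j ∉ J → w j = 0) →
      (∀ i, a i ≠ 0 → ∑ j, w j * (v j i : ℚ) = 0) → ∀ j, w j = 0)
    (hNB : ∀ i, a i ≠ 0 → NB v J i)
    (hloc : ∀ l, face v a l → ∀ c : Fin r → ℚ, (∀ j, j ∉ J → c j = 0) →
      (∀ i, a i ≠ 0 → ∑ j, c j * (v j i : ℚ) = (v l i : ℚ)) →
      ∑ j, c j * ∑ i, (if a i = 0 then (v j i : ℚ) else 0) ≤
        ∑ i, (if a i = 0 then (v l i : ℚ) else 0)) : NonB v True a := by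
  classical
  refine ⟨J, hJ, hf, ?_, hNB, fun _ => hloc⟩
  rw [Fintype.linearIndependent_iff]
  intro g hg j
  have h1 := hlin (fun j => if hj : j ∈ J then g ⟨j, hj⟩ else 0) (fun j hj => by simp [hj])
    (fun i hi => by
      have h2 := congrFun hg ⟨i, hi⟩
      rw [Finset.sum_apply] at h2
      simp only [Pi.smul_apply, smul_eq_mul, Pi.zero_apply] at h2
      refine Eq.trans ?_ h2
      have e1 := Finset.sum_coe_sort J
        (fun j => (if hj : j ∈ J then g ⟨j, hj⟩ else 0) * (v j i : ℚ))
      have e2 : ∑ j ∈ J, (if hj : j ∈ J then g ⟨j, hj⟩ else 0) * (v j i : ℚ) =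
          ∑ j, (if hj : j ∈ J then g ⟨j, hj⟩ else 0) * (v j i : ℚ) := by
        refine Finset.sum_subset (Finset.subset_univ J) fun j _ hj => ?_
        rw [dif_neg hj, zero_mul]
      rw [← e2, ← e1]
      refine Finset.sum_congr rfl fun j _ => ?_
      simp) j
  simpa using h1

/-- one coordinate -/
lemma case1 (v : Fin r → Fin N → ℕ) (a : Fin N → ℕ) (hr : 0 < r) (hg : 0 < gord v a)
    (i0 : Fin N) (hi0 : ∀ i, a i ≠ 0 ↔ i = i0) : ∑ i, a i = gord v a ∨ NonB v True a := by
  classical
  have hsum : ∀ f : Fin N → ℕ, ∑ i, a i * f i = a i0 * f i0 := by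
    intro f
    refine Finset.sum_eq_single i0 (fun i _ hi => ?_) fun h => absurd (Finset.mem_univ _) h
    have : a i = 0 := by
      by_contra h
      exact hi ((hi0 i).1 h)
    rw [this, zero_mul]
  obtain ⟨j1, hj1⟩ := Pool.Agent.W803.SM.exists_gord hr v a
  have hf1 : face v a j1 := hj1
  rw [hsum] at hj1
  by_cases h1 : v j1 i0 = 1
  · left
    have h2 := hsum fun _ => 1
    simp only [mul_one] at h2
    rw [h2, ← hj1, h1, mul_one]
  right
  -- minimal height
  obtain ⟨j0, hj0, hmin⟩ := (Finset.univ.filter fun j => face v a j).exists_min_image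
    (fun j => ∑ i, (if a i = 0 then (v j i : ℚ) else 0))
    ⟨j1, Finset.mem_filter.2 ⟨Finset.mem_univ _, hf1⟩⟩
  have hf0 := (Finset.mem_filter.1 hj0).2
  have hai : 0 < a i0 := Nat.pos_of_ne_zero ((hi0 i0).2 rfl)
  have hval : ∀ j, face v a j → v j i0 = v j1 i0 := by
    intro j hj
    unfold face at hj
    rw [hsum, ← hj1] at hj
    exact Nat.eq_of_mul_eq_mul_left hai hj
  have hv1 : v j1 i0 ≠ 0 := by
    intro h
    rw [h, mul_zero] at hj1
    omega
  refine nonB_of v a {j0} ?_ (fun j hj => ?_) (fun w hw h => ?_) (fun i hi => ?_)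
    (fun l hl c hc h => ?_)
  · rw [Finset.card_singleton]
    have : (Finset.univ.filter fun i => a i ≠ 0) = {i0} := by
      ext i
      simp [hi0]
    rw [this, Finset.card_singleton]
  · rw [Finset.mem_singleton.1 hj]
    exact hf0
  · intro j
    by_cases hj : j = j0
    · have h2 := h i0 ((hi0 i0).2 rfl)
      rw [Finset.sum_eq_single j0 (fun j' _ hj' => by
        rw [hw j' (by simpa using hj'), zero_mul]) (by simp), hval j0 hf0] at h2
      rw [hj]
      exact (mul_eq_zero.1 h2).resolve_right (by exact_mod_cast hv1)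
    · exact hw j (by simpa using hj)
  · rw [(hi0 i).1 hi]
    rintro ⟨j, hj, h2, -⟩
    rw [Finset.mem_singleton.1 hj, hval j0 hf0] at h2
    exact h1 h2
  · have h2 := h i0 ((hi0 i0).2 rfl)
    rw [Finset.sum_eq_single j0 (fun j' _ hj' => by
      rw [hc j' (by simpa using hj'), zero_mul]) (by simp), hval j0 hf0, hval l hl] at h2
    have h3 : c j0 = 1 := by
      have : (v j1 i0 : ℚ) ≠ 0 := by exact_mod_cast hv1
      exact mul_right_cancel₀ this (by rw [h2, one_mul])
    rw [Finset.sum_eq_single j0 (fun j' _ hj' => by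
      rw [hc j' (by simpa using hj'), zero_mul]) (by simp), h3, one_mul]
    exact hmin l (Finset.mem_filter.2 ⟨Finset.mem_univ _, hl⟩)

end Pool.Agent.TH216.LX
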