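import Pool.Agent.TH216.LX.Lx3
import Pool.Agent.TH216.HDF

set_option autoImplicit false

/-! The criterion in terms of the faces, and at most four variables. -/

namespace Pool.Agent.TH216.LX

open Pool.Agent.W426.SM (gord IsRay face)
open Pool.Agent.W425.BF (B1)
open Pool.Agent.TH216.MF
open Pool.Agent.TH216.ID (HypSY)
open Pool.Agent.TH216.HDF

variable {r N : ℕ}

/-- **From the condition on the faces to the criterion.** -/
theorem hypSY_of_locF (hr : 0 < r) (v : Fin r → Fin N → ℕ) (Y : Finset (Fin N)) (σ : ℚ)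
    (hL : LocF v σ) : HypSY v Y (σ : ℝ) := by
  classical
  intro A Z hne hconst hprem
  by_cases hsim : Forced v A Z
  · exact Or.inl hsim
  right
  left
  have hray : ∀ (A' : Finset (Fin N)) (Z' : Finset (Fin r)), A' ⊆ A → Z' ⊆ Z →
      (Pt v A' Z').Nonempty → ∃ (a : Fin N → ℚ) (b : Fin N → ℕ), a ∈ Pt v A' Z' ∧
        (∀ i, b i = 0 ↔ a i = 0) ∧ RayAt v A Zᶜ b ∧
        (∀ j, face v b j ↔ ∑ i, a i * (v j i : ℚ) = 1) := by
    intro A' Z' hA' hZ' hne'
    obtain ⟨a, b, h1, h2, h3, h4, h5, h6⟩ := ray_of_vertex hr v A' Z' hne'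
    refine ⟨a, b, h1, h2, ⟨h3, h4, fun i hi => ?_, fun j hj => ?_⟩, h5⟩
    · exact (h2 i).2 (h1.2.1 i fun h => hi (hA' h))
    · refine (h5 j).2 (h1.2.2.2 j fun h => ?_)
      exact (Finset.mem_compl.1 hj) (hZ' h)
  -- all the rays are at the level
  have hlev : ∀ b, RayAt v A Zᶜ b → Pool.Agent.TH216.HD.lev v b = σ := by
    rintro b ⟨h1, h2, h3, h4⟩
    have hg : (gord v b : ℚ) ≠ 0 := by
      have : (0 : ℕ) < gord v b := h2
      exact_mod_cast this.ne'
    have hmem : (fun i => (b i : ℚ) / gord v b) ∈ Pt v A Z := by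
      refine ⟨fun i => by positivity, fun i hi => ?_, fun j => ?_, fun j hj => ?_⟩
      · show (b i : ℚ) / gord v b = 0
        rw [h3 i hi]
        simp
      · have h5 := Pool.Agent.W803.SM.gord_le v b j
        have e : ∑ i, (b i : ℚ) / gord v b * (v j i : ℚ) =
            ((∑ i, b i * v j i : ℕ) : ℚ) / gord v b := by
          push_cast
          rw [Finset.sum_div]
          exact Finset.sum_congr rfl fun i _ => by ring
        show 1 ≤ ∑ i, (b i : ℚ) / gord v b * (v j i : ℚ)
        rw [e, le_div_iff₀ (lt_of_le_of_ne (by positivity) hg.symm), one_mul]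
        exact_mod_cast h5
      · have h5 : ∑ i, b i * v j i = gord v b := h4 j (Finset.mem_compl.2 hj)
        have e : ∑ i, (b i : ℚ) / gord v b * (v j i : ℚ) =
            ((∑ i, b i * v j i : ℕ) : ℚ) / gord v b := by
          push_cast
          rw [Finset.sum_div]
          exact Finset.sum_congr rfl fun i _ => by ring
        show ∑ i, (b i : ℚ) / gord v b * (v j i : ℚ) = 1
        rw [e, h5, div_self hg]
    have h6 := hconst _ hmem
    have h7 : ∑ i, (b i : ℚ) / gord v b = σ := by exact_mod_cast h6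
    unfold Pool.Agent.TH216.HD.lev
    push_cast
    rw [Finset.sum_div]
    exact h7
  have hdep : Dep v A Zᶜ := by
    unfold Forced at hsim
    push Not at hsim
    obtain ⟨w, h1, h2, j, hj⟩ := hsim
    exact ⟨w, ⟨j, hj⟩, fun j hj => h2 j (by simpa using hj), h1⟩
  obtain ⟨i, hi⟩ := hL A Zᶜ hdep (fun i hi => by
      obtain ⟨j, hj, h1⟩ := hprem i hi
      exact ⟨j, Finset.mem_compl.2 hj, h1.ne'⟩)
    (by
      obtain ⟨a, b, -, -, h1, -⟩ := hray A Z (Finset.Subset.refl _) (Finset.Subset.refl _) hne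
      exact ⟨b, h1⟩) hlev
  have hB : ∀ (A' : Finset (Fin N)) (Z' : Finset (Fin r)), A' ⊆ A → Z' ⊆ Z →
      (Pt v A' Z').Nonempty → ∃ (a : Fin N → ℚ) (b : Fin N → ℕ), a ∈ Pt v A' Z' ∧
        (∀ i, b i = 0 ↔ a i = 0) ∧ (∀ j, face v b j ↔ ∑ i, a i * (v j i : ℚ) = 1) ∧
        B1 v i b := by
    intro A' Z' hA' hZ' hne'
    obtain ⟨a, b, h1, h2, h3, h4⟩ := hray A' Z' hA' hZ' hne'
    exact ⟨a, b, h1, h2, h4, hi b h3⟩
  obtain ⟨a1, b1, ha1, hb1, hf1, hB1⟩ := hB A Z (Finset.Subset.refl _)
    (Finset.Subset.refl _) hne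
  obtain ⟨hb1i, j0, hj0f, hj0, hj0u⟩ := hB1
  have hiA : i ∈ A := by
    by_contra hiA
    exact hb1i ((hb1 i).2 (ha1.2.1 i hiA))
  refine ⟨i, hiA, j0, hj0, fun a ha hai => ?_, fun j hj hji a ha haj => ?_⟩
  · obtain ⟨a2, b2, ha2, hb2, hf2, hB2⟩ := hB (A.erase i) Z (Finset.erase_subset _ _)
      (Finset.Subset.refl _) ⟨a, ha.1, fun i' hi' => by
        by_cases h1 : i' = i
        · rw [h1]; exact hai
        · exact ha.2.1 i' fun h2 => hi' (Finset.mem_erase.2 ⟨h1, h2⟩), ha.2.2.1, ha.2.2.2⟩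
    exact hB2.1 ((hb2 i).2 (ha2.2.1 i (Finset.notMem_erase i A)))
  · obtain ⟨a2, b2, ha2, hb2, hf2, hB2⟩ := hB A (Z.erase j) (Finset.Subset.refl _)
      (Finset.erase_subset _ _) ⟨a, ha.1, ha.2.1, ha.2.2.1, fun j' hj' => by
        by_cases h1 : j' = j
        · rw [h1]; exact haj
        · exact ha.2.2.2 j' fun h2 => hj' (Finset.mem_erase.2 ⟨h1, h2⟩)⟩
    obtain ⟨hb2i, j0', hj0f', hj0', hj0u'⟩ := hB2
    obtain ⟨j2, hj2Z, hj2⟩ := hprem i hiA
    have h3 : j2 = j0 := by
      by_contra h4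
      have := hj0u j2 ((hf1 j2).2 (ha1.2.2.2 j2 hj2Z)) h4
      omega
    have h4 : j2 = j0' := by
      by_contra h4
      have := hj0u' j2 ((hf2 j2).2 (ha2.2.2.2 j2 fun h5 => hj2Z (Finset.mem_of_mem_erase h5))) h4
      omega
    have h5 : j = j0' := by
      by_contra h6
      have := hj0u' j ((hf2 j).2 (ha2.2.2.2 j (Finset.notMem_erase j Z))) h6
      omega
    exact hj (h5.trans (h4.symm.trans h3))

/-- a dependent set is not on a simplex -/
lemma not_simR {v : Fin r → Fin N → ℕ} {A : Finset (Fin N)} {τ : Finset (Fin r)}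
    (hd : Dep v A τ) {a : Fin N → ℕ} (ha : RayAt v A τ a) : ¬ SimR v a := by
  intro hs
  obtain ⟨w, ⟨j, hj⟩, h1, h2⟩ := hd
  refine hj (hs w (fun j hj => h1 j fun h => hj (ha.2.2.2 j h)) (fun i hi => ?_) j)
  refine h2 i ?_
  by_contra h
  exact hi (ha.2.2.1 i h)

/-- the condition at every vertex implies the condition on the faces -/
theorem locF_of_locL (v : Fin r → Fin N → ℕ) (σ : ℚ) (h : Pool.Agent.TH216.HDL.LocL v σ) :
    LocF v σ := by
  intro A τ hd _ _ hlev
  obtain ⟨w, ⟨j1, hj1⟩, h1, h2⟩ := hd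
  have hj1τ : j1 ∈ τ := by
    by_contra hcon
    exact hj1 (h1 j1 hcon)
  obtain ⟨i, hi⟩ := h j1
  refine ⟨i, fun a ha => ?_⟩
  rcases hi a ha.1 ha.2.1 (ha.2.2.2 j1 hj1τ) (hlev a ha) with h3 | h3
  · exact absurd h3 (not_simR ⟨w, ⟨j1, hj1⟩, h1, h2⟩ ha)
  · exact h3

/-- the combinatorial part in four variables -/
lemma four_aux (hN : N ≤ 4) (v : Fin r → Fin N → ℕ) (hV : Vert v) (A : Finset (Fin N))
    (a : Fin N → ℕ) (haA : ∀ i, i ∉ A → a i = 0) (hg : 0 < gord v a)
    (w : Fin r → ℚ) (hw : ∃ j, w j ≠ 0) (hwf : ∀ j, w j ≠ 0 → face v a j)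
    (hwA : ∀ i ∈ A, ∑ j, w j * (v j i : ℚ) = 0) (i k : Fin N) (hik : i ≠ k)
    (hwi : ∀ j, w j ≠ 0 → v j i = 0) (hwk : ∀ j, w j ≠ 0 → v j k = 0) : False := by
  classical
  have hgq : (gord v a : ℚ) ≠ 0 := by exact_mod_cast hg.ne'
  -- the sum of the coefficients
  have hsum : ∑ j, w j = 0 := by
    have h1 : ∑ x, (a x : ℚ) * ∑ j, w j * (v j x : ℚ) = 0 := by
      refine Finset.sum_eq_zero fun x _ => ?_
      by_cases hx : x ∈ A
      · rw [hwA x hx, mul_zero]
      · rw [haA x hx]
        simp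
    have h2 : ∑ x, (a x : ℚ) * ∑ j, w j * (v j x : ℚ) = (gord v a : ℚ) * ∑ j, w j := by
      simp only [Finset.mul_sum]
      rw [Finset.sum_comm]
      refine Finset.sum_congr rfl fun j _ => ?_
      by_cases hj : w j = 0
      · rw [hj]
        simp
      · have h3 : ((∑ x, a x * v j x : ℕ) : ℚ) = gord v a := by
          have := hwf j hj
          unfold face at this
          exact_mod_cast this
        rw [← h3]
        push_cast
        rw [Finset.sum_mul]
        exact Finset.sum_congr rfl fun x _ => by ring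
    rw [h1] at h2
    exact (mul_eq_zero.1 h2.symm).resolve_left hgq
  obtain ⟨j1, hj1⟩ := hw
  obtain ⟨j2, hj21, hj2⟩ : ∃ j2, j2 ≠ j1 ∧ w j2 ≠ 0 := by
    by_contra hcon
    push Not at hcon
    rw [Finset.sum_eq_single j1 (fun j _ hj => hcon j hj) (by simp)] at hsum
    exact hj1 hsum
  -- the remaining coordinates
  have hcard : (Finset.univ \ {i, k} : Finset (Fin N)).card ≤ 2 := by
    rw [Finset.card_sdiff_of_subset (Finset.subset_univ _), Finset.card_univ, Fintype.card_fin,
      Finset.card_pair hik]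
    omega
  have hB : ∀ j, w j ≠ 0 → ∑ x ∈ (Finset.univ \ {i, k} : Finset (Fin N)), a x * v j x =
      gord v a := by
    intro j hj
    have h1 := hwf j hj
    unfold face at h1
    rw [← h1]
    refine Finset.sum_subset (Finset.subset_univ _) fun x _ hx => ?_
    rw [Finset.mem_sdiff] at hx
    push Not at hx
    have h2 := hx (Finset.mem_univ x)
    rw [Finset.mem_insert, Finset.mem_singleton] at h2
    rcases h2 with rfl | rfl
    · rw [hwi j hj, mul_zero]
    · rw [hwk j hj, mul_zero]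
  have hout : ∀ x, x ∉ (Finset.univ \ {i, k} : Finset (Fin N)) → ∀ j, w j ≠ 0 → v j x = 0 := by
    intro x hx j hj
    rw [Finset.mem_sdiff] at hx
    push Not at hx
    have h2 := hx (Finset.mem_univ x)
    rw [Finset.mem_insert, Finset.mem_singleton] at h2
    rcases h2 with rfl | rfl
    · exact hwi j hj
    · exact hwk j hj
  set B : Finset (Fin N) := Finset.univ \ {i, k} with hBdef
  have hc3 : B.card = 0 ∨ B.card = 1 ∨ B.card = 2 := by omega
  rcases hc3 with hc | hc | hc
  · rw [Finset.card_eq_zero] at hc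
    have h1 := hB j1 hj1
    rw [hc, Finset.sum_empty] at h1
    omega
  · obtain ⟨p, hp⟩ := Finset.card_eq_one.1 hc
    have h1 := hB j1 hj1
    have h2 := hB j2 hj2
    rw [hp, Finset.sum_singleton] at h1 h2
    have hap : a p ≠ 0 := by
      intro h
      rw [h, zero_mul] at h1
      omega
    have h3 : v j2 p = v j1 p := Nat.eq_of_mul_eq_mul_left (Nat.pos_of_ne_zero hap)
      (h2.trans h1.symm)
    refine vert2 hV hj21.symm fun x => ?_
    by_cases hx : x ∈ B
    · rw [hp, Finset.mem_singleton] at hx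
      rw [hx, h3]
    · rw [hout x hx j2 hj2]
      exact Nat.zero_le _
  · obtain ⟨p, q, hpq, hp⟩ := Finset.card_eq_two.1 hc
    have hBp : ∀ j, w j ≠ 0 → a p * v j p + a q * v j q = gord v a := by
      intro j hj
      rw [← hB j hj, hp, Finset.sum_pair hpq]
    have hle : ∀ j j', w j ≠ 0 → w j' ≠ 0 → j ≠ j' → v j p ≤ v j' p → v j q ≤ v j' q →
        False := by
      intro j j' hj hj' hne h1 h2
      refine vert2 hV hne.symm fun x => ?_
      by_cases hx : x ∈ B
      · rw [hp, Finset.mem_insert, Finset.mem_singleton] at hx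
        rcases hx with rfl | rfl
        · exact h1
        · exact h2
      · rw [hout x hx j hj]
        exact Nat.zero_le _
    by_cases haq : a q = 0
    · have hpp : ∀ j, w j ≠ 0 → a p * v j p = gord v a := by
        intro j hj
        have := hBp j hj
        rw [haq, zero_mul, add_zero] at this
        exact this
      have hap : a p ≠ 0 := by
        intro h
        have := hpp j1 hj1
        rw [h, zero_mul] at this
        omega
      have h3 : v j2 p = v j1 p := Nat.eq_of_mul_eq_mul_left (Nat.pos_of_ne_zero hap)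
        ((hpp j2 hj2).trans (hpp j1 hj1).symm)
      rcases le_total (v j1 q) (v j2 q) with h4 | h4
      · exact hle j1 j2 hj1 hj2 hj21.symm h3.ge h4
      · exact hle j2 j1 hj2 hj1 hj21 h3.le h4
    by_cases hap : a p = 0
    · have hpp : ∀ j, w j ≠ 0 → a q * v j q = gord v a := by
        intro j hj
        have := hBp j hj
        rw [hap, zero_mul, zero_add] at this
        exact this
      have h3 : v j2 q = v j1 q := Nat.eq_of_mul_eq_mul_left (Nat.pos_of_ne_zero haq)
        ((hpp j2 hj2).trans (hpp j1 hj1).symm)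
      rcases le_total (v j1 p) (v j2 p) with h4 | h4
      · exact hle j1 j2 hj1 hj2 hj21.symm h4 h3.ge
      · exact hle j2 j1 hj2 hj1 hj21 h4 h3.le
    -- both coordinates are in `A`
    have hpA : p ∈ A := by
      by_contra h
      exact hap (haA p h)
    have haq' : (a q : ℚ) ≠ 0 := by exact_mod_cast haq
    have hBq : ∀ j, w j ≠ 0 → (a p : ℚ) * v j p + (a q : ℚ) * v j q = gord v a := by
      intro j hj
      exact_mod_cast hBp j hj
    have hinj : ∀ j j', w j ≠ 0 → w j' ≠ 0 → (v j p : ℚ) = v j' p → j = j' := by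
      intro j j' hj hj' h1
      by_contra hne
      have h2 : (v j q : ℚ) = v j' q := by
        have h3 := hBq j hj
        have h4 := hBq j' hj'
        rw [h1] at h3
        have h5 : (a q : ℚ) * v j q = (a q : ℚ) * v j' q := by linarith
        exact mul_left_cancel₀ haq' h5
      have h3 : v j p = v j' p := by exact_mod_cast h1
      have h4 : v j q = v j' q := by exact_mod_cast h2
      exact hle j j' hj hj' hne h3.le h4.le
    by_cases h3 : ∃ j3, j3 ≠ j1 ∧ j3 ≠ j2 ∧ w j3 ≠ 0
    · obtain ⟨j3, h31, h32, hj3⟩ := h3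
      have hrel := rel3 hV hj21.symm h31.symm h32.symm ((v j2 p : ℚ) - v j3 p)
        ((v j3 p : ℚ) - v j1 p) ((v j1 p : ℚ) - v j2 p) (by ring) (fun x => by
          by_cases hx : x ∈ B
          · rw [hp, Finset.mem_insert, Finset.mem_singleton] at hx
            rcases hx with rfl | rfl
            · ring
            · have e1 := hBq j1 hj1
              have e2 := hBq j2 hj2
              have e3 := hBq j3 hj3
              have h5 : (a x : ℚ) * (((v j2 p : ℚ) - v j3 p) * v j1 x +
                  ((v j3 p : ℚ) - v j1 p) * v j2 x + ((v j1 p : ℚ) - v j2 p) * v j3 x) = 0 := by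
                linear_combination ((v j2 p : ℚ) - v j3 p) * e1 + ((v j3 p : ℚ) - v j1 p) * e2 +
                  ((v j1 p : ℚ) - v j2 p) * e3
              exact (mul_eq_zero.1 h5).resolve_left haq'
          · rw [hout x hx j1 hj1, hout x hx j2 hj2, hout x hx j3 hj3]
            simp)
      have h6 : (v j1 p : ℚ) = v j2 p := by linarith [hrel.2.2]
      exact hj21 (hinj j1 j2 hj1 hj2 h6).symm
    · push Not at h3
      have e1 : w j1 + w j2 = 0 := by
        rw [← hsum, ← Finset.sum_subset (Finset.subset_univ {j1, j2}) fun j _ hj => ?_,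
          Finset.sum_pair hj21.symm]
        rw [Finset.mem_insert, Finset.mem_singleton] at hj
        push Not at hj
        exact h3 j hj.1 hj.2
      have e2 : w j1 * v j1 p + w j2 * v j2 p = 0 := by
        rw [← hwA p hpA, ← Finset.sum_subset (Finset.subset_univ {j1, j2}) fun j _ hj => ?_,
          Finset.sum_pair hj21.symm]
        rw [Finset.mem_insert, Finset.mem_singleton] at hj
        push Not at hj
        rw [h3 j hj.1 hj.2, zero_mul]
      have h5 : w j1 * ((v j1 p : ℚ) - v j2 p) = 0 := by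
        have : w j2 = -w j1 := by linarith
        rw [this] at e2
        linear_combination e2
      have h6 := (mul_eq_zero.1 h5).resolve_left hj1
      exact hj21 (hinj j1 j2 hj1 hj2 (by linarith)).symm

/-- **At most four variables.** -/
theorem locF_four (hN : N ≤ 4) (v : Fin r → Fin N → ℕ) (hV : Vert v) (σ : ℚ)
    (h : ∀ a : Fin N → ℕ, IsRay v a → 0 < gord v a → ((∑ i, a i : ℕ) : ℚ) / gord v a = σ →
      SimR v a ∨ ∃ i, B1 v i a) : LocF v σ := by
  classical
  intro A τ hd hprem hex hlev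
  have hB : ∀ a, RayAt v A τ a → ∃ i, B1 v i a := by
    intro a ha
    rcases h a ha.1 ha.2.1 (hlev a ha) with h1 | h1
    · exact absurd h1 (not_simR hd ha)
    · exact h1
  obtain ⟨a0, ha0⟩ := hex
  obtain ⟨i, hi⟩ := hB a0 ha0
  refine ⟨i, fun a ha => ?_⟩
  obtain ⟨k, hk⟩ := hB a ha
  by_cases hik : i = k
  · rw [hik]
    exact hk
  exfalso
  obtain ⟨w, hw, hwτ, hwA⟩ := hd
  -- the apices
  have key : ∀ (a : Fin N → ℕ) (i : Fin N), RayAt v A τ a → B1 v i a → ∀ j, w j ≠ 0 →
      v j i = 0 := by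
    intro a i ha hb j hj
    obtain ⟨hai, j0, hf0, hv0, hu⟩ := hb
    have hiA : i ∈ A := by
      by_contra hcon
      exact hai (ha.2.2.1 i hcon)
    have hτ : ∀ j, w j ≠ 0 → j ∈ τ := fun j hj => by
      by_contra hcon
      exact hj (hwτ j hcon)
    have h1 := hwA i hiA
    rw [Finset.sum_eq_single j0 (fun j' _ hj' => by
      by_cases h2 : w j' = 0
      · rw [h2, zero_mul]
      · rw [hu j' (ha.2.2.2 j' (hτ j' h2)) hj']
        simp) (by simp), hv0] at h1
    have h2 : w j0 = 0 := by simpa using h1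
    exact hu j (ha.2.2.2 j (hτ j hj)) fun h3 => hj (by rw [h3, h2])
  exact four_aux hN v hV A a0 ha0.2.2.1 ha0.2.1 w hw
    (fun j hj => ha0.2.2.2 j (by
      by_contra hcon
      exact hj (hwτ j hcon))) hwA i k hik (key a0 i ha0 hi) (key a k ha hk)

end Pool.Agent.TH216.LX
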