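import Pool.Agent.W425.MM.A5s

set_option autoImplicit false

/-! A root criterion from a circuit on a compact facet. -/

namespace Pool.Agent.TH216.LX

open MvPolynomial Pool.Agent.W425.SG Pool.Agent.W425.SV Pool.Agent.W425.MM Pool.Agent.W571.MM
open Pool.Agent.H628R4.TZ
open Pool.Agent.W425.SM (dm)
open Pool.Agent.W426.SM (gord face)

variable {r N : ℕ}

/-- a negative integer -/
def NegI (x : ℚ) : Prop := ∃ m : ℕ, 0 < m ∧ x = -(m : ℚ)

open Classical in
/-- a circuit with the simplex `D` and the further point `k` -/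
def Circ (v : Fin r → Fin N → ℕ) (a : Fin N → ℕ) : Prop :=
  (∀ i, a i ≠ 0) ∧ ∃ (D : Finset (Fin r)) (k : Fin r) (s c : Fin r → ℚ),
    k ∉ D ∧ D.card = N ∧ (∀ j ∈ D, face v a j) ∧ face v a k ∧
    LinearIndependent ℚ (fun j : D => (fun i => (v j i : ℚ) : Fin N → ℚ)) ∧
    (∀ j, j ∉ D → s j = 0) ∧ (∀ i, ∑ j, s j * (v j i : ℚ) = -1) ∧
    (∀ j, j ∉ D → j ≠ k → c j = 0) ∧ c k < 0 ∧ (∀ i, ∑ j, c j * (v j i : ℚ) = 0) ∧
    (∀ j, NegI (s j) → c j ≠ 0) ∧
    (Finset.univ.filter fun j => NegI (s j) ∧ 0 < c j).card <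
      (Finset.univ.filter fun j => s j = 0 ∧ c j < 0).card

/-- substitution of the line `s + u c` -/
noncomputable def lin (s c : Fin r → ℚ) : MvPolynomial (Fin r) ℂ →ₐ[ℂ] Polynomial ℂ :=
  aeval fun j => Polynomial.C (s j : ℂ) + Polynomial.C (c j : ℂ) * Polynomial.X

lemma lin_X (s c : Fin r → ℚ) (j : Fin r) :
    lin s c (X j) = Polynomial.C (s j : ℂ) + Polynomial.C (c j : ℂ) * Polynomial.X := by
  unfold lin
  rw [aeval_X]

lemma lin_C (s c : Fin r → ℚ) (z : ℂ) : lin s c (C z) = Polynomial.C z := by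
  unfold lin
  rw [aeval_C]
  rfl

lemma lin_X0 (s c : Fin r → ℚ) (j : Fin r) (hs : s j = 0) (hc : c j = 0) :
    lin s c (X j) = 0 := by
  rw [lin_X, hs, hc]
  simp

/-- one of `-1, …, -M` -/
def NM (M : ℕ) (x : ℚ) : Prop := ∃ m ∈ Finset.range M, x = -((m + 1 : ℕ) : ℚ)

lemma NM.neg {M : ℕ} {x : ℚ} (h : NM M x) : NegI x := by
  obtain ⟨m, -, h⟩ := h
  exact ⟨m + 1, Nat.succ_pos m, h⟩

lemma NegI.ne {x : ℚ} (h : NegI x) : x ≠ 0 := by
  obtain ⟨m, hm, rfl⟩ := h
  have : (m : ℚ) ≠ 0 := by exact_mod_cast hm.ne'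
  simpa using this

lemma lin_dm (s c : Fin r → ℚ) (M : ℕ) (j : Fin r) :
    lin s c (dm M j) = ∏ m ∈ Finset.range M,
      (Polynomial.C ((s j : ℂ) + ((m + 1 : ℕ) : ℂ)) + Polynomial.C (c j : ℂ) * Polynomial.X) := by
  unfold dm
  rw [map_prod]
  refine Finset.prod_congr rfl fun m _ => ?_
  rw [map_add, lin_X, lin_C, map_add]
  ring

lemma lin_dm_dvd (s c : Fin r → ℚ) (M : ℕ) (j : Fin r) (h : NM M (s j)) :
    Polynomial.X ∣ lin s c (dm M j) := by
  obtain ⟨m, hm, hs⟩ := h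
  rw [lin_dm]
  refine Dvd.dvd.trans ?_ (Finset.dvd_prod_of_mem _ hm)
  have e : (s j : ℂ) + ((m + 1 : ℕ) : ℂ) = 0 := by
    rw [hs]
    push_cast
    ring
  rw [e, map_zero, zero_add]
  exact Dvd.intro_left _ rfl

open Classical in
lemma lin_dm_fac (s c : Fin r → ℚ) (M : ℕ) (j : Fin r) (hc : NM M (s j) → c j ≠ 0) :
    ∃ G : Polynomial ℂ, G.eval 0 ≠ 0 ∧
      lin s c (dm M j) = Polynomial.X ^ (if NM M (s j) then 1 else 0) * G := by
  by_cases h : NM M (s j)
  · rw [if_pos h]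
    have hcj := hc h
    obtain ⟨m, hm, hs⟩ := h
    refine ⟨Polynomial.C (c j : ℂ) * ∏ m ∈ (Finset.range M).erase m,
      (Polynomial.C ((s j : ℂ) + ((m + 1 : ℕ) : ℂ)) + Polynomial.C (c j : ℂ) * Polynomial.X),
      ?_, ?_⟩
    · rw [Polynomial.eval_mul, Polynomial.eval_C, Polynomial.eval_prod]
      refine mul_ne_zero (by exact_mod_cast hcj) (Finset.prod_ne_zero_iff.2 fun m' hm' => ?_)
      simp only [Polynomial.eval_add, Polynomial.eval_C, Polynomial.eval_mul, Polynomial.eval_X,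
        mul_zero, add_zero]
      intro h0
      apply Finset.ne_of_mem_erase hm'
      have h1 : ((s j + ((m' + 1 : ℕ) : ℚ) : ℚ) : ℂ) = ((0 : ℚ) : ℂ) := by
        push_cast
        push_cast at h0
        exact h0
      have h2 : s j + ((m' + 1 : ℕ) : ℚ) = 0 := by exact_mod_cast h1
      rw [hs] at h2
      push_cast at h2
      have h3 : (m' : ℚ) = m := by linarith
      exact_mod_cast h3
    · rw [lin_dm, ← Finset.mul_prod_erase _ _ hm]
      have e : (s j : ℂ) + ((m + 1 : ℕ) : ℂ) = 0 := by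
        rw [hs]
        push_cast
        ring
      rw [e, map_zero, zero_add, pow_one]
      ring
  · rw [if_neg h, pow_zero]
    refine ⟨_, ?_, (one_mul _).symm⟩
    rw [lin_dm, Polynomial.eval_prod]
    refine Finset.prod_ne_zero_iff.2 fun m hm => ?_
    simp only [Polynomial.eval_add, Polynomial.eval_C, Polynomial.eval_mul, Polynomial.eval_X,
      mul_zero, add_zero]
    intro h0
    apply h
    refine ⟨m, hm, ?_⟩
    have h1 : ((s j + ((m + 1 : ℕ) : ℚ) : ℚ) : ℂ) = ((0 : ℚ) : ℂ) := by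
      push_cast
      push_cast at h0
      exact h0
    have h2 : s j + ((m + 1 : ℕ) : ℚ) = 0 := by exact_mod_cast h1
    linarith

lemma lin_el (s c : Fin r → ℚ) (v : Fin r → Fin N → ℕ) (i : Fin N)
    (hs : ∑ j, s j * (v j i : ℚ) = -1) (hc : ∑ j, c j * (v j i : ℚ) = 0) :
    lin s c (el v i) = 0 := by
  have e : el v i = 1 + ∑ j, C ((v j i : ℕ) : ℂ) * X j := rfl
  rw [e, map_add, map_one, map_sum]
  have h1 : ∀ j, lin s c (C ((v j i : ℕ) : ℂ) * X j) =
      Polynomial.C ((s j : ℂ) * (v j i : ℂ)) +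
        Polynomial.C ((c j : ℂ) * (v j i : ℂ)) * Polynomial.X := by
    intro j
    rw [map_mul, lin_C, lin_X, map_mul, map_mul]
    ring
  rw [Finset.sum_congr rfl fun j _ => h1 j, Finset.sum_add_distrib, ← Finset.sum_mul, ← map_sum,
    ← map_sum]
  have h2 : ∑ j, (s j : ℂ) * (v j i : ℂ) = -1 := by
    have := congrArg (fun q : ℚ => (q : ℂ)) hs
    push_cast at this
    exact this
  have h3 : ∑ j, (c j : ℂ) * (v j i : ℂ) = 0 := by
    have := congrArg (fun q : ℚ => (q : ℂ)) hc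
    push_cast at this
    exact this
  rw [h2, h3]
  simp

/-- the sum of the coefficients, from a linear form which is constant on the support -/
lemma sum_of_face (v : Fin r → Fin N → ℕ) (a : Fin N → ℕ) (s : Fin r → ℚ)
    (hf : ∀ j, s j ≠ 0 → face v a j) (t : ℚ) (hs : ∀ i, ∑ j, s j * (v j i : ℚ) = t) :
    (∑ j, s j) * (gord v a : ℚ) = t * ((∑ i, a i : ℕ) : ℚ) := by
  have h1 : ∑ i, (a i : ℚ) * ∑ j, s j * (v j i : ℚ) = t * ((∑ i, a i : ℕ) : ℚ) := by
    simp only [hs]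
    rw [← Finset.sum_mul]
    push_cast
    ring
  rw [← h1]
  simp only [Finset.mul_sum]
  rw [Finset.sum_comm, Finset.sum_mul]
  refine Finset.sum_congr rfl fun j _ => ?_
  by_cases hj : s j = 0
  · rw [hj]
    simp
  · have h2 : ((∑ i, a i * v j i : ℕ) : ℚ) = gord v a := by
      have := hf j hj
      unfold face at this
      exact_mod_cast this
    rw [← h2]
    push_cast
    rw [Finset.mul_sum]
    exact Finset.sum_congr rfl fun i _ => by ring

/-- terms of negative weight have a factor off the face -/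
lemma off_face (v : Fin r → Fin N → ℕ) (a : Fin N → ℕ) (c : Fin r → ℤ)
    (l : Fin r → ℝ) (hl : ∀ j, 0 ≤ l j) (t : ℝ) (ht : ∑ j, ((c j : ℝ) + l j) = t)
    (hneg : ∑ i, (a i : ℝ) * ∑ j, ((c j : ℝ) + l j) * (v j i : ℝ) < t * gord v a) :
    ∃ j, c j < 0 ∧ ¬ face v a j := by
  by_contra hcon
  push Not at hcon
  have h1 : ∑ i, (a i : ℝ) * ∑ j, ((c j : ℝ) + l j) * (v j i : ℝ) =
      ∑ j, ((c j : ℝ) + l j) * ((∑ i, a i * v j i : ℕ) : ℝ) := by
    simp only [Finset.mul_sum]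
    rw [Finset.sum_comm]
    refine Finset.sum_congr rfl fun j _ => ?_
    push_cast
    rw [Finset.mul_sum]
    exact Finset.sum_congr rfl fun i _ => by ring
  have h2 : t * gord v a ≤ ∑ j, ((c j : ℝ) + l j) * ((∑ i, a i * v j i : ℕ) : ℝ) := by
    rw [← ht, Finset.sum_mul]
    refine Finset.sum_le_sum fun j _ => ?_
    by_cases hj : c j < 0
    · have h3 := hcon j hj
      unfold face at h3
      rw [h3]
    · refine mul_le_mul_of_nonneg_left ?_ ?_
      · have : gord v a ≤ ∑ i, a i * v j i := ciInf_le' _ j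
        exact_mod_cast this
      · have h4 : (0 : ℝ) ≤ (c j : ℝ) := by exact_mod_cast (not_lt.1 hj)
        linarith [hl j]
  rw [h1] at hneg
  linarith

end Pool.Agent.TH216.LX
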