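import Pool.Agent.TH216.LX.Cc1

set_option autoImplicit false

/-! Heights for a circuit, and the root. -/

namespace Pool.Agent.TH216.LX

open MvPolynomial Pool.Agent.W425.SG Pool.Agent.W425.SV Pool.Agent.W425.MM Pool.Agent.W571.MM
open Pool.Agent.H628R4.TZ
open Pool.Agent.W425.SM (dm)
open Pool.Agent.W426.SM (gord face)

variable {r N : ℕ}

lemma basis_of (v : Fin r → Fin N → ℕ) (D : Finset (Fin r)) (hD : D.card = N)
    (hli : LinearIndependent ℚ (fun j : D => (fun i => (v j i : ℚ) : Fin N → ℚ))) :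
    (∀ w : Fin r → ℚ, (∀ j, j ∉ D → w j = 0) → (∀ i, ∑ j, w j * (v j i : ℚ) = 0) →
      ∀ j, w j = 0) ∧
    ∀ x : Fin N → ℚ, ∃ α : Fin r → ℚ, (∀ j, j ∉ D → α j = 0) ∧
      ∀ i, ∑ j, α j * (v j i : ℚ) = x i := by
  classical
  have hsub : ∀ (w : Fin r → ℚ), (∀ j, j ∉ D → w j = 0) → ∀ i,
      ∑ j : D, w j * (v j i : ℚ) = ∑ j, w j * (v j i : ℚ) := by
    intro w hw i
    rw [Finset.sum_coe_sort D (fun j => w j * (v j i : ℚ))]
    refine Finset.sum_subset (Finset.subset_univ D) fun j _ hj => ?_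
    rw [hw j hj, zero_mul]
  constructor
  · intro w hw h0
    have h1 := Fintype.linearIndependent_iff.1 hli (fun j => w j) (by
      funext i
      rw [Finset.sum_apply]
      simp only [Pi.smul_apply, smul_eq_mul, Pi.zero_apply]
      rw [hsub w hw, h0])
    intro j
    by_cases hj : j ∈ D
    · exact h1 ⟨j, hj⟩
    · exact hw j hj
  · intro x
    have hspan : Submodule.span ℚ (Set.range fun j : D => (fun i => (v j i : ℚ) : Fin N → ℚ)) =
        ⊤ := by
      apply Submodule.eq_top_of_finrank_eq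
      rw [finrank_span_eq_card hli]
      simp [hD]
    have hx : x ∈ Submodule.span ℚ
        (Set.range fun j : D => (fun i => (v j i : ℚ) : Fin N → ℚ)) := by
      rw [hspan]
      trivial
    obtain ⟨β, hβ⟩ := (Submodule.mem_span_range_iff_exists_fun ℚ).1 hx
    refine ⟨fun j => if hj : j ∈ D then β ⟨j, hj⟩ else 0, fun j hj => by simp [hj], fun i => ?_⟩
    rw [← hsub _ (fun j hj => by simp [hj])]
    have h2 := congrFun hβ i
    rw [Finset.sum_apply] at h2
    simp only [Pi.smul_apply, smul_eq_mul] at h2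
    rw [← h2]
    refine Finset.sum_congr rfl fun j _ => ?_
    simp

/-- **Heights for a circuit.** -/
theorem heights (v : Fin r → Fin N → ℕ) (D : Finset (Fin r)) (hD : D.card = N)
    (hli : LinearIndependent ℚ (fun j : D => (fun i => (v j i : ℚ) : Fin N → ℚ)))
    (k : Fin r) (hk : k ∉ D) (c : Fin r → ℚ) (hc0 : ∀ j, j ∉ D → j ≠ k → c j = 0)
    (hck : c k < 0) (hc : ∀ i, ∑ j, c j * (v j i : ℚ) = 0) :
    ∃ θ : Fin r → ℝ, LinearIndependent ℚ θ ∧ ∀ c0 : Fin r → ℤ,
      (∀ i, ∑ j, c0 j * (v j i : ℤ) = 0) → 0 < ∑ j, (c0 j : ℝ) * θ j →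
      (∀ j, j ∉ D → j ≠ k → 0 ≤ c0 j) → ∀ j, c j < 0 → c0 j < 0 := by
  classical
  obtain ⟨huni, hex⟩ := basis_of v D hD hli
  choose α hα0 hα using fun l : Fin r => hex fun i => (v l i : ℚ)
  -- relations
  have hrel : ∀ w : Fin r → ℚ, (∀ i, ∑ j, w j * (v j i : ℚ) = 0) → ∀ j ∈ D,
      w j = -∑ l ∈ Dᶜ, w l * α l j := by
    intro w hw j hj
    have h1 := huni (fun j => (if j ∈ D then w j else 0) + ∑ l ∈ Dᶜ, w l * α l j)
      (fun j hj => by
        simp only [if_neg hj, zero_add]
        exact Finset.sum_eq_zero fun l _ => by rw [hα0 l j hj, mul_zero])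
      (fun i => by
        simp only [add_mul, Finset.sum_add_distrib]
        have h2 : ∑ j, (∑ l ∈ Dᶜ, w l * α l j) * (v j i : ℚ) = ∑ l ∈ Dᶜ, w l * (v l i : ℚ) := by
          simp only [Finset.sum_mul]
          rw [Finset.sum_comm]
          refine Finset.sum_congr rfl fun l _ => ?_
          rw [← hα l i, Finset.mul_sum]
          exact Finset.sum_congr rfl fun j _ => by ring
        have h3 : ∑ j, (if j ∈ D then w j else 0) * (v j i : ℚ) = ∑ j ∈ D, w j * (v j i : ℚ) := by
          simp only [ite_mul, zero_mul]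
          rw [Finset.sum_ite_mem, Finset.univ_inter]
        rw [h2, h3, Finset.sum_add_sum_compl, hw]) j
    simp only [if_pos hj] at h1
    linarith
  have hcα : ∀ j ∈ D, c j = -(c k * α k j) := by
    intro j hj
    rw [hrel c hc j hj]
    congr 1
    refine Finset.sum_eq_single k (fun l hl hlk => ?_) fun h => ?_
    · rw [hc0 l (Finset.mem_compl.1 hl) hlk, zero_mul]
    · exact absurd (Finset.mem_compl.2 hk) h
  -- the constants
  set A : ℝ := ∑ l, ∑ j, |(α l j : ℝ)| with hA
  have hA0 : 0 ≤ A := Finset.sum_nonneg fun l _ => Finset.sum_nonneg fun j _ => abs_nonneg _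
  have hAle : ∀ l j, |(α l j : ℝ)| ≤ A := by
    intro l j
    refine (Finset.single_le_sum (f := fun j => |(α l j : ℝ)|) (fun j _ => abs_nonneg _)
      (Finset.mem_univ j)).trans ?_
    exact Finset.single_le_sum (f := fun l => ∑ j, |(α l j : ℝ)|)
      (fun l _ => Finset.sum_nonneg fun j _ => abs_nonneg _) (Finset.mem_univ l)
  set K : ℝ := 1 + ∑ j, A / |(α k j : ℝ)| with hK
  have hK0 : 0 < K := by
    have : 0 ≤ ∑ j, A / |(α k j : ℝ)| := Finset.sum_nonneg fun j _ => by positivity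
    rw [hK]
    linarith
  have hKle : ∀ j, α k j ≠ 0 → A ≤ K * |(α k j : ℝ)| := by
    intro j hj
    have hp : 0 < |(α k j : ℝ)| := abs_pos.2 (by exact_mod_cast hj)
    rw [← div_le_iff₀ hp, hK]
    have := Finset.single_le_sum (f := fun j => A / |(α k j : ℝ)|) (fun j _ => by positivity)
      (Finset.mem_univ j)
    have h2 : A / |(α k j : ℝ)| ≤ ∑ j, A / |(α k j : ℝ)| := this
    linarith
  -- the heights
  obtain ⟨θ0, hθ0⟩ := exists_theta r
  set h0 : Fin r → ℝ := fun l => θ0 l - ∑ j, (α l j : ℝ) * θ0 j with hh0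
  obtain ⟨nk, hnk⟩ := exists_nat_gt (h0 k)
  have hnl : ∀ l, ∃ n : ℕ, h0 l - n ≤ K * (h0 k - nk) := by
    intro l
    obtain ⟨n, hn⟩ := exists_nat_gt (h0 l - K * (h0 k - nk))
    exact ⟨n, by linarith⟩
  choose nl hnl using hnl
  set n : Fin r → ℕ := fun l => if l ∈ D then 0 else if l = k then nk else nl l with hn
  have hθli : LinearIndependent ℚ fun j => θ0 j - (((n j : ℚ)) : ℝ) := li_of hθ0 fun j => (n j : ℚ)
  refine ⟨_, hθli, fun c0 hr0 hpos hnn => ?_⟩
  -- the value
  have hrq : ∀ i, ∑ j, (c0 j : ℚ) * (v j i : ℚ) = 0 := fun i => by exact_mod_cast hr0 i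
  have hD1 : ∀ j ∈ D, (c0 j : ℝ) = -∑ l ∈ Dᶜ, (c0 l : ℝ) * (α l j : ℝ) := by
    intro j hj
    have h1 := hrel (fun j => (c0 j : ℚ)) hrq j hj
    have h2 := congrArg (fun q : ℚ => (q : ℝ)) h1
    push_cast at h2
    exact h2
  have hval : ∑ j, (c0 j : ℝ) * (θ0 j - (((n j : ℚ)) : ℝ)) =
      ∑ l ∈ Dᶜ, (c0 l : ℝ) * (h0 l - (n l : ℝ)) := by
    rw [← Finset.sum_add_sum_compl D]
    have h1 : ∑ j ∈ D, (c0 j : ℝ) * (θ0 j - (((n j : ℚ)) : ℝ)) =
        -∑ l ∈ Dᶜ, (c0 l : ℝ) * ∑ j, (α l j : ℝ) * θ0 j := by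
      have h2 : ∀ j ∈ D, (c0 j : ℝ) * (θ0 j - (((n j : ℚ)) : ℝ)) =
          -∑ l ∈ Dᶜ, (c0 l : ℝ) * ((α l j : ℝ) * θ0 j) := by
        intro j hj
        rw [hD1 j hj]
        have h3 : n j = 0 := by
          rw [hn]
          simp only
          rw [if_pos hj]
        rw [h3]
        simp only [Nat.cast_zero, Rat.cast_zero, sub_zero]
        rw [neg_mul, Finset.sum_mul]
        congr 1
        exact Finset.sum_congr rfl fun l _ => by ring
      rw [Finset.sum_congr rfl h2, Finset.sum_neg_distrib, Finset.sum_comm]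
      congr 1
      refine Finset.sum_congr rfl fun l _ => ?_
      rw [← Finset.mul_sum]
      congr 1
      refine Finset.sum_subset (Finset.subset_univ D) fun j _ hj => ?_
      rw [hα0 l j hj]
      simp
    rw [h1, neg_add_eq_sub, ← Finset.sum_sub_distrib]
    refine Finset.sum_congr rfl fun l _ => ?_
    rw [hh0]
    push_cast
    ring
  rw [hval] at hpos
  have hkc : k ∈ Dᶜ := Finset.mem_compl.2 hk
  set S : ℝ := ∑ l ∈ Dᶜ.erase k, (c0 l : ℝ) with hS
  have hS0 : 0 ≤ S := Finset.sum_nonneg fun l hl => by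
    exact_mod_cast hnn l (Finset.mem_compl.1 (Finset.mem_of_mem_erase hl))
      (Finset.ne_of_mem_erase hl)
  have hnkk : n k = nk := by
    rw [hn]
    simp [hk]
  have hneg : h0 k - (nk : ℝ) < 0 := by linarith
  have h1 : ∑ l ∈ Dᶜ, (c0 l : ℝ) * (h0 l - (n l : ℝ)) ≤
      (h0 k - nk) * ((c0 k : ℝ) + K * S) := by
    rw [← Finset.add_sum_erase _ _ hkc, hnkk]
    have h2 : ∑ l ∈ Dᶜ.erase k, (c0 l : ℝ) * (h0 l - (n l : ℝ)) ≤
        ∑ l ∈ Dᶜ.erase k, (c0 l : ℝ) * (K * (h0 k - nk)) := by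
      refine Finset.sum_le_sum fun l hl => ?_
      have hlD := Finset.mem_compl.1 (Finset.mem_of_mem_erase hl)
      have hlk := Finset.ne_of_mem_erase hl
      have h3 : n l = nl l := by
        rw [hn]
        simp only
        rw [if_neg hlD, if_neg hlk]
      rw [h3]
      exact mul_le_mul_of_nonneg_left (hnl l) (by exact_mod_cast hnn l hlD hlk)
    rw [← Finset.sum_mul] at h2
    have h4 : (h0 k - nk) * ((c0 k : ℝ) + K * S) =
        (c0 k : ℝ) * (h0 k - nk) + S * (K * (h0 k - nk)) := by ring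
    rw [h4]
    linarith
  have h2 : (c0 k : ℝ) + K * S < 0 := by
    by_contra hcon
    push Not at hcon
    have := mul_nonpos_of_nonpos_of_nonneg hneg.le hcon
    linarith
  have hKS : 0 ≤ K * S := mul_nonneg hK0.le hS0
  intro j hj
  by_cases hjk : j = k
  · rw [hjk]
    have : (c0 k : ℝ) < 0 := by linarith
    exact_mod_cast this
  by_cases hjD : j ∈ D
  swap
  · rw [hc0 j hjD hjk] at hj
    exact absurd hj (lt_irrefl 0)
  -- `α k j < 0`
  have h3 : α k j < 0 := by
    rw [hcα j hjD] at hj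
    by_contra hcon
    push Not at hcon
    have := mul_nonpos_of_nonpos_of_nonneg hck.le hcon
    linarith
  have h3' : (α k j : ℝ) < 0 := by exact_mod_cast h3
  have h4 := hD1 j hjD
  rw [← Finset.add_sum_erase _ _ hkc] at h4
  have h5 : -∑ l ∈ Dᶜ.erase k, (c0 l : ℝ) * (α l j : ℝ) ≤ A * S := by
    rw [← Finset.sum_neg_distrib, hS, Finset.mul_sum]
    refine Finset.sum_le_sum fun l hl => ?_
    have h6 : (0 : ℝ) ≤ (c0 l : ℝ) := by
      exact_mod_cast hnn l (Finset.mem_compl.1 (Finset.mem_of_mem_erase hl))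
        (Finset.ne_of_mem_erase hl)
    have h7 := hAle l j
    have h8 := neg_abs_le (α l j : ℝ)
    nlinarith
  have h6 := hKle j h3.ne
  rw [abs_of_neg h3'] at h6
  have h7 : -((c0 k : ℝ) * (α k j : ℝ)) < K * S * (α k j : ℝ) := by
    nlinarith
  have h8 : K * S * (α k j : ℝ) ≤ -(A * S) := by
    have := mul_le_mul_of_nonneg_right h6 hS0
    nlinarith
  have h9 : (c0 j : ℝ) < 0 := by
    rw [h4]
    linarith
  exact_mod_cast h9

/-- **The root of a circuit.** -/
theorem circ_root (v : Fin r → Fin N → ℕ) (a : Fin N → ℕ) (hg : 0 < gord v a)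
    (hC : Circ v a) : ∃ θ : Fin r → ℝ, LinearIndependent ℚ θ ∧
      ∀ p : Polynomial ℂ, RelV v θ True p →
        p.eval (-(((∑ i, a i : ℕ) : ℂ) / gord v a)) = 0 := by
  classical
  obtain ⟨ha, D, k, s, c, hk, hD, hDf, hkf, hli, hs0, hs, hc0, hck, hc, hP, hcount⟩ := hC
  obtain ⟨θ, hθ, hθc⟩ := heights v D hD hli k hk c hc0 hck hc
  refine ⟨θ, hθ, ?_⟩
  rintro p ⟨M, n, n0, ck, B, q, c0, q0, hK1, hK0, hrel⟩
  have hg' : (gord v a : ℚ) ≠ 0 := by exact_mod_cast hg.ne'
  have hsf : ∀ j, s j ≠ 0 → face v a j := fun j hj => by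
    by_contra h
    exact hj (hs0 j fun h' => h (hDf j h'))
  have hcf : ∀ j, c j ≠ 0 → face v a j := fun j hj => by
    by_contra h
    refine hj (hc0 j (fun h' => h (hDf j h')) ?_)
    rintro rfl
    exact h hkf
  have hoff : ∀ j, ¬ face v a j → lin s c (X j) = 0 := fun j hj => by
    refine lin_X0 s c j ?_ ?_
    · by_contra h
      exact hj (hsf j h)
    · by_contra h
      exact hj (hcf j h)
  have hssum : ∑ j, s j = -(((∑ i, a i : ℕ) : ℚ) / gord v a) := by
    have h1 := sum_of_face v a s hsf (-1) hs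
    rw [← neg_div, eq_div_iff hg']
    linarith
  have hcsum : ∑ j, c j = 0 := by
    have h1 := sum_of_face v a c hcf 0 hc
    rw [zero_mul] at h1
    exact (mul_eq_zero.1 h1).resolve_right hg'
  -- the value of `∑ X_j`
  have hsumX : lin s c (∑ j, X j) = Polynomial.C (-(((∑ i, a i : ℕ) : ℂ) / gord v a)) := by
    rw [map_sum]
    simp only [lin_X]
    rw [Finset.sum_add_distrib, ← Finset.sum_mul, ← map_sum, ← map_sum]
    have h1 : ∑ j, (s j : ℂ) = -(((∑ i, a i : ℕ) : ℂ) / gord v a) := by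
      have := congrArg (fun q : ℚ => (q : ℂ)) hssum
      push_cast at this ⊢
      exact this
    have h2 : ∑ j, (c j : ℂ) = 0 := by
      have := congrArg (fun q : ℚ => (q : ℂ)) hcsum
      push_cast at this
      exact this
    rw [h1, h2]
    simp
  -- the product of the `dm`
  choose G hG0 hG using fun j => lin_dm_fac s c M j fun h => hP j h.neg
  set e : ℕ := (Finset.univ.filter fun j => NM M (s j)).card with he
  have hprod : lin s c (∏ j, dm M j) = Polynomial.X ^ e * ∏ j, G j := by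
    rw [map_prod]
    simp only [hG]
    rw [Finset.prod_mul_distrib, Finset.prod_pow_eq_pow_sum, he, Finset.card_filter]
  -- the terms
  have hfac : ∀ (c' : Fin r → ℤ) (j : Fin r), c' j < 0 →
      lin s c (X j * dm M j) ∣ lin s c (∏ j, if c' j < 0 then X j * dm M j else 1) := by
    intro c' j hj
    rw [map_prod]
    refine Dvd.dvd.trans ?_ (Finset.dvd_prod_of_mem _ (Finset.mem_univ j))
    rw [if_pos hj]
  have hoffz : ∀ (c' : Fin r → ℤ) (j : Fin r), c' j < 0 → lin s c (X j) = 0 →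
      lin s c (∏ j, if c' j < 0 then X j * dm M j else 1) = 0 := by
    intro c' j hj h0
    have := hfac c' j hj
    rw [map_mul, h0, zero_mul] at this
    exact zero_dvd_iff.1 this
  have hterm1 : ∀ k', lin s c ((∏ i ∈ B k', el v i) *
      ((∏ j, if ck k' j < 0 then X j * dm M j else 1) * q k')) = 0 := by
    intro k'
    rw [map_mul, map_mul]
    by_cases hB : (B k').Nonempty
    · obtain ⟨i, hi⟩ := hB
      rw [map_prod, Finset.prod_eq_zero hi (lin_el s c v i (hs i) (hc i)), zero_mul]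
    · rw [Finset.not_nonempty_iff_eq_empty] at hB
      obtain ⟨l, hl, hl1, hlB⟩ := hK1 k'
      obtain ⟨j, hj, hjf⟩ := off_face v a (ck k') l hl 1 hl1 (by
        rw [one_mul]
        refine lt_of_le_of_lt (Finset.sum_nonpos fun i _ => ?_)
          (by exact_mod_cast hg : (0 : ℝ) < gord v a)
        exact mul_nonpos_of_nonneg_of_nonpos (by positivity) (hlB i (by rw [hB]; simp)))
      rw [hoffz (ck k') j hj (hoff j hjf)]
      ring
  have hterm0 : ∀ k', Polynomial.X ^ (e + 1) ∣ lin s c ((∏ j, if c0 k' j < 0 then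
      X j * dm M j else 1) * q0 k') := by
    intro k'
    rw [map_mul]
    apply Dvd.dvd.mul_right
    by_cases hex : ∃ j, c0 k' j < 0 ∧ lin s c (X j) = 0
    · obtain ⟨j, hj, h0⟩ := hex
      rw [hoffz (c0 k') j hj h0]
      exact dvd_zero _
    push Not at hex
    rcases hK0 k' with ⟨-, h2, h3⟩ | ⟨-, l, hl, hl1, hl2, i0, hi0⟩
    swap
    · -- the additional terms
      exfalso
      obtain ⟨j, hj, hjf⟩ := off_face v a (c0 k') l hl 0 hl1 (by
        rw [zero_mul]
        refine Finset.sum_neg' (fun i _ => mul_nonpos_of_nonneg_of_nonpos (by positivity) (hl2 i))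
          ⟨i0, Finset.mem_univ i0, ?_⟩
        refine mul_neg_of_pos_of_neg ?_ hi0
        exact_mod_cast Nat.pos_of_ne_zero (ha i0))
      exact hex j hj (hoff j hjf)
    have h4 := hθc (c0 k') h2 h3 fun j hjD hjk => by
      by_contra hcon
      push Not at hcon
      exact hex j hcon (lin_X0 s c j (hs0 j hjD) (hc0 j hjD hjk))
    -- the factors
    set T : Finset (Fin r) := Finset.univ.filter fun j => c j < 0 ∧ (s j = 0 ∨ NM M (s j))
      with hT
    have h5 : Polynomial.X ^ T.card ∣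
        lin s c (∏ j, if c0 k' j < 0 then X j * dm M j else 1) := by
      rw [map_prod]
      refine Dvd.dvd.trans ?_ (Finset.prod_dvd_prod_of_subset T Finset.univ _
        (Finset.subset_univ T))
      rw [← Finset.prod_const]
      refine Finset.prod_dvd_prod_of_dvd _ _ fun j hj => ?_
      obtain ⟨-, hcj, hsj⟩ := Finset.mem_filter.1 hj
      rw [if_pos (h4 j hcj), map_mul]
      rcases hsj with hsj | hsj
      · apply Dvd.dvd.mul_right
        rw [lin_X, hsj]
        simp
      · exact (lin_dm_dvd s c M j hsj).mul_left _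
    refine Dvd.dvd.trans (pow_dvd_pow _ ?_) h5
    -- counting
    have h6 : (Finset.univ.filter fun j => s j = 0 ∧ c j < 0).card +
        (Finset.univ.filter fun j => NM M (s j) ∧ c j < 0).card = T.card := by
      rw [← Finset.card_union_of_disjoint]
      · congr 1
        ext j
        simp only [hT, Finset.mem_union, Finset.mem_filter, Finset.mem_univ, true_and]
        tauto
      · rw [Finset.disjoint_left]
        intro j hj hj'
        exact (Finset.mem_filter.1 hj').2.1.neg.ne (Finset.mem_filter.1 hj).2.1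
    have h7 : e ≤ (Finset.univ.filter fun j => NM M (s j) ∧ c j < 0).card +
        (Finset.univ.filter fun j => NegI (s j) ∧ 0 < c j).card := by
      rw [he]
      refine le_trans (Finset.card_le_card ?_) (Finset.card_union_le _ _)
      intro j hj
      have h8 := (Finset.mem_filter.1 hj).2
      simp only [Finset.mem_union, Finset.mem_filter, Finset.mem_univ, true_and]
      rcases lt_or_gt_of_ne (hP j h8.neg) with h9 | h9
      · exact Or.inl ⟨h8, h9⟩
      · exact Or.inr ⟨h8.neg, h9⟩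
    omega
  -- the conclusion
  have h1 := congrArg (lin s c) hrel
  rw [map_mul, hprod, map_add, map_sum, map_sum, Finset.sum_eq_zero fun k' _ => hterm1 k',
    zero_add, ← Polynomial.aeval_algHom_apply, hsumX] at h1
  have h2 : Polynomial.X ^ (e + 1) ∣ Polynomial.aeval
      (Polynomial.C (-(((∑ i, a i : ℕ) : ℂ) / gord v a))) p *
        (Polynomial.X ^ e * ∏ j, G j) := by
    rw [h1]
    exact Finset.dvd_sum fun k' _ => hterm0 k'
  have h3 : Polynomial.aeval (Polynomial.C (-(((∑ i, a i : ℕ) : ℂ) / gord v a))) p =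
      Polynomial.C (p.eval (-(((∑ i, a i : ℕ) : ℂ) / gord v a))) := by
    have h4 : (Polynomial.C (-(((∑ i, a i : ℕ) : ℂ) / gord v a)) : Polynomial ℂ) =
        (Algebra.ofId ℂ (Polynomial ℂ)) (-(((∑ i, a i : ℕ) : ℂ) / gord v a)) := rfl
    rw [h4, Polynomial.aeval_algHom_apply]
    rfl
  rw [h3, mul_left_comm, pow_succ, mul_dvd_mul_iff_left (pow_ne_zero _ Polynomial.X_ne_zero),
    Polynomial.X_dvd_iff, Polynomial.coeff_zero_eq_eval_zero, Polynomial.eval_mul,
    Polynomial.eval_C, Polynomial.eval_prod] at h2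
  exact (mul_eq_zero.1 h2).resolve_right (Finset.prod_ne_zero_iff.2 fun j _ => hG0 j)

end Pool.Agent.TH216.LX
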