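import Pool.Agent.TH216.LX.Lx1

set_option autoImplicit false

/-! Local zeta functions: the rings, with conditions on the exponents `v j` only. -/

namespace Pool.Agent.TH216.LX

open MvPolynomial Pool.Agent.H628R4.TP Pool.Agent.W425.MM Pool.Agent.W425.GN
open Pool.Agent.W425.ND (spa)
open Pool.Agent.W426.SM (gord IsRay face)
open Pool.Agent.W803.SM (gord_le exists_gord)
open Pool.Agent.W425.BF (B1 BD shf shf_eval shf_ne hz hz_support hz_eq cof spa_add)
open Pool.Agent.W425.SV (NP RelV Kil1)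
open Pool.Agent.TH216.MF
open Pool.Agent.TH216.MC (pos_of_ray)
open Pool.Agent.TH216.ID (YOK hypSY_of recJ_genY fin_W)
open Pool.Agent.W428.MOT (Pt Constr ratRing sp Lu MK)
open Pool.Agent.W375.MG (zetaG Good)

variable {r N : ℕ}

lemma inN_mono {v : Fin r → Fin N → ℕ} {D J : Finset (Fin N)} (h : D ⊆ J) {w : Fin N → ℕ}
    (hw : InN v D w) : InN v J w := by
  obtain ⟨l, h1, h2, h3, h4⟩ := hw
  exact ⟨l, h1, h2, h3, fun i hi => h4 i fun h' => hi (h h')⟩

lemma inN_self (v : Fin r → Fin N → ℕ) (J : Finset (Fin N)) (j : Fin r) : InN v J (v j) := by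
  classical
  refine ⟨fun j' => if j' = j then 1 else 0, fun j' => ?_, ?_, fun i => ?_, fun i _ => ?_⟩
  · dsimp only
    split_ifs <;> norm_num
  · simp
  · simp
  · simp

lemma inN_np {v : Fin r → Fin N → ℕ} {D : Finset (Fin N)} {w : Fin N →₀ ℕ}
    (hw : InN v D (fun i => w i)) : NP v w := by
  obtain ⟨l, h1, h2, h3, -⟩ := hw
  exact ⟨l, h1, h2, h3⟩

lemma np_inN {v : Fin r → Fin N → ℕ} {w : Fin N →₀ ℕ} (hw : NP v w) :
    InN v Finset.univ (fun i => w i) := by
  obtain ⟨l, h1, h2, h3⟩ := hw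
  exact ⟨l, h1, h2, h3, fun i hi => absurd (Finset.mem_univ i) hi⟩

/-- At every `v j1` the facets at the level `σ` which contain `v j1` are simplices or B1-facets in
a common direction, or they are simplices or B1-facets in directions in `Y`. -/
def LocL (v : Fin r → Fin N → ℕ) (Y : Finset (Fin N)) (σ : ℚ) : Prop :=
  ∀ j1 : Fin r, (∃ i, ∀ a : Fin N → ℕ, IsRay v a → 0 < gord v a → face v a j1 →
    ((∑ x, a x : ℕ) : ℚ) / gord v a = σ → SimR v a ∨ B1 v i a) ∨
    ∀ a : Fin N → ℕ, IsRay v a → 0 < gord v a → face v a j1 →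
    ((∑ x, a x : ℕ) : ℚ) / gord v a = σ → SimR v a ∨ ∃ i ∈ Y, B1 v i a

lemma hypSY_of_locL (hr : 0 < r) (v : Fin r → Fin N → ℕ) (Y : Finset (Fin N)) (σ : ℚ)
    (hL : LocL v Y σ) : Pool.Agent.TH216.ID.HypSY v Y (σ : ℝ) := by
  have hc : ∀ a : Fin N → ℕ, ((∑ i, a i : ℕ) : ℝ) / gord v a = (σ : ℝ) →
      ((∑ x, a x : ℕ) : ℚ) / gord v a = σ := by
    intro a hs
    apply Rat.cast_injective (α := ℝ)
    push_cast
    push_cast at hs
    exact hs
  refine hypSY_of hr v Y σ fun j1 => ?_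
  rcases hL j1 with ⟨i, hi⟩ | hi
  · exact Or.inl ⟨i, fun a ha hg hf hs => hi a ha hg hf (hc a hs)⟩
  · exact Or.inr fun a ha hg hf hs => hi a ha hg hf (hc a hs)

/-- the recurrences at the bad levels -/
theorem hb_LX (hr : 0 < r) {F : Type} [Field F] (D : Finset (Fin N)) (v : Fin r → Fin N → ℕ)
    (Y : Finset (Fin N)) (hv : Function.Injective v) (h : MvPolynomial (Fin N) F)
    (hh : ∀ w ∈ h.support, InN v D (fun i => w i)) (hY : YOK v Y)
    (hvh : ∀ w ∈ h.support, ∀ j, ¬ ∀ x, w x = v j x) (P : ℚ → Prop)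
    (hP : ∀ α, ¬ P α → ∃ (θ : Fin r → ℤ) (p : Polynomial ℂ),
      RelG v (Kil1 v) (KilU v θ) p ∧ p.eval (α : ℂ) ≠ 0)
    (J : Finset (Fin N)) (hJ : D ⊆ J) (q : ℕ) (hq : 2 ≤ q)
    (e : Finset (Fin (r + h.support.card)) → ℂ)
    (he : KRelJ q (Fin.append v (we h)) J e) (T0 : ℂ) (hT0 : T0 ≠ 0) (σ : ℚ)
    (hσ : LocL v Y σ ∧ ¬ P (-σ)) (hlog : Real.log ‖T0‖ / Real.log q = (σ : ℝ)) :
    RecJ q (Fin.append v (we h)) e J T0 := by
  classical
  have hminj : Function.Injective (Fin.append v (we h)) := by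
    intro j j'
    refine Fin.addCases (fun j => ?_) (fun l => ?_) j <;>
      refine Fin.addCases (fun j' => ?_) (fun l' => ?_) j'
    · rw [Fin.append_left, Fin.append_left]
      intro h3
      rw [hv h3]
    · rw [Fin.append_left, Fin.append_right]
      intro h3
      exact absurd (fun x => (congrFun h3 x).symm)
        (hvh _ (h.support.equivFin.symm l').2 j)
    · rw [Fin.append_left, Fin.append_right]
      intro h3
      exact absurd (fun x => congrFun h3 x) (hvh _ (h.support.equivFin.symm l).2 j')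
    · rw [Fin.append_right, Fin.append_right]
      intro h3
      have h4 : (h.support.equivFin.symm l) = (h.support.equivFin.symm l') :=
        Subtype.ext (Finsupp.ext fun x => congrFun h3 x)
      rw [h.support.equivFin.symm.injective h4]
  have hma : ∀ j', ∃ j, Fin.append v (we h) j = v j' := fun j' =>
    ⟨Fin.castAdd _ j', by rw [Fin.append_left]⟩
  have hmb : ∀ j, InN v J (Fin.append v (we h) j) := by
    intro j
    refine Fin.addCases (fun j => ?_) (fun l => ?_) j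
    · rw [Fin.append_left]
      exact inN_self v J j
    · rw [Fin.append_right]
      exact inN_mono hJ (hh _ (h.support.equivFin.symm l).2)
  obtain ⟨hL, hPσ⟩ := hσ
  obtain ⟨θ, p, hrel, hp⟩ := hP _ hPσ
  have he' := krelJ_phi (Fin.append v (we h)) v hminj hma q J e he
  have h1 : ((-Real.log ‖T0‖ / Real.log q : ℝ) : ℂ) = ((-σ : ℚ) : ℂ) := by
    rw [neg_div, hlog]
    push_cast
    rfl
  obtain ⟨Q, hQ, hrec⟩ := recJ_genY q hq v Y hY p θ hrel J _ he' T0 hT0
    (by rw [h1]; exact hp) (by rw [hlog]; exact hypSY_of_locL hr v Y σ hL)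
  refine ⟨Q, hQ, ?_⟩
  filter_upwards [hrec] with t ht
  rw [← ht]
  refine Finset.sum_congr rfl fun m _ => ?_
  rw [aJ_phiN (Fin.append v (we h)) v J (by omega) hr hma hmb]

/-- the rings, for all the coefficients -/
theorem baseLX (hr : 0 < r) {F : Type} [Field F] (D : Finset (Fin N)) (v : Fin r → Fin N → ℕ)
    (Y : Finset (Fin N)) (hv : Function.Injective v) (h : MvPolynomial (Fin N) F)
    (hh : ∀ w ∈ h.support, InN v D (fun i => w i)) (hY : YOK v Y)
    (hvh : ∀ w ∈ h.support, ∀ j, ¬ ∀ x, w x = v j x) (P : ℚ → Prop)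
    (hP : ∀ α, ¬ P α → ∃ (θ : Fin r → ℤ) (p : Polynomial ℂ),
      RelG v (Kil1 v) (KilU v θ) p ∧ p.eval (α : ℂ) ≠ 0) :
    ∃ S : Finset (ℤ × ℤ),
      (∀ p ∈ S, ∃ a : Fin N → ℕ, IsRay v a ∧ 0 < gord v a ∧
        (LocL v Y (((∑ i, a i : ℕ) : ℚ) / gord v a) →
          P (-(((∑ i, a i : ℕ) : ℚ) / gord v a))) ∧
        p = (-((∑ i, a i : ℕ) : ℤ), (gord v a : ℤ))) ∧
      ∀ (k : Type) [Field k] [Algebra F k] [Algebra k ℂ] (c : Fin r → k), (∀ j, c j ≠ 0) →
        NonD (Fin.append v (we h)) (fun j => algebraMap k ℂ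
          (Fin.append c (fun l => algebraMap F k (wc h l)) j)) →
        ∀ (K : Type) [Field K] [Algebra k K] (W : Set (Pt K (Fin N)))
          (E : Set (AlgebraicClosure K)), Constr W → Good E →
          (∀ z ∈ W, ∀ i ∈ D, z i = 0) →
          zetaG (spa v (fun j => algebraMap k K (c j)) +
            MvPolynomial.map ((algebraMap k K).comp (algebraMap F k)) h) W E *
            (1 - PowerSeries.C (((Lu K)⁻¹ : (MK K)ˣ) : MK K) * PowerSeries.X) ∈
              ratRing K S := by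
  classical
  have hray := pRAY v (we h) hr (we_np v h fun w hw => inN_np (hh w hw))
  obtain ⟨S, hS, hz1⟩ := fin_W (Fin.append v (we h)) (by omega)
    (fun σ => LocL v Y σ ∧ ¬ P (-σ)) D
    (fun J hJ q hq e he T0 hT0 σ hσ hlog => hb_LX hr D v Y hv h hh hY hvh P hP J hJ q hq e he T0
      hT0 σ hσ hlog)
  refine ⟨S, fun p hp => ?_, fun k _ _ _ c hc hnk K _ _ W E hW hE hWD => ?_⟩
  · obtain ⟨a, ha, hg, hn, h1⟩ := hS p hp
    obtain ⟨hga, hra⟩ := hray a
    rw [hga] at hg hn h1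
    refine ⟨a, hra ha, hg, fun hL => ?_, h1⟩
    by_contra hcon
    exact hn ⟨hL, hcon⟩
  · have hK : CharZero K := by
      have hkc : CharZero k := RingHom.charZero (algebraMap k ℂ)
      exact charZero_of_injective_algebraMap (algebraMap k K).injective
    rw [sp_eq]
    refine hz1 K _ (nonG_of_nonD _ _ ?_) (fun j => ?_) W E hW hE hWD
    · have h4 := nonD_ext (k := k) (L := AlgebraicClosure K) _ _ hnk
      have h5 : (fun j => algebraMap K (AlgebraicClosure K)
          (Fin.append (fun j => algebraMap k K (c j))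
            (fun l => (algebraMap k K).comp (algebraMap F k) (wc h l)) j)) =
          fun j => algebraMap k (AlgebraicClosure K)
            (Fin.append c (fun l => algebraMap F k (wc h l)) j) := by
        rw [append_map, append_map]
        congr 1
      rw [h5]
      exact h4
    · refine Fin.addCases (fun j => ?_) (fun l => ?_) j
      · rw [Fin.append_left]
        exact (map_ne_zero _).2 (hc j)
      · rw [Fin.append_right]
        exact (map_ne_zero _).2 (mem_support_iff.1 (h.support.equivFin.symm l).2)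

/-- the relation at `α`, for the `v j` only -/
theorem relLX [NeZero r] {F : Type} [Field F] (v : Fin r → Fin N → ℕ)
    (hv : Function.Injective v) (hv0 : ∀ j, v j ≠ 0) (h : MvPolynomial (Fin N) F)
    (hh : ∀ w ∈ h.support, NP v w) (α : ℚ) (hn : ¬ HPL v h α 0) :
    ∃ (θ : Fin r → ℤ) (p : Polynomial ℂ),
      RelG v (Kil1 v) (KilU v θ) p ∧ p.eval (α : ℂ) ≠ 0 := by
  unfold HPL at hn
  push Not at hn
  obtain ⟨F', _, _, a, h', ha, hs, b', hb', hnd⟩ := hn
  have hb0 : b' ≠ 0 := fun h => hnd (h ▸ dvd_zero _)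
  have hJ := (feqL_iff _ b').2 hb'
  obtain ⟨θ, hθ⟩ := Pool.Agent.W422.GC.exists_heights r
  obtain ⟨p, q, hbp, hp⟩ := Pool.Agent.W422.GC.rel_of_unit True _ unit_cond v a hv hv0 ha h'
    (fun w hw => hh w (hs w hw)) θ hθ b' hb0 hJ
  have hp0 : p ≠ 0 := by
    rintro rfl
    apply hb0
    rw [hbp]
    simp
  obtain ⟨θ1, h1⟩ := relG_of_relV v θ True p hp
  refine ⟨θ1, p, h1, Pool.Agent.TH216.MC.eval_ne_of_mult hp0 _ ?_⟩
  have h1 : (Polynomial.X + 1) * p ∣ b' := ⟨q, hbp⟩
  have h2 := Polynomial.rootMultiplicity_le_rootMultiplicity_of_dvd hb0 h1 (α : ℂ)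
  refine h2.trans ?_
  by_contra hcon
  push Not at hcon
  exact hnd ((Polynomial.le_rootMultiplicity_iff hb0).1 hcon)

/-- the relation at `α`, for ideals -/
theorem relIX [NeZero r] {F : Type} [Field F] (v : Fin r → Fin N → ℕ)
    (hv : Function.Injective v) (hv0 : ∀ j, v j ≠ 0) (h : MvPolynomial (Fin N) F)
    (hh : ∀ w ∈ h.support, NP v w) (α : ℚ) (hn : ¬ Pool.Agent.TH216.ID.PI v h α) :
    ∃ (θ : Fin r → ℤ) (p : Polynomial ℂ),
      RelG v (Kil1 v) (KilU v θ) p ∧ p.eval (α : ℂ) ≠ 0 := by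
  unfold Pool.Agent.TH216.ID.PI HPL at hn
  push Not at hn
  obtain ⟨F', _, _, a, h', ha, hs, b', hb', hnd⟩ := hn
  have hb0 : b' ≠ 0 := fun h => hnd (h ▸ dvd_zero _)
  have hJ := (feqL_iff _ b').2 hb'
  obtain ⟨θ, hθ⟩ := Pool.Agent.W422.GC.exists_heights r
  obtain ⟨p, q, hbp, hp⟩ := Pool.Agent.W422.GC.rel_of_unit True _ unit_cond v a hv hv0 ha h'
    (fun w hw => hh w (hs w hw)) θ hθ b' hb0 hJ
  have hp0 : p ≠ 0 := by
    rintro rfl
    apply hb0
    rw [hbp]
    simp
  obtain ⟨θ1, h1⟩ := relG_of_relV v θ True p hp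
  refine ⟨θ1, p, h1, Pool.Agent.TH216.ID.eval_ne_of_mult' hp0 _ ?_⟩
  have h1 : (Polynomial.X + 1) * p ∣ b' := ⟨q, hbp⟩
  have h2 := Polynomial.rootMultiplicity_le_rootMultiplicity_of_dvd hb0 h1 (α : ℂ)
  refine h2.trans ?_
  by_contra hcon
  push Not at hcon
  exact hnd ((Polynomial.le_rootMultiplicity_iff hb0).1 hcon)

end Pool.Agent.TH216.LX
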