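import Pool.Agent.TH216.LX.N1

set_option autoImplicit false

/-! At most three variables: facets with two coordinates. -/

namespace Pool.Agent.TH216.LX

open Pool.Agent.W425.MM
open Pool.Agent.W426.SM (gord face)
open Pool.Agent.TH216.MF (SimR)

variable {r N : ℕ}

/-- the height -/
noncomputable def zz (a : Fin N → ℕ) (x : Fin N → ℚ) : ℚ := ∑ i, if a i = 0 then x i else 0

section
variable (v : Fin r → Fin N → ℕ) (a : Fin N → ℕ) (hV : Vert v) (hg : 0 < gord v a)
  (i1 i2 : Fin N) (h12 : i1 ≠ i2) (hU : ∀ i, a i ≠ 0 ↔ i = i1 ∨ i = i2)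
  (hC : ∀ x y : Fin N → ℚ, zz a x ≤ zz a y → ∀ i, a i = 0 → x i ≤ y i)
include hV hg h12 hU hC

omit hV hg hC in
lemma sum2 (f : Fin N → ℚ) : ∑ i, (a i : ℚ) * f i = a i1 * f i1 + a i2 * f i2 := by
  classical
  rw [← Finset.sum_subset (Finset.subset_univ {i1, i2}), Finset.sum_pair h12]
  intro i _ hi
  have : a i = 0 := by
    by_contra h
    apply hi
    simpa using (hU i).1 h
  rw [this, Nat.cast_zero, zero_mul]

omit hV hg hC in
lemma face2 (j : Fin r) (hj : face v a j) :
    (a i1 : ℚ) * v j i1 + (a i2 : ℚ) * v j i2 = gord v a := by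
  have h1 := sum2 a i1 i2 h12 hU fun i => (v j i : ℚ)
  rw [← h1]
  unfold face at hj
  exact_mod_cast hj

omit hV hg h12 hC in
lemma pos1 : (0 : ℚ) < a i1 := by
  exact_mod_cast Nat.pos_of_ne_zero ((hU i1).2 (Or.inl rfl))

omit hV hg h12 hC in
lemma pos2 : (0 : ℚ) < a i2 := by
  exact_mod_cast Nat.pos_of_ne_zero ((hU i2).2 (Or.inr rfl))

omit hg in
/-- different first coordinates -/
lemma f1 (j k : Fin r) (hj : face v a j) (hk : face v a k) (h : v j i1 = v k i1) : j = k := by
  by_contra hne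
  have h1 := face2 v a i1 i2 h12 hU j hj
  have h2 := face2 v a i1 i2 h12 hU k hk
  have p2 := pos2 a i1 i2 hU
  have h3 : v j i2 = v k i2 := by
    rw [h, ← h2] at h1
    have h4 : (a i2 : ℚ) * v j i2 = a i2 * v k i2 := by linarith
    exact_mod_cast mul_left_cancel₀ p2.ne' h4
  have key : ∀ j k : Fin r, j ≠ k → v j i1 = v k i1 → v j i2 = v k i2 →
      zz a (fun i => (v j i : ℚ)) ≤ zz a (fun i => (v k i : ℚ)) → False := by
    intro j k hjk h1 h2 h3
    refine vert2 hV (Ne.symm hjk) fun i => ?_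
    by_cases hi : a i = 0
    · have := hC _ _ h3 i hi
      exact_mod_cast this
    · rcases (hU i).1 hi with rfl | rfl
      · exact h1.le
      · exact h2.le
  rcases le_total (zz a (fun i => (v j i : ℚ))) (zz a (fun i => (v k i : ℚ))) with h4 | h4
  · exact key j k hne h h3 h4
  · exact key k j (Ne.symm hne) h.symm h3.symm h4

omit hg in
/-- strict convexity -/
lemma f2 (j k l : Fin r) (hj : face v a j) (hk : face v a k) (hl : face v a l)
    (hjk : v j i1 < v k i1) (hkl : v k i1 < v l i1) :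
    ((v l i1 : ℚ) - v j i1) * zz a (fun i => (v k i : ℚ)) <
      ((v l i1 : ℚ) - v k i1) * zz a (fun i => (v j i : ℚ)) +
        ((v k i1 : ℚ) - v j i1) * zz a (fun i => (v l i : ℚ)) := by
  by_contra hcon
  push Not at hcon
  have e1 : (v j i1 : ℚ) < v k i1 := by exact_mod_cast hjk
  have e2 : (v k i1 : ℚ) < v l i1 := by exact_mod_cast hkl
  have hd : (0 : ℚ) < (v l i1 : ℚ) - v j i1 := by linarith
  have hkj : k ≠ j := by
    rintro rfl
    exact lt_irrefl _ hjk
  have hkl' : k ≠ l := by
    rintro rfl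
    exact lt_irrefl _ hkl
  set d : ℚ := (v l i1 : ℚ) - v j i1 with hdd
  refine vert3 hV hkj hkl' (((v l i1 : ℚ) - v k i1) / d) (((v k i1 : ℚ) - v j i1) / d)
    (div_nonneg (by linarith) hd.le) (div_nonneg (by linarith) hd.le) ?_ fun i => ?_
  · rw [← add_div, div_eq_one_iff_eq hd.ne']
    rw [hdd]
    ring
  · have hlin : ∀ f : Fin r → ℚ, ((v l i1 : ℚ) - v k i1) * f j + ((v k i1 : ℚ) - v j i1) * f l ≤
        d * f k → ((v l i1 : ℚ) - v k i1) / d * f j + ((v k i1 : ℚ) - v j i1) / d * f l ≤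
          f k := by
      intro f hf
      rw [div_mul_eq_mul_div, div_mul_eq_mul_div, ← add_div, div_le_iff₀ hd]
      linarith
    by_cases hi : a i = 0
    · have h3 : zz a (fun i => ((v l i1 : ℚ) - v k i1) / d * v j i +
          ((v k i1 : ℚ) - v j i1) / d * v l i) ≤ zz a (fun i => (v k i : ℚ)) := by
        have h4 : zz a (fun i => ((v l i1 : ℚ) - v k i1) / d * v j i +
            ((v k i1 : ℚ) - v j i1) / d * v l i) =
            ((v l i1 : ℚ) - v k i1) / d * zz a (fun i => (v j i : ℚ)) +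
              ((v k i1 : ℚ) - v j i1) / d * zz a (fun i => (v l i : ℚ)) := by
          unfold zz
          rw [Finset.mul_sum, Finset.mul_sum, ← Finset.sum_add_distrib]
          refine Finset.sum_congr rfl fun i _ => ?_
          split_ifs <;> ring
        rw [h4]
        exact hlin (fun j => zz a (fun i => (v j i : ℚ))) hcon
      exact hC _ _ h3 i hi
    · have h1 := face2 v a i1 i2 h12 hU j hj
      have h2 := face2 v a i1 i2 h12 hU k hk
      have h3 := face2 v a i1 i2 h12 hU l hl
      have p2 := pos2 a i1 i2 hU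
      rcases (hU i).1 hi with rfl | rfl
      · refine hlin (fun j => (v j i : ℚ)) ?_
        show ((v l i : ℚ) - v k i) * v j i + ((v k i : ℚ) - v j i) * v l i ≤ d * v k i
        rw [hdd]
        exact le_of_eq (by ring)
      · refine hlin (fun j => (v j i : ℚ)) ?_
        show ((v l i1 : ℚ) - v k i1) * v j i + ((v k i1 : ℚ) - v j i1) * v l i ≤ d * v k i
        have h4 : (a i : ℚ) * (((v l i1 : ℚ) - v k i1) * v j i +
            ((v k i1 : ℚ) - v j i1) * v l i) = (a i : ℚ) * (d * v k i) := by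
          rw [hdd]
          linear_combination ((v l i1 : ℚ) - v k i1) * h1 + ((v k i1 : ℚ) - v j i1) * h3 -
            ((v l i1 : ℚ) - v j i1) * h2
        exact (mul_left_cancel₀ p2.ne' h4).le

/-- the next vertex -/
lemma next (p : Fin r) (hp : face v a p) (hex : ∃ t, face v a t ∧ v t i1 < v p i1) :
    ∃ q, face v a q ∧ v q i1 < v p i1 ∧ ∀ l, face v a l →
      (zz a (fun i => (v q i : ℚ)) - zz a (fun i => (v p i : ℚ))) * ((v p i1 : ℚ) - v l i1) ≤
        (zz a (fun i => (v l i : ℚ)) - zz a (fun i => (v p i : ℚ))) *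
          ((v p i1 : ℚ) - v q i1) := by
  classical
  obtain ⟨t, ht, htp⟩ := hex
  obtain ⟨q, hq, hmin⟩ := (Finset.univ.filter fun j => face v a j ∧ v j i1 < v p i1).exists_min_image
    (fun j => (zz a (fun i => (v j i : ℚ)) - zz a (fun i => (v p i : ℚ))) /
      ((v p i1 : ℚ) - v j i1)) ⟨t, Finset.mem_filter.2 ⟨Finset.mem_univ _, ht, htp⟩⟩
  obtain ⟨-, hqf, hqp⟩ := Finset.mem_filter.1 hq
  have hqp' : (v q i1 : ℚ) < v p i1 := by exact_mod_cast hqp
  refine ⟨q, hqf, hqp, fun l hl => ?_⟩
  rcases lt_trichotomy (v l i1) (v p i1) with h | h | h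
  · have h1 := hmin l (Finset.mem_filter.2 ⟨Finset.mem_univ _, hl, h⟩)
    have hl' : (v l i1 : ℚ) < v p i1 := by exact_mod_cast h
    rw [div_le_div_iff₀ (by linarith) (by linarith)] at h1
    exact h1
  · have := f1 v a hV i1 i2 h12 hU hC l p hl hp h
    rw [this]
    simp
  · have h1 := f2 v a hV i1 i2 h12 hU hC q p l hqf hp hl hqp h
    nlinarith

/-- an edge of the lower hull is not B1 -/
lemma edge (p q : Fin r) (hp : face v a p) (hq : face v a q) (hqp : v q i1 < v p i1)
    (hlow : ∀ l, face v a l →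
      (zz a (fun i => (v q i : ℚ)) - zz a (fun i => (v p i : ℚ))) * ((v p i1 : ℚ) - v l i1) ≤
        (zz a (fun i => (v l i : ℚ)) - zz a (fun i => (v p i : ℚ))) *
          ((v p i1 : ℚ) - v q i1))
    (h1 : ¬ (v p i1 = 1 ∧ v q i1 = 0)) (h2 : ¬ (v p i2 = 0 ∧ v q i2 = 1)) :
    NonB v True a := by
  classical
  have hpq : p ≠ q := by
    rintro rfl
    exact lt_irrefl _ hqp
  have hqp' : (v q i1 : ℚ) < v p i1 := by exact_mod_cast hqp
  have e1 := face2 v a i1 i2 h12 hU p hp
  have e2 := face2 v a i1 i2 h12 hU q hq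
  have p1 := pos1 a i1 i2 hU
  have p2 := pos2 a i1 i2 hU
  have hg' : (0 : ℚ) < gord v a := by exact_mod_cast hg
  have hsum : ∀ (w : Fin r → ℚ), (∀ j, j ∉ ({p, q} : Finset (Fin r)) → w j = 0) →
      ∀ f : Fin r → ℚ, ∑ j, w j * f j = w p * f p + w q * f q := by
    intro w hw f
    rw [← Finset.sum_subset (Finset.subset_univ {p, q}), Finset.sum_pair hpq]
    intro j _ hj
    rw [hw j hj, zero_mul]
  refine nonB_of v a {p, q} ?_ (fun j hj => ?_) (fun w hw h => ?_) (fun i hi => ?_)
    (fun l hl c hc h => ?_)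
  · rw [Finset.card_pair hpq]
    have : (Finset.univ.filter fun i => a i ≠ 0) = {i1, i2} := by
      ext i
      simp [hU]
    rw [this, Finset.card_pair h12]
  · rcases Finset.mem_insert.1 hj with rfl | hj
    · exact hp
    · rw [Finset.mem_singleton.1 hj]
      exact hq
  · have h3 := h i1 ((hU i1).2 (Or.inl rfl))
    have h4 := h i2 ((hU i2).2 (Or.inr rfl))
    rw [hsum w hw] at h3 h4
    have h5 : (w p + w q) * gord v a = 0 := by
      linear_combination (a i1 : ℚ) * h3 + (a i2 : ℚ) * h4 - w p * e1 - w q * e2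
    have h6 : w q = - w p := by
      have := (mul_eq_zero.1 h5).resolve_right hg'.ne'
      linarith
    rw [h6] at h3
    have h7 : w p * ((v p i1 : ℚ) - v q i1) = 0 := by linarith
    have h8 := (mul_eq_zero.1 h7).resolve_right (by linarith)
    intro j
    by_cases hj : j ∈ ({p, q} : Finset (Fin r))
    · rcases Finset.mem_insert.1 hj with rfl | hj
      · exact h8
      · rw [Finset.mem_singleton.1 hj, h6, h8, neg_zero]
    · exact hw j hj
  · rintro ⟨j0, hj0, hv1, hu⟩
    have hqpi : ∀ i, (i = i1 → ¬ (v q i = 1 ∧ v p i = 0)) := by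
      rintro i rfl ⟨h3, h4⟩
      omega
    rcases (hU i).1 hi with rfl | rfl
    · rcases Finset.mem_insert.1 hj0 with rfl | hj0
      · exact h1 ⟨hv1, hu q (by simp) (Ne.symm hpq)⟩
      · rw [Finset.mem_singleton.1 hj0] at hv1 hu
        have := hu p (by simp) hpq
        omega
    · rcases Finset.mem_insert.1 hj0 with rfl | hj0
      · have h3 := hu q (by simp) (Ne.symm hpq)
        rw [hv1] at e1
        rw [h3] at e2
        push_cast at e1 e2
        nlinarith
      · rw [Finset.mem_singleton.1 hj0] at hv1 hu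
        exact h2 ⟨hu p (by simp) hpq, hv1⟩
  · have h3 := h i1 ((hU i1).2 (Or.inl rfl))
    have h4 := h i2 ((hU i2).2 (Or.inr rfl))
    rw [hsum c hc] at h3 h4
    have e3 := face2 v a i1 i2 h12 hU l hl
    have h5 : (c p + c q - 1) * gord v a = 0 := by
      linear_combination (a i1 : ℚ) * h3 + (a i2 : ℚ) * h4 - c p * e1 - c q * e2 + e3
    have h6 : c q = 1 - c p := by
      have := (mul_eq_zero.1 h5).resolve_right hg'.ne'
      linarith
    rw [hsum c hc (fun j => ∑ i, (if a i = 0 then (v j i : ℚ) else 0))]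
    have h7 := hlow l hl
    change c p * zz a (fun i => (v p i : ℚ)) + c q * zz a (fun i => (v q i : ℚ)) ≤
      zz a (fun i => (v l i : ℚ))
    rw [h6] at h3 ⊢
    have hx : (v p i1 : ℚ) - v l i1 = (1 - c p) * ((v p i1 : ℚ) - v q i1) := by
      linear_combination h3
    rw [hx] at h7
    have hd : (0 : ℚ) < (v p i1 : ℚ) - v q i1 := by linarith
    have h8 : ((zz a (fun i => (v q i : ℚ)) - zz a (fun i => (v p i : ℚ))) * (1 - c p)) *
        ((v p i1 : ℚ) - v q i1) ≤ (zz a (fun i => (v l i : ℚ)) -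
          zz a (fun i => (v p i : ℚ))) * ((v p i1 : ℚ) - v q i1) := by
      linarith
    have h9 := le_of_mul_le_mul_right h8 hd
    linarith

/-- **Facets with two coordinates.** -/
theorem case2 : ∑ i, a i = gord v a ∨ NonB v True a ∨ SimR v a := by
  classical
  by_cases h3 : ∃ j k l, face v a j ∧ face v a k ∧ face v a l ∧ j ≠ k ∧ j ≠ l ∧ k ≠ l
  · obtain ⟨j, k, l, hj, hk, hl, hjk, hjl, hkl⟩ := h3
    by_cases hN : NonB v True a
    · exact Or.inr (Or.inl hN)
    left
    -- the largest first coordinate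
    obtain ⟨p0, hp0, hmax⟩ := (Finset.univ.filter fun j => face v a j).exists_max_image
      (fun j => v j i1) ⟨j, Finset.mem_filter.2 ⟨Finset.mem_univ _, hj⟩⟩
    have hp0f := (Finset.mem_filter.1 hp0).2
    have hlt : ∀ t, face v a t → t ≠ p0 → v t i1 < v p0 i1 := by
      intro t ht hne
      refine lt_of_le_of_ne (hmax t (Finset.mem_filter.2 ⟨Finset.mem_univ _, ht⟩)) fun h => ?_
      exact hne (f1 v a hV i1 i2 h12 hU hC t p0 ht hp0f h)
    -- two other points
    obtain ⟨t1, t2, ht1, ht2, h10, h20, ht12⟩ : ∃ t1 t2, face v a t1 ∧ face v a t2 ∧ t1 ≠ p0 ∧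
        t2 ≠ p0 ∧ t1 ≠ t2 := by
      by_cases h1 : j = p0
      · exact ⟨k, l, hk, hl, fun h => hjk (h1.trans h.symm), fun h => hjl (h1.trans h.symm), hkl⟩
      · by_cases h2 : k = p0
        · exact ⟨j, l, hj, hl, h1, fun h => hkl (h2.trans h.symm), hjl⟩
        · exact ⟨j, k, hj, hk, h1, h2, hjk⟩
    obtain ⟨q0, hq0f, hq0, hlow0⟩ := next v a hV hg i1 i2 h12 hU hC p0 hp0f
      ⟨t1, ht1, hlt t1 ht1 h10⟩
    -- `q0` is not the smallest
    have hbelow : ∃ t, face v a t ∧ v t i1 < v q0 i1 := by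
      obtain ⟨t, ht, htp, htq⟩ : ∃ t, face v a t ∧ t ≠ p0 ∧ t ≠ q0 := by
        by_cases h1 : t1 = q0
        · exact ⟨t2, ht2, h20, fun h => ht12 (h1.trans h.symm)⟩
        · exact ⟨t1, ht1, h10, h1⟩
      refine ⟨t, ht, ?_⟩
      rcases lt_trichotomy (v t i1) (v q0 i1) with h | h | h
      · exact h
      · exact absurd (f1 v a hV i1 i2 h12 hU hC t q0 ht hq0f h) htq
      · exfalso
        have h1 := f2 v a hV i1 i2 h12 hU hC q0 t p0 hq0f ht hp0f h (hlt t ht htp)
        have h2 := hlow0 t ht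
        nlinarith
    obtain ⟨q1, hq1f, hq1, hlow1⟩ := next v a hV hg i1 i2 h12 hU hC q0 hq0f hbelow
    have e0 := edge v a hV hg i1 i2 h12 hU hC p0 q0 hp0f hq0f hq0 hlow0
    have e1 := edge v a hV hg i1 i2 h12 hU hC q0 q1 hq0f hq1f hq1 hlow1
    have g0 : v q0 i2 = 1 := by
      by_contra hcon
      refine hN (e0 ?_ fun h => hcon h.2)
      rintro ⟨-, h⟩
      omega
    have g1 : v q0 i1 = 1 := by
      by_contra hcon
      refine hN (e1 (fun h => hcon h.1) ?_)
      rintro ⟨h, -⟩
      omega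
    have h4 := face2 v a i1 i2 h12 hU q0 hq0f
    have h5 := sum2 a i1 i2 h12 hU fun _ => 1
    simp only [mul_one] at h5
    rw [g0, g1] at h4
    push_cast at h4
    have h6 : ((∑ i, a i : ℕ) : ℚ) = gord v a := by
      push_cast
      linarith
    exact_mod_cast h6
  · right
    right
    intro w hw1 hw2
    push Not at h3
    by_contra hcon
    push Not at hcon
    obtain ⟨j, hj⟩ := hcon
    have hjf : face v a j := by
      by_contra h
      exact hj (hw1 j h)
    have hg' : (0 : ℚ) < gord v a := by exact_mod_cast hg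
    -- the sum of the coefficients
    have hs : ∑ k, w k = 0 := by
      have h5 : (∑ k, w k) * gord v a = 0 := by
        have e1 := hw2 i1 ((hU i1).2 (Or.inl rfl))
        have e2 := hw2 i2 ((hU i2).2 (Or.inr rfl))
        have e3 : (∑ k, w k) * (gord v a : ℚ) =
            a i1 * ∑ k, w k * (v k i1 : ℚ) + a i2 * ∑ k, w k * (v k i2 : ℚ) := by
          rw [Finset.sum_mul, Finset.mul_sum, Finset.mul_sum, ← Finset.sum_add_distrib]
          refine Finset.sum_congr rfl fun k _ => ?_
          by_cases hk : face v a k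
          · rw [← face2 v a i1 i2 h12 hU k hk]
            ring
          · rw [hw1 k hk]
            ring
        rw [e3, e1, e2]
        ring
      exact (mul_eq_zero.1 h5).resolve_right hg'.ne'
    obtain ⟨k, hkj, hk⟩ : ∃ k, k ≠ j ∧ w k ≠ 0 := by
      by_contra hcon
      push Not at hcon
      rw [Finset.sum_eq_single j (fun k _ hk => hcon k hk) (by simp)] at hs
      exact hj hs
    have hkf : face v a k := by
      by_contra h
      exact hk (hw1 k h)
    have hz : ∀ l, l ≠ j → l ≠ k → w l = 0 := by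
      intro l h1 h2
      by_contra h
      have hlf : face v a l := by
        by_contra h'
        exact h (hw1 l h')
      exact hkj (h3 l k j hlf hkf hjf h2 h1)
    have hpair : ∀ f : Fin r → ℚ, ∑ l, w l * f l = w j * f j + w k * f k := by
      intro f
      rw [← Finset.sum_subset (Finset.subset_univ {j, k}), Finset.sum_pair hkj.symm]
      intro l _ hl
      simp only [Finset.mem_insert, Finset.mem_singleton, not_or] at hl
      rw [hz l hl.1 hl.2, zero_mul]
    have h5 := hpair fun _ => 1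
    simp only [mul_one] at h5
    rw [hs] at h5
    have h6 := hw2 i1 ((hU i1).2 (Or.inl rfl))
    rw [hpair] at h6
    have h7 : w j * ((v j i1 : ℚ) - v k i1) = 0 := by
      linear_combination h6 + (v k i1 : ℚ) * h5
    have h8 := (mul_eq_zero.1 h7).resolve_left hj
    have h9 : v j i1 = v k i1 := by
      have : (v j i1 : ℚ) = v k i1 := by linarith
      exact_mod_cast this
    exact hkj (f1 v a hV i1 i2 h12 hU hC j k hjf hkf h9).symm

end

end Pool.Agent.TH216.LX
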