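import Pool.Agent.TH216.LX.N2

set_option autoImplicit false

/-! At most three variables: facets with three coordinates. -/

namespace Pool.Agent.TH216.LX

open Pool.Agent.W425.MM
open Pool.Agent.W426.SM (gord face)
open Pool.Agent.TH216.MF (SimR)

variable {r : ℕ}

lemma sum3 (i j k : Fin 3) (hij : i ≠ j) (hik : i ≠ k) (hjk : j ≠ k) (f : Fin 3 → ℚ) :
    ∑ x, f x = f i + f j + f k := by
  revert f
  have key : ∀ (g : Fin 3 → ℚ), ∑ x, g x = g 0 + g 1 + g 2 := fun g => Fin.sum_univ_three g
  intro f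
  rw [key]
  fin_cases i <;> fin_cases j <;> fin_cases k <;> simp_all <;> ring

lemma all3 (i j k : Fin 3) (hij : i ≠ j) (hik : i ≠ k) (hjk : j ≠ k) (x : Fin 3) :
    x = i ∨ x = j ∨ x = k := by
  omega

section
variable (v : Fin r → Fin 3 → ℕ) (a : Fin 3 → ℕ) (hV : Vert v) (hg : 0 < gord v a)
  (ha : ∀ i, a i ≠ 0)
include hV hg ha

omit hV hg ha in
lemma face3 (j : Fin r) (hj : face v a j) (i1 i2 i3 : Fin 3) (h12 : i1 ≠ i2) (h13 : i1 ≠ i3)
    (h23 : i2 ≠ i3) :
    (a i1 : ℚ) * v j i1 + (a i2 : ℚ) * v j i2 + (a i3 : ℚ) * v j i3 = gord v a := by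
  rw [← sum3 i1 i2 i3 h12 h13 h23 fun i => (a i : ℚ) * v j i]
  unfold face at hj
  exact_mod_cast hj

/-- the sum of the coefficients of a relation on the facet is zero -/
lemma rel_sum (w : Fin r → ℚ) (hw : ∀ j, ¬ face v a j → w j = 0)
    (h : ∀ i, ∑ j, w j * (v j i : ℚ) = 0) : ∑ j, w j = 0 := by
  have hg' : (gord v a : ℚ) ≠ 0 := by exact_mod_cast hg.ne'
  have h1 := sum_of_face v a w (fun j hj => by
    by_contra h'
    exact hj (hw j h')) 0 h
  rw [zero_mul] at h1
  exact (mul_eq_zero.1 h1).resolve_right hg'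

/-- two coordinates determine the point -/
lemma eq_of_two (j k : Fin r) (hj : face v a j) (hk : face v a k) (i1 i2 : Fin 3)
    (h12 : i1 ≠ i2) (h1 : v j i1 = v k i1) (h2 : v j i2 = v k i2) : j = k := by
  by_contra hne
  obtain ⟨i3, h13, h23⟩ : ∃ i3 : Fin 3, i1 ≠ i3 ∧ i2 ≠ i3 := by
    revert h12
    revert i1 i2
    intro i1 i2 _ _ h12
    fin_cases i1 <;> fin_cases i2 <;> simp_all <;> decide
  have e1 := face3 v a j hj i1 i2 i3 h12 h13 h23
  have e2 := face3 v a k hk i1 i2 i3 h12 h13 h23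
  rw [h1, h2, ← e2] at e1
  have ha3 : (a i3 : ℚ) ≠ 0 := by exact_mod_cast ha i3
  have h3 : (v j i3 : ℚ) = v k i3 := mul_left_cancel₀ ha3 (by linarith)
  have h3' : v j i3 = v k i3 := by exact_mod_cast h3
  refine vert2 hV hne fun i => ?_
  rcases all3 i1 i2 i3 h12 h13 h23 i with rfl | rfl | rfl
  · exact h1.ge
  · exact h2.ge
  · exact h3'.ge

/-- three points in a coordinate plane -/
lemma no_three (p q t : Fin r) (hp : face v a p) (hq : face v a q) (ht : face v a t)
    (hpq : p ≠ q) (hpt : p ≠ t) (hqt : q ≠ t) (i : Fin 3) (h1 : v p i = 0) (h2 : v q i = 0)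
    (h3 : v t i = 0) : False := by
  obtain ⟨i2, i3, h12, h13, h23⟩ : ∃ i2 i3 : Fin 3, i ≠ i2 ∧ i ≠ i3 ∧ i2 ≠ i3 := by
    fin_cases i
    · exact ⟨1, 2, by decide, by decide, by decide⟩
    · exact ⟨0, 2, by decide, by decide, by decide⟩
    · exact ⟨0, 1, by decide, by decide, by decide⟩
  have e1 := face3 v a p hp i i2 i3 h12 h13 h23
  have e2 := face3 v a q hq i i2 i3 h12 h13 h23
  have e3 := face3 v a t ht i i2 i3 h12 h13 h23
  rw [h1] at e1
  rw [h2] at e2
  rw [h3] at e3
  have ha3 : (a i3 : ℚ) ≠ 0 := by exact_mod_cast ha i3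
  obtain ⟨-, h5, h6⟩ := rel3 hV hpq hpt hqt ((v q i2 : ℚ) - v t i2) ((v t i2 : ℚ) - v p i2)
    ((v p i2 : ℚ) - v q i2) (by ring) (fun x => by
      rcases all3 i i2 i3 h12 h13 h23 x with rfl | rfl | rfl
      · rw [h1, h2, h3]
        simp
      · ring
      · refine mul_left_cancel₀ ha3 ?_
        rw [mul_zero]
        linear_combination ((v q i2 : ℚ) - v t i2) * e1 + ((v t i2 : ℚ) - v p i2) * e2 +
          ((v p i2 : ℚ) - v q i2) * e3)
  have h7 : v p i2 = v q i2 := by
    have : (v p i2 : ℚ) = v q i2 := by linarith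
    exact_mod_cast this
  exact hpq (eq_of_two v a hV hg ha p q hp hq i i2 h12 (by rw [h1, h2]) h7)

/-- `p`, `q`, `t` have the values `1, 0, 0` in some order -/
def B1T (v : Fin r → Fin 3 → ℕ) (p q t : Fin r) (i : Fin 3) : Prop :=
  (v p i = 1 ∧ v q i = 0 ∧ v t i = 0) ∨ (v p i = 0 ∧ v q i = 1 ∧ v t i = 0) ∨
    (v p i = 0 ∧ v q i = 0 ∧ v t i = 1)

/-- a triangle -/
lemma tri (p q t : Fin r) (hp : face v a p) (hq : face v a q) (ht : face v a t)
    (hpq : p ≠ q) (hpt : p ≠ t) (hqt : q ≠ t) : NonB v True a ∨ ∃ i, B1T v p q t i := by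
  classical
  by_cases hB : ∃ i, B1T v p q t i
  · exact Or.inr hB
  left
  have hsum : ∀ (w : Fin r → ℚ), (∀ j, j ∉ ({p, q, t} : Finset (Fin r)) → w j = 0) →
      ∀ f : Fin r → ℚ, ∑ j, w j * f j = w p * f p + w q * f q + w t * f t := by
    intro w hw f
    rw [← Finset.sum_subset (Finset.subset_univ {p, q, t}), Finset.sum_insert,
      Finset.sum_pair hqt, add_assoc]
    · simp [hpq, hpt]
    · intro j _ hj
      rw [hw j hj, zero_mul]
  have hmem : ∀ j ∈ ({p, q, t} : Finset (Fin r)), j = p ∨ j = q ∨ j = t := by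
    intro j hj
    simpa using hj
  refine nonB_of v a {p, q, t} ?_ (fun j hj => ?_) (fun w hw h => ?_) (fun i hi => ?_)
    (fun l hl c hc h => ?_)
  · have h1 : (Finset.univ.filter fun i => a i ≠ 0) = Finset.univ := by
      ext i
      simp [ha]
    rw [h1, Finset.card_univ, Fintype.card_fin, Finset.card_insert_of_notMem (by simp [hpq, hpt]),
      Finset.card_pair hqt]
  · rcases hmem j hj with rfl | rfl | rfl
    · exact hp
    · exact hq
    · exact ht
  · have h0 := rel_sum v a hV hg ha w (fun j hj => hw j fun h' => by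
      rcases hmem j h' with rfl | rfl | rfl
      · exact hj hp
      · exact hj hq
      · exact hj ht) (fun i => h i (ha i))
    have h1 := hsum w hw fun _ => 1
    simp only [mul_one] at h1
    rw [h0] at h1
    obtain ⟨h2, h3, h4⟩ := rel3 hV hpq hpt hqt (w p) (w q) (w t) h1.symm (fun i => by
      rw [← hsum w hw (fun j => (v j i : ℚ))]
      exact h i (ha i))
    intro j
    by_cases hj : j ∈ ({p, q, t} : Finset (Fin r))
    · rcases hmem j hj with rfl | rfl | rfl
      · exact h2
      · exact h3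
      · exact h4
    · exact hw j hj
  · rintro ⟨j0, hj0, hv1, hu⟩
    apply hB
    refine ⟨i, ?_⟩
    rcases hmem j0 hj0 with rfl | rfl | rfl
    · exact Or.inl ⟨hv1, hu q (by simp) (Ne.symm hpq), hu t (by simp) (Ne.symm hpt)⟩
    · exact Or.inr (Or.inl ⟨hu p (by simp) hpq, hv1, hu t (by simp) (Ne.symm hqt)⟩)
    · exact Or.inr (Or.inr ⟨hu p (by simp) hpt, hu q (by simp) hqt, hv1⟩)
  · simp only [if_neg (ha _), Finset.sum_const_zero, mul_zero]
    exact le_rfl

/-- the exceptional quadrangle is a circuit -/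
lemma exo (A B C D : Fin r) (hA : face v a A) (hB : face v a B) (hC : face v a C)
    (hD : face v a D) (hAB : A ≠ B) (hAC : A ≠ C) (hAD : A ≠ D) (hBC : B ≠ C) (hBD : B ≠ D)
    (hCD : C ≠ D) (i j k : Fin 3) (hij : i ≠ j) (hik : i ≠ k) (hjk : j ≠ k)
    (b1 : v B i = 1) (b2 : v B j = 1) (b3 : v B k = 0)
    (d1 : v D i = 1) (d2 : v D j = 0) (d3 : v D k = 1)
    (a1 : v A i = 0) (a3 : v A k = 0) (c1 : v C i = 0) (c2 : v C j = 0) : Circ v a := by
  classical
  have eA := face3 v a A hA i j k hij hik hjk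
  have eB := face3 v a B hB i j k hij hik hjk
  have eC := face3 v a C hC i j k hij hik hjk
  have eD := face3 v a D hD i j k hij hik hjk
  rw [a1, a3] at eA
  rw [b1, b2, b3] at eB
  rw [c1, c2] at eC
  rw [d1, d2, d3] at eD
  push_cast at eA eB eC eD
  have hai : (0 : ℚ) < a i := by exact_mod_cast Nat.pos_of_ne_zero (ha i)
  have haj : (0 : ℚ) < a j := by exact_mod_cast Nat.pos_of_ne_zero (ha j)
  have hjk' : (a j : ℚ) = a k := by linarith
  have hAC' : (v A j : ℚ) = v C k := by
    refine mul_left_cancel₀ haj.ne' ?_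
    rw [hjk'] at eA ⊢
    linarith
  have hb2 : (1 : ℚ) < v A j := by
    by_contra hcon
    push Not at hcon
    have := mul_le_mul_of_nonneg_left hcon haj.le
    linarith
  have hb2' : 1 < v A j := by exact_mod_cast hb2
  have hACn : v A j = v C k := by exact_mod_cast hAC'
  set b : ℕ := v A j with hb
  have hbq : (b : ℚ) ≠ 0 := by
    have : (0 : ℚ) < b := by linarith
    exact this.ne'
  -- the functions
  set s : Fin r → ℚ := fun x => if x = B then -1 else if x = C then -1 / b else 0 with hs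
  set c : Fin r → ℚ := fun x => if x = A then -1 else if x = D then -b else
    if x = C then 1 else if x = B then b else 0 with hc
  have sA : s A = 0 := by simp [hs, hAB, hAC]
  have sB : s B = -1 := by simp [hs]
  have sC : s C = -1 / b := by simp [hs, hBC.symm]
  have sD : s D = 0 := by simp [hs, hBD.symm, hCD.symm]
  have cA : c A = -1 := by simp [hc]
  have cB : c B = b := by simp [hc, hAB.symm, hBC, hBD]
  have cC : c C = 1 := by simp [hc, hAC.symm, hCD]
  have cD : c D = -b := by simp [hc, hAD.symm]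
  have hs4 : ∀ f : Fin r → ℚ, (∀ x, x ≠ A → x ≠ B → x ≠ C → x ≠ D → f x = 0) →
      ∑ x, f x = f A + f B + f C + f D := by
    intro f hf
    rw [← Finset.sum_subset (Finset.subset_univ {A, B, C, D}), Finset.sum_insert,
      Finset.sum_insert, Finset.sum_pair hCD]
    · ring
    · simp [hBC, hBD]
    · simp [hAB, hAC, hAD]
    · intro x _ hx
      simp only [Finset.mem_insert, Finset.mem_singleton, not_or] at hx
      exact hf x hx.1 hx.2.1 hx.2.2.1 hx.2.2.2
  have hs0 : ∀ x, x ≠ A → x ≠ B → x ≠ C → x ≠ D → s x = 0 := by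
    intro x _ h2 h3 _
    simp [hs, h2, h3]
  have hc0 : ∀ x, x ≠ A → x ≠ B → x ≠ C → x ≠ D → c x = 0 := by
    intro x h1 h2 h3 h4
    simp [hc, h1, h2, h3, h4]
  have hmem : ∀ x ∈ ({A, B, C} : Finset (Fin r)), x = A ∨ x = B ∨ x = C := by
    intro x hx
    simpa using hx
  have hnot : ∀ x, x ∉ ({A, B, C} : Finset (Fin r)) → x ≠ A ∧ x ≠ B ∧ x ≠ C := by
    intro x hx
    simpa using hx
  have hnegC : ¬ NegI (s C) := by
    rintro ⟨m, hm, h⟩
    rw [sC, neg_div, neg_inj, div_eq_iff hbq] at h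
    have h1 : (1 : ℚ) ≤ m := by exact_mod_cast hm
    nlinarith
  have hneg0 : ∀ x, s x = 0 → ¬ NegI (s x) := fun x h1 h2 => h2.ne h1
  refine ⟨ha, {A, B, C}, D, s, c, ?_, ?_, ?_, hD, ?_, ?_, ?_, ?_, ?_, ?_, ?_, ?_⟩
  · simp [hAD.symm, hBD.symm, hCD.symm]
  · rw [Finset.card_insert_of_notMem (by simp [hAB, hAC]), Finset.card_pair hBC]
  · intro x hx
    rcases hmem x hx with rfl | rfl | rfl
    · exact hA
    · exact hB
    · exact hC
  · rw [Fintype.linearIndependent_iff]
    intro g hg x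
    -- the three coordinates
    have hA' : A ∈ ({A, B, C} : Finset (Fin r)) := by simp
    have hB' : B ∈ ({A, B, C} : Finset (Fin r)) := by simp
    have hC' : C ∈ ({A, B, C} : Finset (Fin r)) := by simp
    set w : Fin r → ℚ := fun x => if hx : x ∈ ({A, B, C} : Finset (Fin r)) then g ⟨x, hx⟩ else 0
      with hw
    have hgw : ∀ y : Fin 3, ∑ x, w x * (v x y : ℚ) = 0 := by
      intro y
      have h2 := congrFun hg y
      rw [Finset.sum_apply] at h2
      simp only [Pi.smul_apply, smul_eq_mul, Pi.zero_apply] at h2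
      refine Eq.trans ?_ h2
      have e1 := Finset.sum_coe_sort ({A, B, C} : Finset (Fin r)) (fun x => w x * (v x y : ℚ))
      have e2 : ∑ x ∈ ({A, B, C} : Finset (Fin r)), w x * (v x y : ℚ) =
          ∑ x, w x * (v x y : ℚ) := by
        refine Finset.sum_subset (Finset.subset_univ _) fun x _ hx => ?_
        simp only [hw]
        rw [dif_neg hx, zero_mul]
      rw [← e2, ← e1]
      refine Finset.sum_congr rfl fun x _ => ?_
      simp only [hw]
      rw [dif_pos x.2]
    have hwD : w D = 0 := by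
      simp only [hw]
      rw [dif_neg (by simp [hAD.symm, hBD.symm, hCD.symm])]
    have hgw' : ∀ y : Fin 3, w A * v A y + w B * v B y + w C * v C y = 0 := by
      intro y
      have h1 := hgw y
      rw [hs4 _ (fun x h1 h2 h3 _ => by
        simp only [hw]
        rw [dif_neg (by simp [h1, h2, h3]), zero_mul]), hwD, zero_mul, add_zero] at h1
      exact h1
    have g1 := hgw' i
    have g2 := hgw' j
    have g3 := hgw' k
    rw [a1, b1, c1] at g1
    rw [← hb, b2, c2] at g2
    rw [a3, b3, ← hACn] at g3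
    push_cast at g1 g2 g3
    have hwB : w B = 0 := by linarith
    have hwA : w A = 0 := by
      rw [hwB] at g2
      have : w A * b = 0 := by linarith
      exact (mul_eq_zero.1 this).resolve_right hbq
    have hwC : w C = 0 := by
      have : w C * b = 0 := by linarith
      exact (mul_eq_zero.1 this).resolve_right hbq
    have hx : g x = w x := by
      simp only [hw]
      rw [dif_pos x.2]
    rw [hx]
    rcases hmem x.1 x.2 with h | h | h
    · rw [h]; exact hwA
    · rw [h]; exact hwB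
    · rw [h]; exact hwC
  · intro x hx
    obtain ⟨h1, h2, h3⟩ := hnot x hx
    by_cases h4 : x = D
    · rw [h4]; exact sD
    · exact hs0 x h1 h2 h3 h4
  · intro y
    rw [hs4 _ (fun x h1 h2 h3 h4 => by rw [hs0 x h1 h2 h3 h4, zero_mul]), sA, sB, sC, sD]
    rcases all3 i j k hij hik hjk y with rfl | rfl | rfl
    · rw [b1, c1]; push_cast; ring
    · rw [b2, c2]; push_cast; ring
    · rw [b3, ← hACn]
      field_simp
      ring
  · intro x hx hxD
    obtain ⟨h1, h2, h3⟩ := hnot x hx
    exact hc0 x h1 h2 h3 hxD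
  · rw [cD]
    linarith
  · intro y
    rw [hs4 _ (fun x h1 h2 h3 h4 => by rw [hc0 x h1 h2 h3 h4, zero_mul]), cA, cB, cC, cD]
    rcases all3 i j k hij hik hjk y with rfl | rfl | rfl
    · rw [a1, b1, c1, d1]; push_cast; ring
    · rw [← hb, b2, c2, d2]; push_cast; ring
    · rw [a3, b3, ← hACn, d3]; push_cast; ring
  · intro x hx
    by_cases h2 : x = B
    · rw [h2, cB]; exact hbq
    · exfalso
      by_cases h3 : x = C
      · rw [h3] at hx
        exact hnegC hx
      · exact hneg0 x (by simp [hs, h2, h3]) hx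
  · have h1 : (Finset.univ.filter fun x => NegI (s x) ∧ 0 < c x) ⊆ {B} := by
      intro x hx
      obtain ⟨-, h2, -⟩ := Finset.mem_filter.1 hx
      rw [Finset.mem_singleton]
      by_contra h3
      by_cases h4 : x = C
      · rw [h4] at h2
        exact hnegC h2
      · exact hneg0 x (by simp [hs, h3, h4]) h2
    have h2 : ({A, D} : Finset (Fin r)) ⊆ Finset.univ.filter fun x => s x = 0 ∧ c x < 0 := by
      intro x hx
      rw [Finset.mem_filter]
      rcases Finset.mem_insert.1 hx with rfl | hx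
      · exact ⟨Finset.mem_univ _, sA, by rw [cA]; norm_num⟩
      · rw [Finset.mem_singleton.1 hx]
        exact ⟨Finset.mem_univ _, sD, by rw [cD]; linarith⟩
    have h3 := Finset.card_le_card h1
    have h4 := Finset.card_le_card h2
    rw [Finset.card_singleton] at h3
    rw [Finset.card_pair hAD] at h4
    omega

end

end Pool.Agent.TH216.LX
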